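import Mathlib

/-!
Marks of a finite group: basic facts.
-/

set_option autoImplicit false

namespace Pool.Agent.Lib.MP_6b5f89_al

open Subgroup

section Basic

variable {G : Type} [Group G]

/-- conjugate subgroup `g K g⁻¹` -/
def cj (g : G) (K : Subgroup G) : Subgroup G := K.map (MulAut.conj g).toMonoidHom

theorem mem_cj {g x : G} {K : Subgroup G} : x ∈ cj g K ↔ g⁻¹ * x * g ∈ K := by
  unfold cj
  rw [Subgroup.mem_map]
  constructor
  · rintro ⟨y, hy, rfl⟩
    simpa [mul_assoc] using hy
  · intro h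
    exact ⟨_, h, by simp [mul_assoc]⟩

@[simp] theorem cj_one (K : Subgroup G) : cj 1 K = K := by
  ext x; simp [mem_cj]

theorem cj_mul (g h : G) (K : Subgroup G) : cj (g * h) K = cj g (cj h K) := by
  ext x; simp [mem_cj, mul_assoc]

theorem cj_mono {g : G} {K L : Subgroup G} (h : K ≤ L) : cj g K ≤ cj g L := by
  intro x hx
  rw [mem_cj] at hx ⊢
  exact h hx

theorem cj_inv_cj (g : G) (K : Subgroup G) : cj g⁻¹ (cj g K) = K := by
  rw [← cj_mul]; simp

theorem cj_cj_inv (g : G) (K : Subgroup G) : cj g (cj g⁻¹ K) = K := by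
  rw [← cj_mul]; simp

theorem cj_le_cj {g : G} {K L : Subgroup G} : cj g K ≤ cj g L ↔ K ≤ L := by
  constructor
  · intro h
    have := cj_mono (g := g⁻¹) h
    rwa [cj_inv_cj, cj_inv_cj] at this
  · exact cj_mono

theorem cj_le_iff {g : G} {K L : Subgroup G} : cj g K ≤ L ↔ K ≤ cj g⁻¹ L := by
  rw [← cj_le_cj (g := g⁻¹), cj_inv_cj]

theorem le_cj_iff {g : G} {K L : Subgroup G} : K ≤ cj g L ↔ cj g⁻¹ K ≤ L := by
  rw [← cj_le_cj (g := g⁻¹), cj_inv_cj]

theorem cj_injective (g : G) : Function.Injective (cj g : Subgroup G → Subgroup G) := by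
  intro K L h
  rw [← cj_inv_cj g K, h, cj_inv_cj]

theorem card_cj (g : G) (K : Subgroup G) : Nat.card (cj g K) = Nat.card K := by
  unfold cj
  exact Nat.card_congr (K.equivMapOfInjective _ (MulAut.conj g).injective).symm.toEquiv

theorem mem_normalizer_iff_cj [Finite G] {g : G} {K : Subgroup G} :
    g ∈ normalizer (K : Set G) ↔ cj g K = K := by
  rw [Subgroup.mem_normalizer_iff'']
  constructor
  · intro h
    ext x
    rw [mem_cj, h x]
  · intro h x
    rw [← mem_cj, h]

theorem cj_of_normal {K : Subgroup G} [hK : K.Normal] (g : G) : cj g K = K := by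
  ext x
  rw [mem_cj]
  constructor
  · intro h
    have := hK.conj_mem _ h g
    simpa [mul_assoc] using this
  · intro h
    have := hK.conj_mem _ h g⁻¹
    simpa [mul_assoc] using this

theorem cj_bot (g : G) : cj g (⊥ : Subgroup G) = ⊥ := cj_of_normal g

theorem cj_self {K : Subgroup G} {g : G} (hg : g ∈ K) : cj g K = K := by
  ext x
  rw [mem_cj]
  constructor
  · intro h
    have := K.mul_mem (K.mul_mem hg h) (K.inv_mem hg)
    simpa [mul_assoc] using this
  · intro h
    exact K.mul_mem (K.mul_mem (K.inv_mem hg) h) hg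

/-- conjugacy of subgroups -/
def Cj (K L : Subgroup G) : Prop := ∃ g : G, cj g K = L

theorem Cj.refl (K : Subgroup G) : Cj K K := ⟨1, cj_one K⟩

theorem Cj.symm {K L : Subgroup G} (h : Cj K L) : Cj L K := by
  obtain ⟨g, rfl⟩ := h
  exact ⟨g⁻¹, cj_inv_cj g K⟩

theorem Cj.trans {K L M : Subgroup G} (h : Cj K L) (h' : Cj L M) : Cj K M := by
  obtain ⟨g, rfl⟩ := h
  obtain ⟨g', rfl⟩ := h'
  exact ⟨g' * g, cj_mul _ _ _⟩

theorem Cj.comm {K L : Subgroup G} : Cj K L ↔ Cj L K := ⟨Cj.symm, Cj.symm⟩

theorem Cj.card_eq {K L : Subgroup G} (h : Cj K L) : Nat.card K = Nat.card L := by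
  obtain ⟨g, rfl⟩ := h
  exact (card_cj g K).symm

theorem Cj.eq_of_normal {K L : Subgroup G} [K.Normal] (h : Cj K L) : K = L := by
  obtain ⟨g, rfl⟩ := h
  exact (cj_of_normal g).symm

theorem Cj.eq_of_normal' {K L : Subgroup G} [L.Normal] (h : Cj K L) : K = L :=
  (h.symm.eq_of_normal).symm

theorem Cj.of_le_card [Finite G] {K L : Subgroup G} {g : G} (h : K ≤ cj g L)
    (hc : Nat.card L ≤ Nat.card K) : Cj L K := by
  refine ⟨g, ?_⟩
  symm
  exact Subgroup.eq_of_le_of_card_ge h (by rw [card_cj]; exact hc)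

theorem normalizer_cj [Finite G] (g : G) (K : Subgroup G) :
    normalizer (cj g K : Set G) = cj g (normalizer (K : Set G)) := by
  ext x
  rw [mem_normalizer_iff_cj, mem_cj, mem_normalizer_iff_cj]
  constructor
  · intro h
    rw [cj_mul, cj_mul, h, cj_inv_cj]
  · intro h
    have := congrArg (cj g) h
    rw [← cj_mul] at this
    rw [← cj_mul]
    convert this using 2
    group

theorem card_normalizer_cj [Finite G] {K L : Subgroup G} (h : Cj K L) :
    Nat.card (normalizer (K : Set G)) = Nat.card (normalizer (L : Set G)) := by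
  obtain ⟨g, rfl⟩ := h
  rw [normalizer_cj, card_cj]

end Basic

section Counting

variable {G : Type} [Group G]

/-- A set which is stable under right multiplication by `N` has cardinality divisible by `|N|`. -/
theorem card_dvd_of_right_stable [Finite G] (N : Subgroup G) (U : Set G)
    (h : ∀ g ∈ U, ∀ n ∈ N, g * n ∈ U) : Nat.card N ∣ Nat.card U := by
  have hU : U = (QuotientGroup.mk : G → G ⧸ N) ⁻¹' (QuotientGroup.mk '' U) := by
    ext x
    constructor
    · intro hx; exact ⟨x, hx, rfl⟩
    · rintro ⟨y, hy, hxy⟩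
      have h1 : y⁻¹ * x ∈ N := QuotientGroup.eq.1 hxy
      have := h y hy _ h1
      simpa using this
  have e := QuotientGroup.preimageMkEquivSubgroupProdSet N (QuotientGroup.mk '' U)
  have h2 : Nat.card U = Nat.card (N × ↥((QuotientGroup.mk : G → G ⧸ N) '' U)) := by
    rw [← Nat.card_congr e, ← hU]
  rw [h2, Nat.card_prod]
  exact Dvd.intro _ rfl

/-- The mark of `K` on `G/L`: number of fixed points of `K` on `G/L`. -/
noncomputable def mark (L K : Subgroup G) : ℤ :=
  ((Nat.card {x : G ⧸ L // ∀ k ∈ K, k • x = x} : ℕ) : ℤ)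

theorem smul_mk_eq {L : Subgroup G} (k g : G) : k • (g : G ⧸ L) = ((k * g : G) : G ⧸ L) := rfl

theorem fixed_mk_iff {L K : Subgroup G} {g : G} :
    (∀ k ∈ K, k • (g : G ⧸ L) = (g : G ⧸ L)) ↔ K ≤ cj g L := by
  constructor
  · intro h k hk
    have := h k hk
    rw [smul_mk_eq] at this
    have h2 := QuotientGroup.eq.1 this.symm
    rw [mem_cj]
    simpa [mul_assoc] using h2
  · intro h k hk
    have h1 := h hk
    rw [mem_cj] at h1
    rw [smul_mk_eq]
    symm
    rw [QuotientGroup.eq]
    simpa [mul_assoc] using h1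

theorem card_mul_mark [Finite G] (L K : Subgroup G) :
    (Nat.card L : ℤ) * mark L K = (Nat.card {g : G // K ≤ cj g L} : ℕ) := by
  have e := QuotientGroup.preimageMkEquivSubgroupProdSet L
    {x : G ⧸ L | ∀ k ∈ K, k • x = x}
  have h1 : ((QuotientGroup.mk : G → G ⧸ L) ⁻¹' {x : G ⧸ L | ∀ k ∈ K, k • x = x})
      = {g : G | K ≤ cj g L} := by
    ext g
    exact fixed_mk_iff
  rw [h1] at e
  have h2 := Nat.card_congr e
  rw [Nat.card_prod] at h2
  unfold mark
  have h3 : Nat.card {g : G // K ≤ cj g L} = Nat.card {g : G | K ≤ cj g L} := rfl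
  rw [h3, h2]
  push_cast
  rfl

theorem mark_nonneg (L K : Subgroup G) : 0 ≤ mark L K := by
  unfold mark; exact Int.natCast_nonneg _

theorem mark_ne_zero_iff [Finite G] {L K : Subgroup G} : mark L K ≠ 0 ↔ ∃ g, K ≤ cj g L := by
  have h := card_mul_mark L K
  have hL : (Nat.card L : ℤ) ≠ 0 := by
    have : 0 < Nat.card L := Nat.card_pos
    exact_mod_cast this.ne'
  constructor
  · intro hm
    have : (Nat.card {g : G // K ≤ cj g L} : ℤ) ≠ 0 := by
      rw [← h]; exact mul_ne_zero hL hm
    have h2 : Nat.card {g : G // K ≤ cj g L} ≠ 0 := by exact_mod_cast this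
    rw [Nat.card_ne_zero] at h2
    obtain ⟨⟨g, hg⟩⟩ := h2.1
    exact ⟨g, hg⟩
  · rintro ⟨g, hg⟩ h0
    rw [h0, mul_zero] at h
    have h1 : Nat.card {g : G // K ≤ cj g L} = 0 := by exact_mod_cast h.symm
    have h2 : 0 < Nat.card {g : G // K ≤ cj g L} := by
      have : Nonempty {g : G // K ≤ cj g L} := ⟨⟨g, hg⟩⟩
      exact Nat.card_pos
    omega

theorem mark_cj_right [Finite G] (L K : Subgroup G) (x : G) : mark L (cj x K) = mark L K := by
  have h1 := card_mul_mark L K
  have h2 := card_mul_mark L (cj x K)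
  have hL : (Nat.card L : ℤ) ≠ 0 := by
    have : 0 < Nat.card L := Nat.card_pos
    exact_mod_cast this.ne'
  apply mul_left_cancel₀ hL
  rw [h1, h2]
  congr 1
  apply Nat.card_congr
  refine ⟨fun g => ⟨x⁻¹ * g, ?_⟩, fun g => ⟨x * g, ?_⟩, ?_, ?_⟩
  · have := g.2
    rw [cj_le_iff] at this
    rwa [cj_mul]
  · have := g.2
    rw [cj_mul]
    exact cj_mono this
  · intro g; simp
  · intro g; simp

theorem mark_congr_right [Finite G] {L K K' : Subgroup G} (h : Cj K K') :
    mark L K = mark L K' := by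
  obtain ⟨x, rfl⟩ := h
  exact (mark_cj_right L K x).symm

/-- `|N(V)|` divides `|V| * mark V K`. -/
theorem card_normalizer_dvd [Finite G] (V K : Subgroup G) :
    (Nat.card (normalizer (V : Set G)) : ℤ) ∣ (Nat.card V : ℤ) * mark V K := by
  rw [card_mul_mark]
  have := card_dvd_of_right_stable (normalizer (V : Set G)) {g : G | K ≤ cj g V} (by
    intro g hg n hn
    rw [mem_normalizer_iff_cj] at hn
    show K ≤ cj (g * n) V
    rw [cj_mul, hn]
    exact hg)
  exact_mod_cast this

/-- the index `|N(V) : V|` -/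
noncomputable def nidx (V : Subgroup G) : ℕ := Nat.card (normalizer (V : Set G)) / Nat.card V

theorem nidx_mul_card [Finite G] (V : Subgroup G) :
    nidx V * Nat.card V = Nat.card (normalizer (V : Set G)) := by
  unfold nidx
  exact Nat.div_mul_cancel (Subgroup.card_dvd_of_le Subgroup.le_normalizer)

theorem nidx_pos [Finite G] (V : Subgroup G) : 0 < nidx V := by
  have h := nidx_mul_card V
  have h2 : 0 < Nat.card (normalizer (V : Set G)) := Nat.card_pos
  rw [← h] at h2
  exact Nat.pos_of_mul_pos_right h2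

theorem nidx_congr [Finite G] {V W : Subgroup G} (h : Cj V W) : nidx V = nidx W := by
  unfold nidx
  rw [card_normalizer_cj h, h.card_eq]

theorem nidx_dvd_mark [Finite G] (V K : Subgroup G) : (nidx V : ℤ) ∣ mark V K := by
  have h := card_normalizer_dvd V K
  rw [← nidx_mul_card V] at h
  have hL : (Nat.card V : ℤ) ≠ 0 := by
    have : 0 < Nat.card V := Nat.card_pos
    exact_mod_cast this.ne'
  push_cast at h
  rw [mul_comm (nidx V : ℤ)] at h
  exact Int.dvd_of_mul_dvd_mul_left hL h

theorem mark_self [Finite G] (K : Subgroup G) : mark K K = nidx K := by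
  have h := card_mul_mark K K
  have h2 : Nat.card {g : G // K ≤ cj g K} = Nat.card (normalizer (K : Set G)) := by
    apply Nat.card_congr
    refine Equiv.subtypeEquivRight ?_
    intro g
    rw [mem_normalizer_iff_cj]
    constructor
    · intro h
      symm
      exact Subgroup.eq_of_le_of_card_ge h (by rw [card_cj])
    · intro h
      rw [h]
  rw [h2, ← nidx_mul_card K] at h
  have hL : (Nat.card K : ℤ) ≠ 0 := by
    have : 0 < Nat.card K := Nat.card_pos
    exact_mod_cast this.ne'
  apply mul_left_cancel₀ hL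
  rw [h]; push_cast; ring

theorem mark_of_cj [Finite G] {K L : Subgroup G} (h : Cj K L) : mark L K = nidx L := by
  rw [mark_congr_right h, mark_self]

/-- marks at a subgroup of at least the same order -/
theorem mark_eq_zero_of_card_le [Finite G] {L K : Subgroup G} (hc : Nat.card L ≤ Nat.card K)
    (h : ¬ Cj K L) : mark L K = 0 := by
  by_contra hne
  obtain ⟨g, hg⟩ := mark_ne_zero_iff.1 hne
  exact h (Cj.of_le_card hg hc).symm

theorem mark_normal_of_le [Finite G] (V M : Subgroup G) [hM : M.Normal] (hMV : M ≤ V) :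
    (Nat.card V : ℤ) * mark V M = Nat.card G := by
  have h := card_mul_mark V M
  have h2 : Nat.card {g : G // M ≤ cj g V} = Nat.card G := by
    apply Nat.card_congr
    refine Equiv.subtypeUnivEquiv ?_
    intro g
    rw [le_cj_iff, cj_of_normal]
    exact hMV
  rw [h, h2]

theorem mark_normal_of_not_le [Finite G] (V M : Subgroup G) [hM : M.Normal] (hMV : ¬ M ≤ V) :
    mark V M = 0 := by
  by_contra hne
  obtain ⟨g, hg⟩ := mark_ne_zero_iff.1 hne
  rw [le_cj_iff, cj_of_normal] at hg
  exact hMV hg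

end Counting

end Pool.Agent.Lib.MP_6b5f89_al
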