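import Mathlib
import Pool.Agent.Lib.MP_6b5f89_al.Marks

/-!
The ring of marks and Burnside's congruences.
-/

set_option autoImplicit false

namespace Pool.Agent.Lib.MP_6b5f89_al

open Subgroup

section Necessity

variable {G : Type} [Group G]

/-- number of fixed points of `K` on a `G`-set -/
noncomputable def markX (X : Type) [MulAction G X] (K : Subgroup G) : ℤ :=
  ((Nat.card {x : X // ∀ k ∈ K, k • x = x} : ℕ) : ℤ)

open Classical in
/-- The Burnside sum at `K`. -/
noncomputable def bsum [Fintype G] (f : Subgroup G → ℤ) (K : Subgroup G) : ℤ :=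
  ∑ g ∈ Finset.univ.filter (fun g : G => g ∈ normalizer (K : Set G)), f (zpowers g ⊔ K)

/-- Class functions satisfying Burnside's congruences. -/
structure InB [Fintype G] (f : Subgroup G → ℤ) : Prop where
  conj : ∀ (g : G) (K : Subgroup G), f (cj g K) = f K
  cong : ∀ K : Subgroup G, (Nat.card (normalizer (K : Set G)) : ℤ) ∣ bsum f K

theorem InB.congr [Fintype G] {f : Subgroup G → ℤ} (h : InB f) {K L : Subgroup G} (hc : Cj K L) :
    f K = f L := by
  obtain ⟨g, rfl⟩ := hc
  exact (h.conj g K).symm

theorem bsum_add [Fintype G] (f f' : Subgroup G → ℤ) (K : Subgroup G) :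
    bsum (f + f') K = bsum f K + bsum f' K := by
  unfold bsum
  rw [← Finset.sum_add_distrib]
  rfl

theorem bsum_neg [Fintype G] (f : Subgroup G → ℤ) (K : Subgroup G) :
    bsum (-f) K = - bsum f K := by
  unfold bsum
  rw [← Finset.sum_neg_distrib]
  rfl

theorem bsum_zero [Fintype G] (K : Subgroup G) : bsum (0 : Subgroup G → ℤ) K = 0 := by
  unfold bsum
  simp

theorem InB.zero [Fintype G] : InB (0 : Subgroup G → ℤ) :=
  ⟨fun _ _ => rfl, fun K => by rw [bsum_zero]; exact dvd_zero _⟩

theorem InB.add [Fintype G] {f f' : Subgroup G → ℤ} (h : InB f) (h' : InB f') : InB (f + f') :=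
  ⟨fun g K => by simp [h.conj, h'.conj], fun K => by
    rw [bsum_add]; exact dvd_add (h.cong K) (h'.cong K)⟩

theorem InB.neg [Fintype G] {f : Subgroup G → ℤ} (h : InB f) : InB (-f) :=
  ⟨fun g K => by simp [h.conj], fun K => by
    rw [bsum_neg]; exact (h.cong K).neg_right⟩

theorem InB.sub [Fintype G] {f f' : Subgroup G → ℤ} (h : InB f) (h' : InB f') : InB (f - f') := by
  rw [sub_eq_add_neg]; exact h.add h'.neg

theorem markX_conj (X : Type) [MulAction G X] (g : G) (K : Subgroup G) :
    markX X (cj g K) = markX X K := by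
  unfold markX
  congr 1
  apply Nat.card_congr
  refine ⟨fun x => ⟨g⁻¹ • x.1, ?_⟩, fun x => ⟨g • x.1, ?_⟩, ?_, ?_⟩
  · intro k hk
    have h1 := x.2 (g * k * g⁻¹) (by rw [mem_cj]; simpa [mul_assoc] using hk)
    rw [← mul_smul]
    conv_rhs => rw [← h1]
    rw [← mul_smul]
    congr 1
    group
  · intro k hk
    rw [mem_cj] at hk
    have h1 := x.2 _ hk
    conv_rhs => rw [← h1]
    rw [← mul_smul, ← mul_smul]
    congr 1
    group
  · intro x; simp
  · intro x; simp

/-- the normaliser of `K` acts on the fixed points of `K` -/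
instance fixedAction (X : Type) [MulAction G X] (K : Subgroup G) :
    MulAction (normalizer (K : Set G)) {x : X // ∀ k ∈ K, k • x = x} where
  smul n x := ⟨(n : G) • x.1, by
    intro k hk
    have h1 : (n : G)⁻¹ * k * n ∈ K := (Subgroup.mem_normalizer_iff''.1 n.2 k).1 hk
    have h2 := x.2 _ h1
    conv_rhs => rw [← h2]
    rw [← mul_smul, ← mul_smul]
    congr 1
    group⟩
  one_smul x := by
    apply Subtype.ext
    show ((1 : normalizer (K : Set G)) : G) • x.1 = x.1
    simp
  mul_smul a b x := by
    apply Subtype.ext
    show ((a * b : normalizer (K : Set G)) : G) • x.1 = (a : G) • (b : G) • x.1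
    simp [mul_smul]

theorem fixedAction_coe (X : Type) [MulAction G X] (K : Subgroup G)
    (n : normalizer (K : Set G)) (x : {x : X // ∀ k ∈ K, k • x = x}) :
    ((n • x : {x : X // ∀ k ∈ K, k • x = x}) : X) = (n : G) • (x : X) := rfl

theorem markX_cong [Fintype G] (X : Type) [MulAction G X] [Finite X] (K : Subgroup G) :
    (Nat.card (normalizer (K : Set G)) : ℤ) ∣ bsum (markX X) K := by
  classical
  have := Fintype.ofFinite X
  set N := normalizer (K : Set G) with hN
  set Y := {x : X // ∀ k ∈ K, k • x = x} with hY
  have hB := MulAction.sum_card_fixedBy_eq_card_orbits_mul_card_group N Y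
  have h1 : ∀ n : N, (Fintype.card (MulAction.fixedBy Y n) : ℤ) = markX X (zpowers (n : G) ⊔ K) := by
    intro n
    unfold markX
    rw [← Nat.card_eq_fintype_card]
    congr 1
    apply Nat.card_congr
    refine ⟨fun y => ⟨y.1.1, ?_⟩, fun x => ⟨⟨x.1, fun k hk => x.2 k (le_sup_right (a := zpowers (n : G)) hk)⟩, ?_⟩, ?_, ?_⟩
    · have h2 : zpowers (n : G) ⊔ K ≤ MulAction.stabilizer G (y.1.1) := by
        rw [sup_le_iff]
        constructor
        · rw [zpowers_le]
          rw [MulAction.mem_stabilizer_iff]
          have := y.2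
          rw [MulAction.mem_fixedBy] at this
          have h3 := congrArg Subtype.val this
          rw [fixedAction_coe] at h3
          exact h3
        · intro k hk
          rw [MulAction.mem_stabilizer_iff]
          exact y.1.2 k hk
      intro k hk
      exact h2 hk
    · rw [MulAction.mem_fixedBy]
      apply Subtype.ext
      rw [fixedAction_coe]
      exact x.2 _ (le_sup_left (b := K) (mem_zpowers (n : G)))
    · intro y; rfl
    · intro x; rfl
  have h2 : bsum (markX X) K = ∑ n : N, (Fintype.card (MulAction.fixedBy Y n) : ℤ) := by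
    unfold bsum
    rw [Finset.sum_congr rfl (fun n (_ : n ∈ Finset.univ) => h1 n)]
    rw [← Finset.sum_subtype_eq_sum_filter]
    apply Finset.sum_bij' (fun (a : {x // x ∈ N}) _ => a) (fun a _ => a)
    · intro a _; simp
    · intro a _; simp
    · intro a _; rfl
    · intro a _; rfl
    · intro a _; rfl
  rw [h2, ← Nat.cast_sum, hB]
  rw [Nat.card_eq_fintype_card]
  push_cast
  exact Dvd.intro_left _ rfl

theorem inB_markX [Fintype G] (X : Type) [MulAction G X] [Finite X] :
    InB (fun K : Subgroup G => markX X K) :=
  ⟨fun g K => markX_conj X g K, fun K => markX_cong X K⟩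

theorem mark_eq_markX (L : Subgroup G) : mark L = markX (G ⧸ L) := rfl

theorem inB_mark [Fintype G] (L : Subgroup G) : InB (mark L) := inB_markX (G ⧸ L)

/-- The ring of marks, exactly as in the frozen statement. -/
abbrev BR (G : Type) [Group G] : Subring (Subgroup G → ℤ) :=
  Subring.closure (Set.range (fun L : Subgroup G => fun K : Subgroup G =>
              ((Nat.card {x : G ⧸ L // ∀ k ∈ K, k • x = x} : ℕ) : ℤ)))

theorem markX_sum (X Y : Type) [MulAction G X] [MulAction G Y] [Finite X] [Finite Y]
    (K : Subgroup G) : markX (X ⊕ Y) K = markX X K + markX Y K := by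
  unfold markX
  rw [← Nat.cast_add, ← Nat.card_sum]
  congr 1
  apply Nat.card_congr
  refine ⟨fun z => match z with
    | ⟨Sum.inl x, h⟩ => Sum.inl ⟨x, fun k hk => Sum.inl_injective (h k hk)⟩
    | ⟨Sum.inr y, h⟩ => Sum.inr ⟨y, fun k hk => Sum.inr_injective (h k hk)⟩,
    fun z => match z with
    | Sum.inl x => ⟨Sum.inl x.1, fun k hk => congrArg Sum.inl (x.2 k hk)⟩
    | Sum.inr y => ⟨Sum.inr y.1, fun k hk => congrArg Sum.inr (y.2 k hk)⟩, ?_, ?_⟩
  · rintro ⟨x | y, h⟩ <;> rfl
  · rintro (x | y) <;> rfl

theorem markX_prod (X Y : Type) [MulAction G X] [MulAction G Y]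
    (K : Subgroup G) : markX (X × Y) K = markX X K * markX Y K := by
  unfold markX
  rw [← Nat.cast_mul, ← Nat.card_prod]
  congr 1
  apply Nat.card_congr
  refine ⟨fun z => (⟨z.1.1, fun k hk => congrArg Prod.fst (z.2 k hk)⟩,
    ⟨z.1.2, fun k hk => congrArg Prod.snd (z.2 k hk)⟩),
    fun z => ⟨(z.1.1, z.2.1), fun k hk => Prod.ext (z.1.2 k hk) (z.2.2 k hk)⟩, ?_, ?_⟩
  · rintro ⟨⟨x, y⟩, h⟩; rfl
  · rintro ⟨x, y⟩; rfl

/-- trivial action on a point -/
instance trivAction : MulAction G PUnit.{1} where
  smul _ _ := PUnit.unit
  one_smul _ := rfl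
  mul_smul _ _ _ := rfl

/-- trivial action on the empty set -/
instance emptyAction : MulAction G Empty where
  smul _ x := x
  one_smul _ := rfl
  mul_smul _ _ _ := rfl

theorem markX_punit (K : Subgroup G) : markX PUnit K = 1 := by
  unfold markX
  have : Nat.card {x : PUnit.{1} // ∀ k ∈ K, k • x = x} = 1 := by
    rw [Nat.card_eq_one_iff_unique]
    exact ⟨⟨fun a b => Subtype.ext rfl⟩, ⟨⟨PUnit.unit, fun _ _ => rfl⟩⟩⟩
  rw [this]; rfl

theorem markX_empty (K : Subgroup G) : markX Empty K = 0 := by
  unfold markX
  have : IsEmpty {x : Empty // ∀ k ∈ K, k • x = x} := ⟨fun x => x.1.elim⟩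
  rw [Nat.card_of_isEmpty]; rfl

theorem exists_markX [Fintype G] (f : Subgroup G → ℤ) (hf : f ∈ BR G) :
    ∃ (X Y : Type) (_ : MulAction G X) (_ : MulAction G Y) (_ : Finite X) (_ : Finite Y),
      f = fun K => markX X K - markX Y K := by
  induction hf using Subring.closure_induction with
  | mem f hf =>
    obtain ⟨L, rfl⟩ := hf
    refine ⟨G ⧸ L, Empty, inferInstance, inferInstance, inferInstance, inferInstance, ?_⟩
    funext K
    rw [markX_empty, sub_zero]
    rfl
  | zero =>
    refine ⟨Empty, Empty, inferInstance, inferInstance, inferInstance, inferInstance, ?_⟩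
    funext K
    simp
  | one =>
    refine ⟨PUnit, Empty, inferInstance, inferInstance, inferInstance, inferInstance, ?_⟩
    funext K
    rw [markX_empty, markX_punit]
    rfl
  | add f g _ _ hf hg =>
    obtain ⟨X, Y, _, _, _, _, rfl⟩ := hf
    obtain ⟨X', Y', _, _, _, _, rfl⟩ := hg
    refine ⟨X ⊕ X', Y ⊕ Y', inferInstance, inferInstance, inferInstance, inferInstance, ?_⟩
    funext K
    rw [markX_sum, markX_sum]
    simp only [Pi.add_apply]
    ring
  | neg f _ hf =>
    obtain ⟨X, Y, _, _, _, _, rfl⟩ := hf
    refine ⟨Y, X, inferInstance, inferInstance, inferInstance, inferInstance, ?_⟩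
    funext K
    simp only [Pi.neg_apply]
    ring
  | mul f g _ _ hf hg =>
    obtain ⟨X, Y, _, _, _, _, rfl⟩ := hf
    obtain ⟨X', Y', _, _, _, _, rfl⟩ := hg
    refine ⟨(X × X') ⊕ (Y × Y'), (X × Y') ⊕ (Y × X'), inferInstance, inferInstance,
      inferInstance, inferInstance, ?_⟩
    funext K
    rw [markX_sum, markX_sum, markX_prod, markX_prod, markX_prod, markX_prod]
    simp only [Pi.mul_apply]
    ring

theorem inB_of_mem [Fintype G] {f : Subgroup G → ℤ} (hf : f ∈ BR G) : InB f := by
  obtain ⟨X, Y, _, _, _, _, rfl⟩ := exists_markX f hf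
  exact (inB_markX X).sub (inB_markX Y)

end Necessity

section Sufficiency

variable {G : Type} [Group G]

open Classical in
/-- auxiliary finite set measuring the support of `f` -/
noncomputable def supT [Fintype G] (f : Subgroup G → ℤ) : Finset (Subgroup G) :=
  Finset.univ.filter (fun K => ∃ L, f L ≠ 0 ∧ (Nat.card K < Nat.card L ∨ K = L))

theorem zpowers_sup_of_mem {g : G} {K : Subgroup G} (hg : g ∈ K) : zpowers g ⊔ K = K := by
  rw [sup_eq_right, zpowers_le]; exact hg

theorem card_lt_of_notMem [Finite G] {g : G} {K : Subgroup G} (hg : g ∉ K) :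
    Nat.card K < Nat.card (zpowers g ⊔ K : Subgroup G) := by
  have hlt : K < zpowers g ⊔ K := by
    refine lt_of_le_of_ne le_sup_right ?_
    intro h
    apply hg
    rw [h]
    exact le_sup_left (b := K) (mem_zpowers g)
  by_contra hcon
  push Not at hcon
  exact hlt.ne (Subgroup.eq_of_le_of_card_ge hlt.le hcon)

/-- If `f` vanishes on all subgroups of order larger than `|K|`, the Burnside sum is simple. -/
theorem bsum_top [Fintype G] (f : Subgroup G → ℤ) (K : Subgroup G)
    (h : ∀ L : Subgroup G, Nat.card K < Nat.card L → f L = 0) : bsum f K = Nat.card K * f K := by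
  classical
  unfold bsum
  have h1 : ∀ g ∈ Finset.univ.filter (fun g : G => g ∈ normalizer (K : Set G)),
      f (zpowers g ⊔ K) = if g ∈ K then f K else 0 := by
    intro g _
    split_ifs with hg
    · rw [zpowers_sup_of_mem hg]
    · exact h _ (card_lt_of_notMem hg)
  rw [Finset.sum_congr rfl h1, ← Finset.sum_filter, Finset.sum_const, nsmul_eq_mul]
  congr 1
  rw [Finset.filter_filter]
  have : Nat.card K = (Finset.univ.filter (fun g : G => g ∈ K)).card := by
    rw [Nat.card_eq_fintype_card, Fintype.card_subtype]
  rw [this]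
  norm_cast
  congr 1
  ext g
  simp only [Finset.mem_filter, Finset.mem_univ, true_and, and_iff_right_iff_imp]
  intro hg
  exact Subgroup.le_normalizer hg

/-- **Sufficiency of Burnside's congruences**, with control of the support. -/
theorem mem_closure_of_inB [Fintype G] (P : Subgroup G → Prop)
    (hP : ∀ V W : Subgroup G, P V → ∀ g, W ≤ cj g V → P W) :
    ∀ (n : ℕ) (f : Subgroup G → ℤ), InB f → (∀ K, f K ≠ 0 → P K) → (supT f).card ≤ n →
    f ∈ AddSubgroup.closure {m : Subgroup G → ℤ | ∃ V, P V ∧ m = mark V} := by
  classical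
  intro n
  induction n with
  | zero =>
    intro f _ _ hn
    have h0 : f = 0 := by
      funext K
      by_contra hK
      have : K ∈ supT f := by
        unfold supT
        rw [Finset.mem_filter]
        exact ⟨Finset.mem_univ _, K, hK, Or.inr rfl⟩
      rw [Nat.le_zero, Finset.card_eq_zero] at hn
      rw [hn] at this
      simp at this
    rw [h0]
    exact zero_mem _
  | succ n ih =>
    intro f hf hsupp hn
    by_cases h0 : ∀ K, f K = 0
    · have : f = 0 := funext h0
      rw [this]; exact zero_mem _
    · push Not at h0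
      -- a subgroup of maximal order in the support
      obtain ⟨K, hK, hmax⟩ : ∃ K : Subgroup G, f K ≠ 0 ∧ ∀ L : Subgroup G, f L ≠ 0 →
          Nat.card L ≤ Nat.card K := by
        obtain ⟨K₀, hK₀⟩ := h0
        obtain ⟨K, hK, hm⟩ := Finset.exists_max_image
          (Finset.univ.filter (fun K => f K ≠ 0)) (fun K : Subgroup G => Nat.card K)
          ⟨K₀, by simp [hK₀]⟩
        rw [Finset.mem_filter] at hK
        refine ⟨K, hK.2, ?_⟩
        intro L hL
        exact hm L (by simp [hL])
      have hvan : ∀ L : Subgroup G, Nat.card K < Nat.card L → f L = 0 := by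
        intro L hL
        by_contra hne
        exact absurd (hmax L hne) (by omega)
      have hdvd := hf.cong K
      rw [bsum_top f K hvan, ← nidx_mul_card K] at hdvd
      have hcK : (Nat.card K : ℤ) ≠ 0 := by
        have : 0 < Nat.card K := Nat.card_pos
        exact_mod_cast this.ne'
      push_cast at hdvd
      rw [mul_comm (nidx K : ℤ)] at hdvd
      obtain ⟨a, ha⟩ := Int.dvd_of_mul_dvd_mul_left hcK hdvd
      set f' : Subgroup G → ℤ := f - a • mark K with hf'
      have hInB' : InB f' := by
        have h1 : InB (a • mark K) := by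
          refine ⟨fun g L => ?_, fun L => ?_⟩
          · simp only [Pi.smul_apply, (inB_mark K).conj]
          · have h2 : bsum (a • mark K) L = a * bsum (mark K) L := by
              unfold bsum
              rw [Finset.mul_sum]
              rfl
            rw [h2]
            exact Dvd.dvd.mul_left ((inB_mark K).cong L) a
        exact hf.sub h1
      have hPK : P K := hsupp K hK
      have hsupp' : ∀ L, f' L ≠ 0 → P L := by
        intro L hL
        by_cases hfL : f L = 0
        · have : mark K L ≠ 0 := by
            intro hm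
            apply hL
            simp [hf', hfL, hm]
          obtain ⟨g, hg⟩ := mark_ne_zero_iff.1 this
          exact hP K L hPK g hg
        · exact hsupp L hfL
      -- the support measure decreases
      have hzero : f' K = 0 := by
        simp only [hf', Pi.sub_apply, Pi.smul_apply, smul_eq_mul]
        rw [mark_self, ha]; ring
      have hvan' : ∀ L : Subgroup G, f' L ≠ 0 → Nat.card L < Nat.card K ∨ (f L ≠ 0 ∧ L ≠ K) := by
        intro L hL
        rcases lt_trichotomy (Nat.card L) (Nat.card K) with h | h | h
        · exact Or.inl h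
        · right
          by_cases hc : Cj L K
          · exfalso
            apply hL
            rw [hInB'.congr hc, hzero]
          · have hm : mark K L = 0 := mark_eq_zero_of_card_le (by omega) hc
            refine ⟨?_, ?_⟩
            · intro hfL
              apply hL
              simp [hf', hfL, hm]
            · rintro rfl
              exact hc (Cj.refl _)
        · exfalso
          apply hL
          have hm : mark K L = 0 := by
            apply mark_eq_zero_of_card_le (by omega)
            intro hc
            have := hc.card_eq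
            omega
          simp [hf', hvan L h, hm]
      have hlt : supT f' ⊂ supT f := by
        rw [Finset.ssubset_iff_of_subset]
        · refine ⟨K, ?_, ?_⟩
          · unfold supT
            rw [Finset.mem_filter]
            exact ⟨Finset.mem_univ _, K, hK, Or.inr rfl⟩
          · unfold supT
            rw [Finset.mem_filter]
            rintro ⟨_, L, hL, h1⟩
            rcases hvan' L hL with h2 | ⟨h2, h3⟩
            · rcases h1 with h1 | h1
              · omega
              · subst h1; omega
            · rcases h1 with h1 | h1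
              · have := hmax L h2
                omega
              · exact h3 h1.symm
        · intro M hM
          unfold supT at hM ⊢
          rw [Finset.mem_filter] at hM ⊢
          obtain ⟨_, L, hL, h1⟩ := hM
          refine ⟨Finset.mem_univ _, ?_⟩
          rcases hvan' L hL with h2 | ⟨h2, h3⟩
          · refine ⟨K, hK, Or.inl ?_⟩
            rcases h1 with h1 | h1
            · omega
            · subst h1; exact h2
          · exact ⟨L, h2, h1⟩
      have hmem := ih f' hInB' hsupp' (by
        have := Finset.card_lt_card hlt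
        omega)
      have hfeq : f = f' + a • mark K := by simp [hf']
      rw [hfeq]
      apply add_mem hmem
      apply AddSubgroup.zsmul_mem
      exact AddSubgroup.subset_closure ⟨K, hPK, rfl⟩

theorem inB_induction [Fintype G] (P : Subgroup G → Prop)
    (hP : ∀ V W : Subgroup G, P V → ∀ g, W ≤ cj g V → P W)
    (f : Subgroup G → ℤ) (hf : InB f) (hsupp : ∀ K, f K ≠ 0 → P K) :
    f ∈ AddSubgroup.closure {m : Subgroup G → ℤ | ∃ V, P V ∧ m = mark V} :=
  mem_closure_of_inB P hP _ f hf hsupp le_rfl

theorem mem_of_inB [Fintype G] {f : Subgroup G → ℤ} (hf : InB f) : f ∈ BR G := by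
  have h := inB_induction (fun _ => True) (fun _ _ _ _ _ => trivial) f hf (fun _ _ => trivial)
  have hle : AddSubgroup.closure {m : Subgroup G → ℤ | ∃ V, True ∧ m = mark V} ≤
      (BR G).toAddSubgroup := by
    rw [AddSubgroup.closure_le]
    rintro _ ⟨V, _, rfl⟩
    exact Subring.subset_closure ⟨V, rfl⟩
  exact hle h

theorem mem_iff_inB [Fintype G] {f : Subgroup G → ℤ} : f ∈ BR G ↔ InB f :=
  ⟨inB_of_mem, mem_of_inB⟩

end Sufficiency

end Pool.Agent.Lib.MP_6b5f89_al
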