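import Mathlib

/-!
Iterated commutators with the whole group.
-/

set_option autoImplicit false

namespace Pool.Agent.Lib.MP_6b5f89_al

open Subgroup
open scoped commutatorElement

section Itc

variable {H : Type} [Group H]

/-- iterated commutator of `A` with the whole group -/
def itc (A : Subgroup H) : ℕ → Subgroup H
  | 0 => A
  | k + 1 => ⁅itc A k, (⊤ : Subgroup H)⁆

theorem itc_zero (A : Subgroup H) : itc A 0 = A := rfl

theorem itc_succ (A : Subgroup H) (k : ℕ) : itc A (k + 1) = ⁅itc A k, (⊤ : Subgroup H)⁆ := rfl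

theorem itc_mono {A B : Subgroup H} (h : A ≤ B) (k : ℕ) : itc A k ≤ itc B k := by
  induction k with
  | zero => exact h
  | succ k ih => rw [itc_succ, itc_succ]; exact Subgroup.commutator_mono ih le_rfl

instance itc_normal (A : Subgroup H) [A.Normal] (k : ℕ) : (itc A k).Normal := by
  induction k with
  | zero => rw [itc_zero]; infer_instance
  | succ k ih => rw [itc_succ]; infer_instance

theorem itc_le (A : Subgroup H) [A.Normal] (k : ℕ) : itc A k ≤ A := by
  induction k with
  | zero => exact le_rfl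
  | succ k ih =>
    rw [itc_succ]
    exact (Subgroup.commutator_le_left _ _).trans ih

theorem lcs_add (n k : ℕ) : (⊤ : Subgroup H).lowerCentralSeries (n + k) =
    itc ((⊤ : Subgroup H).lowerCentralSeries n) k := by
  induction k with
  | zero => rfl
  | succ k ih => rw [itc_succ, ← ih]; rfl

theorem map_itc {K : Type} [Group K] (f : H →* K) (hf : Function.Surjective f) (A : Subgroup H)
    (k : ℕ) : (itc A k).map f = itc (A.map f) k := by
  induction k with
  | zero => rfl
  | succ k ih =>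
    rw [itc_succ, itc_succ, Subgroup.map_commutator, ih, Subgroup.map_top_of_surjective f hf]

/-- three subgroups lemma, modulo a normal subgroup -/
theorem three_subgroups (X A B D : Subgroup H) [X.Normal] (h1 : ⁅⁅B, D⁆, A⁆ ≤ X)
    (h2 : ⁅⁅D, A⁆, B⁆ ≤ X) : ⁅⁅A, B⁆, D⁆ ≤ X := by
  have key : ∀ Y : Subgroup H, Y ≤ X ↔ Y.map (QuotientGroup.mk' X) = ⊥ := by
    intro Y
    rw [Subgroup.map_eq_bot_iff, QuotientGroup.ker_mk']
  rw [key, Subgroup.map_commutator, Subgroup.map_commutator]
  rw [key, Subgroup.map_commutator, Subgroup.map_commutator] at h1 h2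
  exact Subgroup.commutator_commutator_eq_bot_of_rotate h1 h2

theorem commutator_top_le_iff (X A : Subgroup H) [X.Normal] :
    ⁅A, (⊤ : Subgroup H)⁆ ≤ X ↔
      A ≤ (Subgroup.center (H ⧸ X)).comap (QuotientGroup.mk' X) := by
  rw [Subgroup.commutator_le]
  constructor
  · intro h a ha
    rw [Subgroup.mem_comap, Subgroup.mem_center_iff]
    intro g
    obtain ⟨g, rfl⟩ := QuotientGroup.mk'_surjective X g
    have h1 := h a ha g (Subgroup.mem_top g)
    have h2 : QuotientGroup.mk' X ⁅a, g⁆ = 1 := by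
      rw [QuotientGroup.mk'_apply, QuotientGroup.eq_one_iff]; exact h1
    rw [map_commutatorElement, commutatorElement_eq_one_iff_mul_comm] at h2
    exact h2.symm
  · intro h a ha g _
    have h1 := h ha
    rw [Subgroup.mem_comap, Subgroup.mem_center_iff] at h1
    have h2 := h1 (QuotientGroup.mk' X g)
    have h3 : QuotientGroup.mk' X ⁅a, g⁆ = 1 := by
      rw [map_commutatorElement, commutatorElement_eq_one_iff_mul_comm]
      exact h2.symm
    rwa [QuotientGroup.mk'_apply, QuotientGroup.eq_one_iff] at h3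

/-- the subgroup generated by the commutators `[D i, D j]`, `i + j = m` -/
def LL (D : ℕ → Subgroup H) (m : ℕ) : Subgroup H :=
  ⨆ (i : ℕ) (j : ℕ) (_ : i + j = m), ⁅D i, D j⁆

theorem le_LL (D : ℕ → Subgroup H) {m i j : ℕ} (h : i + j = m) : ⁅D i, D j⁆ ≤ LL D m :=
  le_iSup_of_le i (le_iSup_of_le j (le_iSup_of_le h le_rfl))

instance LL_normal (D : ℕ → Subgroup H) [∀ i, (D i).Normal] (m : ℕ) : (LL D m).Normal := by
  unfold LL
  infer_instance

theorem LL_step (D : ℕ → Subgroup H) [∀ i, (D i).Normal]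
    (hD : ∀ i, ⁅D i, (⊤ : Subgroup H)⁆ ≤ D (i + 1)) (m : ℕ) :
    ⁅LL D m, (⊤ : Subgroup H)⁆ ≤ LL D (m + 1) := by
  rw [commutator_top_le_iff]
  conv_lhs => unfold LL
  refine iSup_le fun i => iSup_le fun j => iSup_le fun hij => ?_
  rw [← commutator_top_le_iff]
  apply three_subgroups
  · calc ⁅⁅D j, ⊤⁆, D i⁆ ≤ ⁅D (j + 1), D i⁆ := Subgroup.commutator_mono (hD j) le_rfl
      _ ≤ _ := le_LL D (by omega)
  · calc ⁅⁅⊤, D i⁆, D j⁆ ≤ ⁅D (i + 1), D j⁆ := by
          apply Subgroup.commutator_mono _ le_rfl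
          rw [Subgroup.commutator_comm]
          exact hD i
      _ ≤ _ := le_LL D (by omega)

theorem itc_le_LL (D : ℕ → Subgroup H) [∀ i, (D i).Normal]
    (hD : ∀ i, ⁅D i, (⊤ : Subgroup H)⁆ ≤ D (i + 1)) (m : ℕ) : itc ⁅D 0, D 0⁆ m ≤ LL D m := by
  induction m with
  | zero => exact le_LL D (by omega)
  | succ m ih =>
    rw [itc_succ]
    exact (Subgroup.commutator_mono ih le_rfl).trans (LL_step D hD m)

/-- If `γ_n(H) ≤ M` and `C` centralises `M`, then `[[C, C], H, …, H] = 1`. -/
theorem itc_commutator_eq_bot (M C : Subgroup H) [C.Normal] (hMC : ⁅M, C⁆ = ⊥) (n : ℕ)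
    (hn : (⊤ : Subgroup H).lowerCentralSeries n ≤ M) (m : ℕ) (hm : 2 * n ≤ m + 1) :
    itc ⁅C, C⁆ m = ⊥ := by
  have hDn : ∀ i, ((⊤ : Subgroup H).lowerCentralSeries i ⊓ C).Normal := fun i => inferInstance
  have h1 := itc_le_LL (fun i => (⊤ : Subgroup H).lowerCentralSeries i ⊓ C) (by
    intro i
    apply le_inf
    · exact Subgroup.commutator_mono inf_le_left le_rfl
    · exact (Subgroup.commutator_mono inf_le_right le_rfl).trans (Subgroup.commutator_le_left _ _)) m
  simp only [Subgroup.lowerCentralSeries_zero, top_inf_eq] at h1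
  rw [eq_bot_iff]
  refine h1.trans ?_
  unfold LL
  refine iSup_le fun i => iSup_le fun j => iSup_le fun hij => ?_
  by_cases hi : n ≤ i
  · rw [← hMC]
    apply Subgroup.commutator_mono _ inf_le_right
    exact inf_le_left.trans ((Subgroup.lowerCentralSeries_antitone _ hi).trans hn)
  · have hj : n ≤ j := by omega
    rw [Subgroup.commutator_comm, ← hMC]
    apply Subgroup.commutator_mono _ inf_le_right
    exact inf_le_left.trans ((Subgroup.lowerCentralSeries_antitone _ hj).trans hn)

/-- commutators with a cyclic normal subgroup on which every element acts as `1 + p ^ r i` -/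
theorem itc_zpowers_le (z : H) (q : ℤ) (h : ∀ g : H, ∃ i : ℤ, g * z * g⁻¹ = z ^ (1 + q * i))
    (k : ℕ) : itc (zpowers z) k ≤ zpowers (z ^ (q ^ k)) := by
  induction k with
  | zero => rw [itc_zero, pow_zero, zpow_one]
  | succ k ih =>
    rw [itc_succ]
    refine (Subgroup.commutator_mono ih le_rfl).trans ?_
    rw [Subgroup.commutator_le]
    intro x hx g _
    obtain ⟨j, rfl⟩ := Subgroup.mem_zpowers_iff.1 hx
    obtain ⟨i, hi⟩ := h g
    rw [← zpow_mul, commutatorElement_def]
    have h1 : g * (z ^ (q ^ k * j))⁻¹ * g⁻¹ = (g * z * g⁻¹) ^ (-(q ^ k * j)) := by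
      rw [conj_zpow, zpow_neg]
    have h2 : z ^ (q ^ k * j) * g * (z ^ (q ^ k * j))⁻¹ * g⁻¹ =
        z ^ (q ^ k * j) * (g * (z ^ (q ^ k * j))⁻¹ * g⁻¹) := by group
    rw [h2, h1, hi, ← zpow_mul, ← zpow_add]
    rw [Subgroup.mem_zpowers_iff]
    refine ⟨-(i * j), ?_⟩
    rw [← zpow_mul]
    congr 1
    ring

end Itc

end Pool.Agent.Lib.MP_6b5f89_al
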