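import Mathlib
import Pool.Agent.Lib.MP_6b5f89_al.Burnside

/-!
Facts about the ring of marks of a finite `p`-group.
-/

set_option autoImplicit false

namespace Pool.Agent.Lib.MP_6b5f89_al

open Subgroup

section Sum

variable {G : Type} [Group G] [Fintype G]

theorem sum_right_invariant_dvd (N : Subgroup G) (v : G → ℤ)
    (h : ∀ x, ∀ n ∈ N, v (x * n) = v x) : (Nat.card N : ℤ) ∣ ∑ x, v x := by
  classical
  rw [← Finset.sum_fiberwise_of_maps_to (s := Finset.univ) (t := Finset.univ.image v) (g := v)
    (fun x _ => Finset.mem_image_of_mem v (Finset.mem_univ x))]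
  apply Finset.dvd_sum
  intro b _
  have h1 : ∑ x ∈ Finset.univ.filter (fun x => v x = b), v x =
      ((Finset.univ.filter (fun x => v x = b)).card : ℤ) * b := by
    rw [Finset.sum_congr rfl (g := fun _ => b) (fun x hx => (Finset.mem_filter.1 hx).2)]
    rw [Finset.sum_const, nsmul_eq_mul]
  rw [h1]
  apply Dvd.dvd.mul_right
  have h2 := card_dvd_of_right_stable N {x : G | v x = b} (by
    intro g hg n hn
    show v (g * n) = b
    rw [h g n hn]; exact hg)
  have h3 : Nat.card {x : G | v x = b} = (Finset.univ.filter (fun x => v x = b)).card := by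
    rw [Nat.card_eq_fintype_card, ← Set.toFinset_card]
    congr 1
    ext x; simp
  rw [h3] at h2
  exact_mod_cast h2

open Classical in
/-- number of `g ∈ N(L)` with `⟨g⟩L = U` -/
noncomputable def gc (L U : Subgroup G) : ℕ :=
  (Finset.univ.filter (fun g : G => g ∈ normalizer (L : Set G) ∧ zpowers g ⊔ L = U)).card

open Classical in
/-- number of `g ∈ N(L)` with `⟨g⟩L` conjugate to `U` -/
noncomputable def gy (L U : Subgroup G) : ℕ :=
  (Finset.univ.filter (fun g : G => g ∈ normalizer (L : Set G) ∧ Cj (zpowers g ⊔ L) U)).card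

open Classical in
theorem card_conj_fiber (U V : Subgroup G) (h : Cj V U) :
    (Finset.univ.filter (fun x : G => V = cj x⁻¹ U)).card = Nat.card (normalizer (U : Set G)) := by
  obtain ⟨y, hy⟩ := h
  have h1 : Nat.card {x : G // V = cj x⁻¹ U} = Nat.card (normalizer (U : Set G)) := by
    apply Nat.card_congr
    refine ⟨fun x => ⟨y * x.1⁻¹, ?_⟩, fun n => ⟨n.1⁻¹ * y, ?_⟩, ?_, ?_⟩
    · rw [mem_normalizer_iff_cj, cj_mul, ← x.2, hy]
    · have := n.2
      rw [mem_normalizer_iff_cj] at this
      rw [mul_inv_rev, inv_inv, cj_mul, this]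
      rw [← hy, cj_inv_cj]
    · intro x
      apply Subtype.ext
      simp
    · intro n
      apply Subtype.ext
      simp
  rw [← h1, Nat.card_eq_fintype_card, Fintype.card_subtype]

theorem sum_gc (L U : Subgroup G) :
    ∑ x : G, gc L (cj x⁻¹ U) = gy L U * Nat.card (normalizer (U : Set G)) := by
  classical
  unfold gc gy
  have h1 : ∀ x : G, (Finset.univ.filter (fun g : G => g ∈ normalizer (L : Set G) ∧
      zpowers g ⊔ L = cj x⁻¹ U)).card = ∑ g ∈ Finset.univ.filter
        (fun g : G => g ∈ normalizer (L : Set G)),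
        if zpowers g ⊔ L = cj x⁻¹ U then 1 else 0 := by
    intro x
    rw [← Finset.sum_filter, Finset.filter_filter, Finset.card_eq_sum_ones]
  simp_rw [h1]
  rw [Finset.sum_comm]
  have h2 : ∀ g ∈ Finset.univ.filter (fun g : G => g ∈ normalizer (L : Set G)),
      (∑ x : G, if zpowers g ⊔ L = cj x⁻¹ U then 1 else 0) =
      if Cj (zpowers g ⊔ L) U then Nat.card (normalizer (U : Set G)) else 0 := by
    intro g _
    split_ifs with hc
    · rw [← card_conj_fiber U _ hc, Finset.card_eq_sum_ones, Finset.sum_filter]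
    · apply Finset.sum_eq_zero
      intro x _
      rw [if_neg]
      intro heq
      apply hc
      refine ⟨x, ?_⟩
      rw [heq, cj_cj_inv]
  rw [Finset.sum_congr rfl h2, ← Finset.sum_filter, Finset.filter_filter, Finset.sum_const,
    smul_eq_mul]

theorem gc_cj (L U : Subgroup G) (n : G) (hn : n ∈ normalizer (L : Set G)) :
    gc L (cj n U) = gc L U := by
  classical
  unfold gc
  have hL : cj n L = L := (mem_normalizer_iff_cj).1 hn
  have hz : ∀ g : G, cj n (zpowers g ⊔ L) = zpowers (n * g * n⁻¹) ⊔ L := by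
    intro g
    unfold cj at hL ⊢
    rw [Subgroup.map_sup, hL, MonoidHom.map_zpowers]
    rfl
  symm
  apply Finset.card_bij' (fun g _ => n * g * n⁻¹) (fun g _ => n⁻¹ * g * n)
  · intro g hg
    rw [Finset.mem_filter] at hg ⊢
    refine ⟨Finset.mem_univ _, ?_, ?_⟩
    · exact mul_mem (mul_mem hn hg.2.1) (inv_mem hn)
    · rw [← hz, hg.2.2]
  · intro g hg
    rw [Finset.mem_filter] at hg ⊢
    refine ⟨Finset.mem_univ _, ?_, ?_⟩
    · exact mul_mem (mul_mem (inv_mem hn) hg.2.1) hn
    · apply cj_injective n
      rw [hz, ← hg.2.2]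
      congr 2
      group
  · intro g _; simp [mul_assoc]
  · intro g _; simp [mul_assoc]

end Sum

section Gen

variable {G : Type} [Group G] [Fintype G] {p : ℕ} [hp : Fact p.Prime]

/-- in a cyclic `p`-group, `p` times the number of generators is a multiple of the order,
unless the group is trivial, in which case `p` is not needed -/
theorem card_dvd_mul_gen {Q : Type} [Group Q] [Fintype Q] (hQ : IsPGroup p Q) (q₀ : Q)
    (hq₀ : zpowers q₀ = ⊤) :
    Nat.card Q ∣ p * Nat.card {q : Q // zpowers q = ⊤} := by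
  classical
  have hcyc : IsCyclic Q := by
    refine ⟨q₀, fun x => ?_⟩
    have hx : x ∈ zpowers q₀ := by rw [hq₀]; exact Subgroup.mem_top x
    exact Subgroup.mem_zpowers_iff.1 hx
  have h1 : Nat.card {q : Q // zpowers q = ⊤} = Nat.totient (Nat.card Q) := by
    rw [Nat.card_eq_fintype_card (α := Q)]
    rw [← IsCyclic.card_orderOf_eq_totient (α := Q) (d := Fintype.card Q) dvd_rfl]
    rw [Nat.card_eq_fintype_card, Fintype.card_subtype]
    congr 1
    ext q
    simp only [Finset.mem_filter, Finset.mem_univ, true_and]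
    rw [← Nat.card_zpowers, ← Nat.card_eq_fintype_card]
    constructor
    · intro h
      rw [h, Subgroup.card_top]
    · intro h
      exact Subgroup.eq_top_of_card_eq _ h
  rw [h1]
  obtain ⟨k, hk⟩ := IsPGroup.iff_card.1 hQ
  rw [hk]
  rcases Nat.eq_zero_or_pos k with h0 | hpos
  · subst h0; simp
  · rw [Nat.totient_prime_pow hp.out hpos, ← mul_assoc, ← pow_succ']
    have : k - 1 + 1 = k := by omega
    rw [this]
    exact Dvd.intro _ rfl

omit [Fintype G] in
theorem zpowers_mk_eq_top_iff {L U : Subgroup G} (hLU : L ≤ U) [(L.subgroupOf U).Normal]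
    (a : U) : zpowers (QuotientGroup.mk' (L.subgroupOf U) a) = ⊤ ↔ zpowers (a : G) ⊔ L = U := by
  have hsurj : Function.Surjective (QuotientGroup.mk' (L.subgroupOf U)) :=
    QuotientGroup.mk'_surjective _
  have h1 : zpowers (QuotientGroup.mk' (L.subgroupOf U) a) = ⊤ ↔
      zpowers a ⊔ L.subgroupOf U = ⊤ := by
    rw [← MonoidHom.map_zpowers]
    constructor
    · intro h
      have h2 := congrArg (Subgroup.comap (QuotientGroup.mk' (L.subgroupOf U))) h
      rw [Subgroup.comap_map_eq, QuotientGroup.ker_mk', Subgroup.comap_top] at h2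
      exact h2
    · intro h
      have h2 := congrArg (Subgroup.map (QuotientGroup.mk' (L.subgroupOf U))) h
      rw [Subgroup.map_sup, Subgroup.map_top_of_surjective _ hsurj] at h2
      have h3 : Subgroup.map (QuotientGroup.mk' (L.subgroupOf U)) (L.subgroupOf U) = ⊥ := by
        rw [Subgroup.map_eq_bot_iff, QuotientGroup.ker_mk']
      rw [h3, sup_bot_eq] at h2
      exact h2
  rw [h1]
  have h4 : Subgroup.map U.subtype (zpowers a ⊔ L.subgroupOf U) = zpowers (a : G) ⊔ L := by
    rw [Subgroup.map_sup, MonoidHom.map_zpowers, Subgroup.map_subgroupOf_eq_of_le hLU]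
    rfl
  have h5 : Subgroup.map U.subtype ⊤ = U := by
    rw [← MonoidHom.range_eq_map, Subgroup.range_subtype]
  constructor
  · intro h
    rw [← h4, h, h5]
  · intro h
    apply Subgroup.map_injective U.subtype_injective
    rw [h4, h5, h]

/-- `p` times the number of generators of `U` modulo `L` is a multiple of `|U|`. -/
theorem card_dvd_mul_gc (hG : IsPGroup p G) (L U : Subgroup G) :
    Nat.card U ∣ p * gc L U := by
  classical
  by_cases hex : ∃ g ∈ normalizer (L : Set G), zpowers g ⊔ L = U
  swap
  · have : gc L U = 0 := by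
      unfold gc
      rw [Finset.card_eq_zero, Finset.filter_eq_empty_iff]
      intro g _ hg
      exact hex ⟨g, hg⟩
    rw [this]; simp
  obtain ⟨g₀, hg₀, hgU⟩ := hex
  have hLU : L ≤ U := by rw [← hgU]; exact le_sup_right
  have hUN : U ≤ normalizer (L : Set G) := by
    rw [← hgU, sup_le_iff]
    exact ⟨by rw [zpowers_le]; exact hg₀, Subgroup.le_normalizer⟩
  -- the normal subgroup of `U`
  have hnorm : (L.subgroupOf U).Normal := by
    rw [Subgroup.normal_subgroupOf_iff_le_normalizer hLU]
    exact hUN
  have hg₀U : g₀ ∈ U := by rw [← hgU]; exact le_sup_left (b := L) (mem_zpowers g₀)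
  have hmem : ∀ g : G, (g ∈ normalizer (L : Set G) ∧ zpowers g ⊔ L = U) ↔
      ∃ h : g ∈ U, zpowers (QuotientGroup.mk' (L.subgroupOf U) ⟨g, h⟩) = ⊤ := by
    intro g
    constructor
    · rintro ⟨_, h⟩
      have hgU' : g ∈ U := by rw [← h]; exact le_sup_left (b := L) (mem_zpowers g)
      refine ⟨hgU', ?_⟩
      rw [zpowers_mk_eq_top_iff hLU]
      exact h
    · rintro ⟨hgU', h⟩
      refine ⟨hUN hgU', ?_⟩
      rw [zpowers_mk_eq_top_iff hLU] at h
      exact h
  have hcount : gc L U = Nat.card (L.subgroupOf U) *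
      Nat.card {q : U ⧸ L.subgroupOf U // zpowers q = ⊤} := by
    have e := QuotientGroup.preimageMkEquivSubgroupProdSet (L.subgroupOf U)
      {q : U ⧸ L.subgroupOf U | zpowers q = ⊤}
    have h1 := Nat.card_congr e
    rw [Nat.card_prod] at h1
    have h2 : Nat.card {q : U ⧸ L.subgroupOf U // zpowers q = ⊤} =
      Nat.card {q : U ⧸ L.subgroupOf U | zpowers q = ⊤} := rfl
    rw [h2, ← h1]
    unfold gc
    rw [← Fintype.card_subtype, ← Nat.card_eq_fintype_card]
    apply Nat.card_congr
    refine ⟨fun g => ⟨⟨g.1, ((hmem g.1).1 g.2).choose⟩, ?_⟩, fun a => ⟨a.1.1, ?_⟩, ?_, ?_⟩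
    · exact ((hmem g.1).1 g.2).choose_spec
    · exact (hmem a.1.1).2 ⟨a.1.2, a.2⟩
    · intro g; rfl
    · intro a; rfl
  have hpU : IsPGroup p U := hG.to_subgroup U
  have hpQ : IsPGroup p (U ⧸ L.subgroupOf U) := hpU.to_quotient _
  have hgen := card_dvd_mul_gen hpQ (QuotientGroup.mk' (L.subgroupOf U) ⟨g₀, hg₀U⟩) (by
    rw [zpowers_mk_eq_top_iff hLU]; exact hgU)
  have hcard : Nat.card U = Nat.card (U ⧸ L.subgroupOf U) * Nat.card (L.subgroupOf U) :=
    Subgroup.card_eq_card_quotient_mul_card_subgroup _
  rw [hcount, hcard]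
  calc Nat.card (U ⧸ L.subgroupOf U) * Nat.card (L.subgroupOf U)
      ∣ (p * Nat.card {q : U ⧸ L.subgroupOf U // zpowers q = ⊤}) * Nat.card (L.subgroupOf U) :=
        Nat.mul_dvd_mul_right hgen _
    _ = _ := by ring

end Gen


section Up

variable {G : Type} [Group G] [Fintype G] {p : ℕ} [hp : Fact p.Prime]

open Classical in
/-- the indicator function of a conjugacy class, times a constant -/
noncomputable def ind (U : Subgroup G) (c : ℤ) : Subgroup G → ℤ :=
  fun K => if Cj K U then c else 0

omit [Fintype G] in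
theorem ind_of_cj {U K : Subgroup G} (c : ℤ) (h : Cj K U) : ind U c K = c := by
  unfold ind; rw [if_pos h]

omit [Fintype G] in
theorem ind_of_not {U K : Subgroup G} (c : ℤ) (h : ¬ Cj K U) : ind U c K = 0 := by
  unfold ind; rw [if_neg h]

omit [Fintype G] in
theorem ind_self (U : Subgroup G) (c : ℤ) : ind U c U = c := ind_of_cj c (Cj.refl U)

theorem bsum_ind (U : Subgroup G) (c : ℤ) (L : Subgroup G) : bsum (ind U c) L = gy L U * c := by
  classical
  unfold bsum gy ind
  rw [← Finset.sum_filter, Finset.filter_filter, Finset.sum_const, nsmul_eq_mul]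

theorem inB_ind_of (U : Subgroup G) (c : ℤ)
    (h : ∀ L : Subgroup G, (Nat.card (normalizer (L : Set G)) : ℤ) ∣ gy L U * c) :
    InB (ind U c) := by
  refine ⟨fun g K => ?_, fun L => ?_⟩
  · by_cases hc : Cj K U
    · rw [ind_of_cj c hc, ind_of_cj c (Cj.trans (Cj.symm ⟨g, rfl⟩) hc)]
    · rw [ind_of_not c hc, ind_of_not c (fun h => hc (Cj.trans ⟨g, rfl⟩ h))]
  · rw [bsum_ind]
    exact h L

/-- `|G|` times the indicator function of a class is in the Burnside ring. -/
theorem inB_ind_card (U : Subgroup G) : InB (ind U (Nat.card G)) := by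
  apply inB_ind_of
  intro L
  apply Dvd.dvd.mul_left
  exact_mod_cast Subgroup.card_subgroup_dvd_card _

/-- `p |N(U):U|` times the indicator function of the class of `U` is in the Burnside ring. -/
theorem inB_up (hG : IsPGroup p G) (U : Subgroup G) : InB (ind U (p * nidx U)) := by
  apply inB_ind_of
  intro L
  have h1 : ∀ x : G, ∃ w : ℕ, p * gc L (cj x⁻¹ U) = Nat.card U * w := by
    intro x
    have := card_dvd_mul_gc hG L (cj x⁻¹ U)
    rw [card_cj] at this
    exact this
  choose v hv using h1
  have hinv : ∀ x, ∀ n ∈ normalizer (L : Set G), v (x * n) = v x := by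
    intro x n hn
    have hU : 0 < Nat.card U := Nat.card_pos
    apply Nat.eq_of_mul_eq_mul_left hU
    rw [← hv, ← hv, mul_inv_rev, cj_mul, gc_cj _ _ _ (inv_mem hn)]
  have h2 := sum_right_invariant_dvd (normalizer (L : Set G)) (fun x => (v x : ℤ))
    (fun x n hn => by simp only [hinv x n hn])
  have h3 : (∑ x, (v x : ℤ)) = gy L U * (p * nidx U) := by
    have h4 := sum_gc L U
    have hU : (Nat.card U : ℤ) ≠ 0 := by
      have : 0 < Nat.card U := Nat.card_pos
      exact_mod_cast this.ne'
    apply mul_left_cancel₀ hU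
    rw [Finset.mul_sum]
    have h5 : ∀ x : G, (Nat.card U : ℤ) * (v x : ℤ) = p * gc L (cj x⁻¹ U) := by
      intro x
      exact_mod_cast (hv x).symm
    rw [Finset.sum_congr rfl (fun x _ => h5 x), ← Finset.mul_sum]
    have h6 : (∑ x : G, (gc L (cj x⁻¹ U) : ℤ)) = gy L U * Nat.card (normalizer (U : Set G)) := by
      exact_mod_cast h4
    rw [h6, ← nidx_mul_card U]
    push_cast
    ring
  rw [← h3]
  exact h2

end Up

section Special

variable {G : Type} [Group G] [Fintype G] {p : ℕ} [hp : Fact p.Prime]

/-- `L` is a special subgroup of `U`. -/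
structure Special (p : ℕ) (L U : Subgroup G) : Prop where
  le : L ≤ U
  card : Nat.card U = p * Nat.card L
  norm : U ≤ normalizer (L : Set G)
  only : ∀ g, cj g L ≤ U → cj g L = L

omit [Fintype G] in
theorem cj_inf (g : G) (K L : Subgroup G) : cj g (K ⊓ L) = cj g K ⊓ cj g L := by
  ext x
  simp [mem_cj, Subgroup.mem_inf]

theorem exists_special (hG : IsPGroup p G) (U : Subgroup G) (hU : U ≠ ⊥) :
    ∃ L, Special p L U := by
  classical
  -- a maximal normal subgroup not containing `U`
  obtain ⟨W, hW, hmax⟩ := Finset.exists_max_image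
    (Finset.univ.filter (fun W : Subgroup G => W.Normal ∧ ¬ U ≤ W)) (fun W : Subgroup G => Nat.card W)
    ⟨⊥, by
      rw [Finset.mem_filter]
      exact ⟨Finset.mem_univ _, inferInstance, fun h => hU (le_bot_iff.1 h)⟩⟩
  rw [Finset.mem_filter] at hW
  obtain ⟨_, hWn, hUW⟩ := hW
  have hpQ : IsPGroup p (G ⧸ W) := hG.to_quotient W
  have hnt : Nontrivial (G ⧸ W) := by
    rw [QuotientGroup.nontrivial_iff]
    rintro rfl
    exact hUW le_top
  have hcen : Nontrivial (Subgroup.center (G ⧸ W)) := hpQ.center_nontrivial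
  -- an element of order `p` in the centre
  obtain ⟨z, hz⟩ : ∃ z : Subgroup.center (G ⧸ W), orderOf z = p := by
    apply exists_prime_orderOf_dvd_card' p
    obtain ⟨n, hn⟩ := IsPGroup.iff_card.1 (hpQ.to_subgroup (Subgroup.center (G ⧸ W)))
    rw [hn]
    apply dvd_pow_self
    rintro rfl
    rw [pow_zero] at hn
    have := Finite.one_lt_card (α := Subgroup.center (G ⧸ W))
    omega
  set Z : Subgroup (G ⧸ W) := zpowers (z : G ⧸ W) with hZ
  have hZc : Nat.card Z = p := by
    rw [hZ, Nat.card_zpowers, Subgroup.orderOf_coe, hz]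
  have hZn : Z.Normal := by
    refine ⟨fun x hx g => ?_⟩
    have hxc : x ∈ Subgroup.center (G ⧸ W) := by
      have : Z ≤ Subgroup.center (G ⧸ W) := by
        rw [hZ, zpowers_le]
        exact z.2
      exact this hx
    rw [Subgroup.mem_center_iff.1 hxc g, mul_inv_cancel_right]
    exact hx
  set W' : Subgroup G := Z.comap (QuotientGroup.mk' W) with hW'
  have hW'n : W'.Normal := hZn.comap _
  have hsurj : Function.Surjective (QuotientGroup.mk' W) := QuotientGroup.mk'_surjective _
  have hWW' : W ≤ W' := by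
    intro x hx
    rw [hW', Subgroup.mem_comap]
    have : QuotientGroup.mk' W x = 1 := by
      rw [QuotientGroup.mk'_apply, QuotientGroup.eq_one_iff]; exact hx
    rw [this]; exact one_mem _
  have hmapW' : W'.map (QuotientGroup.mk' W) = Z := Subgroup.map_comap_eq_self_of_surjective hsurj _
  have hcardlt : Nat.card W < Nat.card W' := by
    by_contra hcon
    push Not at hcon
    have heq : W = W' := Subgroup.eq_of_le_of_card_ge hWW' hcon
    have h1 : W'.map (QuotientGroup.mk' W) = ⊥ := by
      rw [Subgroup.map_eq_bot_iff, QuotientGroup.ker_mk']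
      exact heq.ge
    rw [h1] at hmapW'
    rw [← hmapW', Subgroup.card_bot] at hZc
    exact hp.out.one_lt.ne hZc
  have hUW' : U ≤ W' := by
    by_contra hcon
    have := hmax W' (by rw [Finset.mem_filter]; exact ⟨Finset.mem_univ _, hW'n, hcon⟩)
    omega
  refine ⟨U ⊓ W, inf_le_left, ?_, ?_, ?_⟩
  · have h1 : (U ⊓ W).relIndex U = Nat.card (U.map (QuotientGroup.mk' W)) := by
      rw [inf_comm, Subgroup.inf_relIndex_right, ← Subgroup.relIndex_ker, QuotientGroup.ker_mk']
    have h2 : Nat.card (U.map (QuotientGroup.mk' W)) ∣ p := by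
      rw [← hZc]
      apply Subgroup.card_dvd_of_le
      rw [← hmapW']
      exact Subgroup.map_mono hUW'
    have h3 : Nat.card (U.map (QuotientGroup.mk' W)) ≠ 1 := by
      intro h
      have := Subgroup.card_eq_one.1 h
      rw [Subgroup.map_eq_bot_iff, QuotientGroup.ker_mk'] at this
      exact hUW this
    have h4 : Nat.card (U.map (QuotientGroup.mk' W)) = p := by
      rcases (Nat.dvd_prime hp.out).1 h2 with h | h
      · exact absurd h h3
      · exact h
    have h5 := Subgroup.relIndex_mul_relIndex (⊥ : Subgroup G) (U ⊓ W) U bot_le inf_le_left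
    rw [Subgroup.relIndex_bot_left, Subgroup.relIndex_bot_left, h1, h4] at h5
    rw [← h5, mul_comm]
  · intro u hu
    rw [mem_normalizer_iff_cj, cj_inf, cj_self hu, cj_of_normal]
  · intro g hg
    apply Subgroup.eq_of_le_of_card_ge
    · refine le_inf hg ?_
      rw [cj_inf]
      refine inf_le_right.trans ?_
      rw [cj_of_normal]
    · rw [card_cj]

theorem Special.gc_eq {L U : Subgroup G} (h : Special p L U) : gc L U = Nat.card U - Nat.card L := by
  classical
  unfold gc
  have h1 : (Finset.univ.filter (fun g : G => g ∈ normalizer (L : Set G) ∧ zpowers g ⊔ L = U)) =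
      (Finset.univ.filter (fun g : G => g ∈ U)) \ (Finset.univ.filter (fun g : G => g ∈ L)) := by
    ext g
    simp only [Finset.mem_filter, Finset.mem_univ, true_and, Finset.mem_sdiff]
    have hcL : 0 < Nat.card L := Nat.card_pos
    constructor
    · rintro ⟨_, hg⟩
      have hgU : g ∈ U := by rw [← hg]; exact le_sup_left (b := L) (mem_zpowers g)
      refine ⟨hgU, ?_⟩
      intro hgL
      rw [zpowers_sup_of_mem hgL] at hg
      have := h.card
      rw [← hg] at this
      have h2 := hp.out.two_le
      nlinarith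
    · rintro ⟨hgU, hgL⟩
      refine ⟨h.norm hgU, ?_⟩
      have hle : zpowers g ⊔ L ≤ U := sup_le (by rw [zpowers_le]; exact hgU) h.le
      have hlt := card_lt_of_notMem hgL
      -- the index is a divisor of `p`
      have h3 := Subgroup.card_dvd_of_le hle
      have h4 := Subgroup.card_dvd_of_le (le_sup_right : L ≤ zpowers g ⊔ L)
      obtain ⟨a, ha⟩ := h4
      obtain ⟨b, hb⟩ := h3
      have h5 : a * b = p := by
        have h6 : Nat.card L * (a * b) = Nat.card L * p := by
          rw [← mul_assoc, ← ha, ← hb, h.card, mul_comm]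
        exact Nat.eq_of_mul_eq_mul_left hcL h6
      have h7 : a ∣ p := Dvd.intro _ h5
      rcases (Nat.dvd_prime hp.out).1 h7 with h8 | h8
      · rw [h8, mul_one] at ha
        omega
      · apply Subgroup.eq_of_le_of_card_ge hle
        rw [ha, h8, h.card, mul_comm]
  rw [h1, Finset.card_sdiff_of_subset]
  · rw [Nat.card_eq_fintype_card, Nat.card_eq_fintype_card, Fintype.card_subtype,
      Fintype.card_subtype]
  · intro g hg
    rw [Finset.mem_filter] at hg ⊢
    exact ⟨hg.1, h.le hg.2⟩

theorem Special.gy_mul {L U : Subgroup G} (h : Special p L U) :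
    gy L U * Nat.card (normalizer (U : Set G)) =
      Nat.card (normalizer (L : Set G)) * (Nat.card U - Nat.card L) := by
  classical
  rw [← sum_gc]
  have h1 : ∀ x : G, gc L (cj x⁻¹ U) =
      if x ∈ normalizer (L : Set G) then Nat.card U - Nat.card L else 0 := by
    intro x
    split_ifs with hx
    · rw [gc_cj _ _ _ (inv_mem hx), h.gc_eq]
    · unfold gc
      rw [Finset.card_eq_zero, Finset.filter_eq_empty_iff]
      rintro g _ ⟨_, hg⟩
      apply hx
      rw [mem_normalizer_iff_cj]
      apply h.only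
      have : L ≤ cj x⁻¹ U := by rw [← hg]; exact le_sup_right
      rwa [le_cj_iff, inv_inv] at this
  rw [Finset.sum_congr rfl (fun x _ => h1 x), ← Finset.sum_filter, Finset.sum_const, smul_eq_mul]
  congr 1
  rw [Nat.card_eq_fintype_card, Fintype.card_subtype]

theorem nidx_eq_pow (hG : IsPGroup p G) (U : Subgroup G) : ∃ k, nidx U = p ^ k := by
  obtain ⟨m, hm⟩ := IsPGroup.iff_card.1 (hG.to_subgroup (normalizer (U : Set G)))
  have h := nidx_mul_card U
  rw [hm] at h
  have : nidx U ∣ p ^ m := Dvd.intro _ h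
  obtain ⟨k, _, hk⟩ := (Nat.dvd_prime_pow hp.out).1 this
  exact ⟨k, hk⟩

/-- The lower bound for the values of elements of the Burnside ring. -/
theorem Special.low (hG : IsPGroup p G) {L U : Subgroup G} (h : Special p L U)
    {f : Subgroup G → ℤ} (hf : InB f) (hvan : ∀ K, L < K → ¬ Cj K U → f K = 0)
    (hL : (Nat.card (normalizer (L : Set G)) : ℤ) ∣ Nat.card L * f L) :
    (p * nidx U : ℤ) ∣ f U := by
  classical
  have hcong := hf.cong L
  have hb : bsum f L = Nat.card L * f L + gy L U * f U := by
    have h1 : ∀ g ∈ Finset.univ.filter (fun g : G => g ∈ normalizer (L : Set G)),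
        f (zpowers g ⊔ L) = (if g ∈ L then f L else 0) +
          (if Cj (zpowers g ⊔ L) U then f U else 0) := by
      intro g _
      by_cases hg : g ∈ L
      · rw [zpowers_sup_of_mem hg, if_pos hg, if_neg, add_zero]
        intro hc
        have h2 := hc.card_eq
        have h3 := h.card
        have h4 := hp.out.two_le
        have h5 : 0 < Nat.card L := Nat.card_pos
        nlinarith
      · rw [if_neg hg, zero_add]
        split_ifs with hc
        · exact hf.congr hc
        · apply hvan _ _ hc
          refine lt_of_le_of_ne le_sup_right ?_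
          intro heq
          apply hg
          rw [heq]
          exact le_sup_left (b := L) (mem_zpowers g)
    unfold bsum
    rw [Finset.sum_congr rfl h1, Finset.sum_add_distrib]
    congr 1
    · rw [← Finset.sum_filter, Finset.filter_filter, Finset.sum_const, nsmul_eq_mul]
      congr 2
      rw [Nat.card_eq_fintype_card, Fintype.card_subtype]
      congr 1
      ext g
      simp only [Finset.mem_filter, Finset.mem_univ, true_and, and_iff_right_iff_imp]
      intro hg
      exact Subgroup.le_normalizer hg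
    · rw [← Finset.sum_filter, Finset.filter_filter, Finset.sum_const, nsmul_eq_mul]
      rfl
  rw [hb] at hcong
  have hd : (Nat.card (normalizer (L : Set G)) : ℤ) ∣ gy L U * f U := by
    have := dvd_sub hcong hL
    simpa using this
  -- multiply by `|N(U)|`
  have hgy := h.gy_mul
  have hcU := h.card
  have hnid := nidx_mul_card U
  have hsub : Nat.card U - Nat.card L = (p - 1) * Nat.card L := by
    rw [hcU, Nat.sub_mul, one_mul]
  rw [hsub] at hgy
  have hNL : (Nat.card (normalizer (L : Set G)) : ℤ) ≠ 0 := by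
    have : 0 < Nat.card (normalizer (L : Set G)) := Nat.card_pos
    exact_mod_cast this.ne'
  have hcL : (Nat.card L : ℤ) ≠ 0 := by
    have : 0 < Nat.card L := Nat.card_pos
    exact_mod_cast this.ne'
  obtain ⟨w, hw⟩ := hd
  -- p - 1 as an integer
  have hp1 : ((p - 1 : ℕ) : ℤ) = (p : ℤ) - 1 := by
    have := hp.out.one_le
    push_cast [Nat.cast_sub this]
    ring
  have hgy' : (gy L U : ℤ) * (nidx U * (p * Nat.card L)) =
      Nat.card (normalizer (L : Set G)) * ((p - 1) * Nat.card L) := by
    rw [← hp1]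
    have : gy L U * (nidx U * (p * Nat.card L)) =
      Nat.card (normalizer (L : Set G)) * ((p - 1) * Nat.card L) := by
      rw [← hcU, hnid, hgy]
    exact_mod_cast this
  have h8 : ((p : ℤ) - 1) * f U = w * (nidx U * p) := by
    apply mul_left_cancel₀ hNL
    apply mul_left_cancel₀ hcL
    have h9 : (gy L U : ℤ) * (nidx U * (p * Nat.card L)) * f U =
        Nat.card (normalizer (L : Set G)) * ((p - 1) * Nat.card L) * f U := by rw [hgy']
    have h10 : (gy L U : ℤ) * (nidx U * (p * Nat.card L)) * f U =
        (gy L U * f U) * (nidx U * (p * Nat.card L)) := by ring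
    rw [h10, hw] at h9
    linear_combination -h9
  have h11 : (p * nidx U : ℤ) ∣ ((p : ℤ) - 1) * f U := by
    rw [h8]
    exact ⟨w, by ring⟩
  obtain ⟨k, hk⟩ := nidx_eq_pow hG U
  have hcop : IsCoprime ((p : ℤ) * nidx U) ((p : ℤ) - 1) := by
    rw [hk]
    push_cast
    rw [← pow_succ']
    apply IsCoprime.pow_left
    exact ⟨1, -1, by ring⟩
  exact hcop.dvd_of_dvd_mul_left h11

end Special

end Pool.Agent.Lib.MP_6b5f89_al
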