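import Mathlib
import Pool.Agent.Lib.MP_6b5f89_al.Comm
import Pool.Agent.Lib.MP_6b5f89_al.PGroup

/-!
The key inequality for a cyclic normal subgroup.
-/

set_option autoImplicit false

namespace Pool.Agent.Lib.MP_6b5f89_al

open Subgroup
open scoped commutatorElement

section Theta

variable {H : Type} [Group H] (C : Subgroup H) [C.Normal] (s : H)

/-- conjugation by `s` minus the identity, on the abelianisation of `C` -/
noncomputable def TT : Abelianization C →* Abelianization C :=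
  Abelianization.map (MulAut.conjNormal s : MulAut C).toMonoidHom / MonoidHom.id _

/-- iterates of `TT` composed with the projection -/
noncomputable def th : ℕ → (C →* Abelianization C)
  | 0 => Abelianization.of
  | n + 1 => (TT C s).comp (th n)

theorem TT_of (c : C) : TT C s (Abelianization.of c) =
    Abelianization.of ((MulAut.conjNormal s : MulAut C) c * c⁻¹) := by
  unfold TT
  rw [MonoidHom.div_apply, Abelianization.map_of, map_mul, map_inv, div_eq_mul_inv]
  rfl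

theorem th_zero (c : C) : th C s 0 c = Abelianization.of c := rfl

theorem th_succ (n : ℕ) (c : C) : th C s (n + 1) c = TT C s (th C s n c) := rfl

theorem th_comm (n : ℕ) (c : C) :
    th C s n ((MulAut.conjNormal s : MulAut C) c * c⁻¹) = TT C s (th C s n c) := by
  induction n with
  | zero => rw [th_zero, th_zero, TT_of]
  | succ n ih => rw [th_succ, ih, th_succ]

theorem th_conj (n : ℕ) (c : C) :
    th C s n ((MulAut.conjNormal s : MulAut C) c) = TT C s (th C s n c) * th C s n c := by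
  rw [← th_comm, ← map_mul, inv_mul_cancel_right]

theorem conj_coe (c : C) :
    (((MulAut.conjNormal s : MulAut C) c * c⁻¹ : C) : H) = ⁅s, (c : H)⁆ := by
  rw [Subgroup.coe_mul, MulAut.conjNormal_apply, Subgroup.coe_inv, commutatorElement_def]

theorem th_lcs (i : ℕ) (c : C) : ∃ c' : C, (c' : H) ∈ (⊤ : Subgroup H).lowerCentralSeries i ∧
    th C s i c = Abelianization.of c' := by
  induction i with
  | zero => exact ⟨c, Subgroup.mem_top _, rfl⟩
  | succ i ih =>
    obtain ⟨c', hc', h⟩ := ih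
    refine ⟨(MulAut.conjNormal s : MulAut C) c' * c'⁻¹, ?_, ?_⟩
    · rw [conj_coe, Subgroup.lowerCentralSeries_succ, Subgroup.commutator_comm]
      exact Subgroup.commutator_mem_commutator (Subgroup.mem_top _) hc'
    · rw [th_succ, h, TT_of]

variable {C s}

theorem conj_zC {zC : C} {q : ℤ} (hs : s * (zC : H) * s⁻¹ = (zC : H) ^ (1 + q)) :
    (MulAut.conjNormal s : MulAut C) zC = zC ^ (1 + q) := by
  apply Subtype.ext
  rw [MulAut.conjNormal_apply, hs]
  rfl

theorem TT_zeta {zC : C} {q : ℤ} (hs : s * (zC : H) * s⁻¹ = (zC : H) ^ (1 + q)) (j : ℤ) :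
    TT C s (Abelianization.of zC ^ j) = Abelianization.of zC ^ (q * j) := by
  rw [map_zpow, TT_of, conj_zC hs, zpow_mul]
  congr 1
  rw [← map_zpow]
  congr 1
  rw [add_comm, zpow_add, zpow_one, mul_inv_cancel_right]

theorem th_zeta {zC : C} {q : ℤ} (hs : s * (zC : H) * s⁻¹ = (zC : H) ^ (1 + q)) (n : ℕ) (j : ℤ) :
    th C s n (zC ^ j) = Abelianization.of zC ^ (q ^ n * j) := by
  induction n with
  | zero => rw [th_zero, map_zpow, pow_zero, one_mul]
  | succ n ih =>
    rw [th_succ, ih, TT_zeta hs]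
    congr 1
    ring

omit [C.Normal] in
/-- if a power of `z` dies in the abelianisation of `C` then it is killed by iterated
commutators -/
theorem zeta_bot {zC : C} {q : ℤ} (hs : s * (zC : H) * s⁻¹ = (zC : H) ^ (1 + q)) (j : ℤ)
    (hj : Abelianization.of zC ^ j = 1) (k : ℕ) : (zC : H) ^ (q ^ k * j) ∈ itc ⁅C, C⁆ k := by
  induction k with
  | zero =>
    rw [pow_zero, one_mul, itc_zero]
    rw [← map_zpow, ← MonoidHom.mem_ker, Abelianization.ker_of] at hj
    rw [← Subgroup.map_subtype_commutator]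
    exact ⟨zC ^ j, hj, rfl⟩
  | succ k ih =>
    rw [itc_succ, Subgroup.commutator_comm]
    have h1 : (zC : H) ^ (q ^ (k + 1) * j) = ⁅s, (zC : H) ^ (q ^ k * j)⁆ := by
      rw [commutatorElement_def, ← conj_zpow, hs, ← zpow_mul, ← zpow_neg, ← zpow_add]
      congr 1
      ring
    rw [h1]
    exact Subgroup.commutator_mem_commutator (Subgroup.mem_top _) ih

end Theta

section Index

variable {A : Type} [Group A] [Finite A]

omit [Finite A] in
theorem card_inf_mul_relIndex (K C : Subgroup A) :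
    Nat.card (K ⊓ C : Subgroup A) * C.relIndex K = Nat.card K := by
  have h := Subgroup.relIndex_mul_relIndex (⊥ : Subgroup A) (K ⊓ C) K bot_le inf_le_left
  rw [Subgroup.relIndex_bot_left, Subgroup.relIndex_bot_left, inf_comm K C,
    Subgroup.inf_relIndex_right] at h
  rw [inf_comm K C]
  exact h

theorem relIndex_zpowers_pow_le (g : A) (m : ℕ) (hm : 0 < m) :
    (zpowers (g ^ m)).relIndex (zpowers g) ≤ m := by
  have hle : zpowers (g ^ m) ≤ zpowers g := by
    rw [zpowers_le]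
    exact pow_mem (mem_zpowers g) m
  have h := Subgroup.relIndex_mul_relIndex (⊥ : Subgroup A) (zpowers (g ^ m)) (zpowers g) bot_le hle
  rw [Subgroup.relIndex_bot_left, Subgroup.relIndex_bot_left, Nat.card_zpowers, Nat.card_zpowers,
    orderOf_pow' g hm.ne'] at h
  have hd : Nat.gcd (orderOf g) m ∣ orderOf g := Nat.gcd_dvd_left _ _
  have h2 : orderOf g / Nat.gcd (orderOf g) m * Nat.gcd (orderOf g) m = orderOf g :=
    Nat.div_mul_cancel hd
  have h3 : 0 < orderOf g := orderOf_pos g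
  have h4 : 0 < orderOf g / Nat.gcd (orderOf g) m := by
    rw [← h2] at h3
    exact Nat.pos_of_mul_pos_right h3
  have h5 : (zpowers (g ^ m)).relIndex (zpowers g) = Nat.gcd (orderOf g) m := by
    apply Nat.eq_of_mul_eq_mul_left h4
    rw [h, h2]
  rw [h5]
  exact Nat.gcd_le_right _ hm

omit [Finite A] in
/-- comparison of the orders of preimages of two cyclic subgroups -/
theorem card_comap_le {B : Type} [Group B] [Finite B] (f : A →* B) (g : B) (m : ℕ) (hm : 0 < m) :
    Nat.card ((zpowers g).comap f) ≤ m * Nat.card ((zpowers (g ^ m)).comap f) := by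
  have hle : zpowers (g ^ m) ≤ zpowers g := by
    rw [zpowers_le]
    exact pow_mem (mem_zpowers g) m
  have h := Subgroup.relIndex_mul_relIndex (⊥ : Subgroup A) ((zpowers (g ^ m)).comap f)
    ((zpowers g).comap f) bot_le (Subgroup.comap_mono hle)
  rw [Subgroup.relIndex_bot_left, Subgroup.relIndex_bot_left, Subgroup.relIndex_comap] at h
  have h1 : (zpowers (g ^ m)).relIndex (((zpowers g).comap f).map f) ≤
      (zpowers (g ^ m)).relIndex (zpowers g) := by
    apply Subgroup.relIndex_le_of_le_right (Subgroup.map_comap_le _ _)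
    exact Subgroup.FiniteIndex.index_ne_zero
  have h2 := relIndex_zpowers_pow_le g m hm
  rw [← h, mul_comm]
  exact Nat.mul_le_mul_right _ (h1.trans h2)

end Index

section Key

open scoped Pointwise

variable {H : Type} [Group H] [Fintype H] {p : ℕ} [hp : Fact p.Prime]

theorem cancel_unit {u : ℤ} (hu : ¬ (p : ℤ) ∣ u) {a b k : ℕ} {j : ℤ}
    (h : (p : ℤ) ^ (a + b) ∣ (p : ℤ) ^ b * u ^ k * j) : (p : ℤ) ^ a ∣ j := by
  have hpp : Prime (p : ℤ) := Nat.prime_iff_prime_int.1 hp.out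
  have hp0 : (p : ℤ) ^ b ≠ 0 := pow_ne_zero _ hpp.ne_zero
  have h1 : (p : ℤ) ^ a ∣ u ^ k * j := by
    have h2 : (p : ℤ) ^ b * (p : ℤ) ^ a ∣ (p : ℤ) ^ b * (u ^ k * j) := by
      rw [← pow_add, add_comm b a, ← mul_assoc]; exact h
    exact Int.dvd_of_mul_dvd_mul_left hp0 h2
  exact hpp.pow_dvd_of_dvd_mul_left a (fun hd => hu (hpp.dvd_of_dvd_pow hd)) h1

/-- **Key inequality.** -/
theorem key_ineq (z s : H) (C : Subgroup H) [C.Normal] (hC : ∀ x, x ∈ C ↔ x * z = z * x)
    (n e r t : ℕ) (hn1 : 1 ≤ n) (hz : orderOf z = p ^ e) (u : ℤ) (hu : ¬ (p : ℤ) ∣ u)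
    (hs : s * z * s⁻¹ = z ^ (1 + (p : ℤ) ^ r * u))
    (hl : (⊤ : Subgroup H).lowerCentralSeries n ≤ zpowers z)
    (hstar : ∀ S : Subgroup H, z ^ (p ^ t) ∉ S → p ^ (t + 1) ∣ nidx S)
    (hB : (t + 1 + r * n) + r * (2 * n - 1) ≤ e)
    (m : ℕ) (hm : ∀ j : ℕ, s ^ j ∈ C → m ∣ j) :
    p ^ (t + 1) * m ≤ p ^ r * C.index := by
  classical
  have hpp : Prime (p : ℤ) := Nat.prime_iff_prime_int.1 hp.out
  have hp0 : (p : ℤ) ≠ 0 := hpp.ne_zero
  set B : ℕ := t + 1 + r * n with hBdef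
  have hzC : z ∈ C := (hC z).2 rfl
  set zC : C := ⟨z, hzC⟩ with hzCdef
  set q : ℤ := (p : ℤ) ^ r * u with hq
  have hs' : s * (zC : H) * s⁻¹ = (zC : H) ^ (1 + q) := hs
  set ζ : Abelianization C := Abelianization.of zC with hζ
  have hqpow : ∀ k : ℕ, q ^ k = (p : ℤ) ^ (r * k) * u ^ k := by
    intro k
    rw [hq, mul_pow, ← pow_mul]
  -- the order of the image of `z`
  have hMC : ⁅zpowers z, C⁆ = ⊥ := by
    rw [Subgroup.commutator_eq_bot_iff_le_centralizer, zpowers_le, Subgroup.mem_centralizer_iff]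
    intro x hx
    exact (hC x).1 hx
  have hord : ∀ j : ℤ, ζ ^ j = 1 → (p : ℤ) ^ B ∣ j := by
    intro j hj
    have h1 := zeta_bot hs' j hj (2 * n - 1)
    rw [itc_commutator_eq_bot (zpowers z) C hMC n hl (2 * n - 1) (by omega), Subgroup.mem_bot,
      ← orderOf_dvd_iff_zpow_eq_one] at h1
    have h2 : orderOf (zC : H) = p ^ e := hz
    rw [h2, hqpow] at h1
    push_cast at h1
    apply cancel_unit hu (b := r * (2 * n - 1)) (k := 2 * n - 1)
    exact (pow_dvd_pow _ hB).trans h1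
  have hord' : ∀ i j : ℤ, ζ ^ i = ζ ^ j → (p : ℤ) ^ B ∣ i - j := by
    intro i j hij
    apply hord
    rw [zpow_sub, hij, mul_inv_cancel]
  -- images under theta
  have hth : ∀ c : C, ∃ j : ℤ, th C s n c = ζ ^ j := by
    intro c
    obtain ⟨c', hc', h⟩ := th_lcs C s n c
    obtain ⟨j, hj⟩ := Subgroup.mem_zpowers_iff.1 (hl hc')
    refine ⟨j, ?_⟩
    rw [h, hζ, ← map_zpow]
    congr 1
    apply Subtype.ext
    rw [← hj]
    rfl
  -- the subgroups
  have hBr : r ≤ B := by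
    have : r * 1 ≤ r * n := Nat.mul_le_mul_left r hn1
    omega
  set E : Subgroup C := (zpowers (ζ ^ ((p : ℤ) ^ B))).comap (th C s n) with hE
  set E2 : Subgroup C := (zpowers (ζ ^ ((p : ℤ) ^ (B - r)))).comap (th C s n) with hE2
  have memE : ∀ c : C, c ∈ E ↔ ∃ i : ℤ, ζ ^ ((p : ℤ) ^ B * i) = th C s n c := by
    intro c
    rw [hE, Subgroup.mem_comap, Subgroup.mem_zpowers_iff]
    simp only [zpow_mul]
  have memE2 : ∀ c : C, c ∈ E2 ↔ ∃ i : ℤ, ζ ^ ((p : ℤ) ^ (B - r) * i) = th C s n c := by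
    intro c
    rw [hE2, Subgroup.mem_comap, Subgroup.mem_zpowers_iff]
    simp only [zpow_mul]
  have hcardE : Nat.card E2 ≤ p ^ r * Nat.card E := by
    have h1 := card_comap_le (th C s n) (ζ ^ ((p : ℤ) ^ (B - r))) (p ^ r)
      (pow_pos hp.out.pos r)
    have h2 : (ζ ^ ((p : ℤ) ^ (B - r))) ^ (p ^ r) = ζ ^ ((p : ℤ) ^ B) := by
      rw [← zpow_natCast, ← zpow_mul]
      congr 1
      push_cast
      rw [← pow_add]
      congr 1
      omega
    rw [h2] at h1
    exact h1
  set Eh : Subgroup H := E.map C.subtype with hEh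
  set E2h : Subgroup H := E2.map C.subtype with hE2h
  have hcEh : Nat.card Eh = Nat.card E :=
    (Nat.card_congr (E.equivMapOfInjective _ C.subtype_injective).toEquiv).symm
  have hcE2h : Nat.card E2h = Nat.card E2 :=
    (Nat.card_congr (E2.equivMapOfInjective _ C.subtype_injective).toEquiv).symm
  -- `s` normalises `Eh`
  have hconjE : ∀ c : C, c ∈ E → (MulAut.conjNormal s : MulAut C) c ∈ E := by
    intro c hc
    rw [memE] at hc ⊢
    obtain ⟨i, hi⟩ := hc
    rw [th_conj, ← hi, TT_zeta hs']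
    refine ⟨i * (q + 1), ?_⟩
    rw [← zpow_add]
    congr 1
    ring
  have hsN : s ∈ normalizer (Eh : Set H) := by
    rw [mem_normalizer_iff_cj]
    apply Subgroup.eq_of_le_of_card_ge
    · intro x hx
      obtain ⟨y, ⟨c, hc, rfl⟩, rfl⟩ := hx
      refine ⟨_, hconjE c hc, ?_⟩
      rfl
    · rw [card_cj]
  -- the subgroup `S`
  set S : Subgroup H := zpowers s ⊔ Eh with hS
  have hmemS : ∀ x, x ∈ S → ∃ i : ℤ, ∃ a ∈ Eh, x = s ^ i * a := by
    intro x hx
    have h1 : (S : Set H) = (zpowers s : Set H) * (Eh : Set H) :=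
      Subgroup.coe_mul_of_left_le_normalizer_right _ _ (by rw [zpowers_le]; exact hsN)
    have h2 : x ∈ (S : Set H) := hx
    rw [h1] at h2
    obtain ⟨y, hy, a, ha, rfl⟩ := h2
    obtain ⟨i, rfl⟩ := Subgroup.mem_zpowers_iff.1 hy
    exact ⟨i, a, ha, rfl⟩
  have hSC : S ⊓ C ≤ Eh := by
    rintro x ⟨hxS, hxC⟩
    obtain ⟨i, a, ha, rfl⟩ := hmemS x hxS
    apply mul_mem _ ha
    obtain ⟨c, hc, rfl⟩ := ha
    have hsi : s ^ i ∈ C := by
      have h1 : s ^ i * C.subtype c * (c : H)⁻¹ ∈ C := C.mul_mem hxC (C.inv_mem c.2)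
      have h2 : s ^ i * C.subtype c * (c : H)⁻¹ = s ^ i := by
        rw [Subgroup.subtype_apply, mul_inv_cancel_right]
      rwa [h2] at h1
    refine ⟨⟨s ^ i, hsi⟩, ?_, rfl⟩
    show (⟨s ^ i, hsi⟩ : C) ∈ E
    rw [memE]
    refine ⟨0, ?_⟩
    rw [mul_zero, zpow_zero]
    obtain ⟨k, rfl⟩ : ∃ k, n = k + 1 := ⟨n - 1, by omega⟩
    rw [th_succ, ← th_comm]
    have h3 : (MulAut.conjNormal s : MulAut C) ⟨s ^ i, hsi⟩ * (⟨s ^ i, hsi⟩ : C)⁻¹ = 1 := by
      apply Subtype.ext
      rw [conj_coe]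
      show ⁅s, s ^ i⁆ = 1
      rw [commutatorElement_eq_one_iff_mul_comm]
      exact (Commute.self_zpow s i)
    rw [h3, map_one]
  have hzS : z ^ (p ^ t) ∉ S := by
    intro hmem
    have h1 : z ^ (p ^ t) ∈ Eh := hSC ⟨hmem, pow_mem hzC _⟩
    obtain ⟨c, hc, hcz⟩ := h1
    have hcz' : c = zC ^ ((p : ℤ) ^ t) := by
      apply Subtype.ext
      show C.subtype c = (zC : H) ^ ((p : ℤ) ^ t)
      rw [hcz]
      have : ((p : ℤ) ^ t) = ((p ^ t : ℕ) : ℤ) := by push_cast; rfl
      rw [this, zpow_natCast]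
    have hc' : c ∈ E := hc
    rw [memE, hcz', th_zeta hs'] at hc'
    obtain ⟨i, hi⟩ := hc'
    have h2 := hord' _ _ hi
    have h3 : (p : ℤ) ^ B ∣ q ^ n * (p : ℤ) ^ t := by
      have h4 : (p : ℤ) ^ B ∣ (p : ℤ) ^ B * i := Dvd.intro _ rfl
      have h5 := dvd_sub h4 h2
      have h6 : (p : ℤ) ^ B * i - ((p : ℤ) ^ B * i - q ^ n * (p : ℤ) ^ t) =
          q ^ n * (p : ℤ) ^ t := by ring
      rwa [h6] at h5
    rw [hqpow] at h3
    have h7 : (p : ℤ) ^ (t + 1) ∣ (p : ℤ) ^ t := cancel_unit hu (b := r * n) (k := n) h3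
    have h8 : (p : ℤ) ^ t ≠ 0 := pow_ne_zero _ hp0
    rw [pow_succ] at h7
    have h9 : (p : ℤ) ^ t * p ∣ (p : ℤ) ^ t * 1 := by rwa [mul_one]
    have h10 := Int.dvd_of_mul_dvd_mul_left h8 h9
    exact hpp.not_dvd_one h10
  have hNS : normalizer (S : Set H) ⊓ C ≤ E2h := by
    rintro c ⟨hcN, hcC⟩
    have h1 : s * (c * s⁻¹ * c⁻¹) ∈ S := by
      have hsS : s ∈ S := le_sup_left (b := Eh) (mem_zpowers s)
      apply mul_mem hsS
      exact ((Subgroup.mem_normalizer_iff.1 hcN) s⁻¹).1 (inv_mem hsS)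
    have h2 : (((MulAut.conjNormal s : MulAut C) ⟨c, hcC⟩ * (⟨c, hcC⟩ : C)⁻¹ : C) : H) ∈ S ⊓ C := by
      refine ⟨?_, Subtype.property _⟩
      rw [conj_coe, commutatorElement_def]
      have h3 : s * c * s⁻¹ * c⁻¹ = s * (c * s⁻¹ * c⁻¹) := by group
      show s * c * s⁻¹ * c⁻¹ ∈ S
      rw [h3]
      exact h1
    obtain ⟨d, hd, hd2⟩ := hSC h2
    have hd3 : d = (MulAut.conjNormal s : MulAut C) ⟨c, hcC⟩ * (⟨c, hcC⟩ : C)⁻¹ :=
      Subtype.ext hd2
    have hd4 : d ∈ E := hd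
    rw [memE, hd3, th_comm] at hd4
    obtain ⟨i, hi⟩ := hd4
    obtain ⟨j, hj⟩ := hth ⟨c, hcC⟩
    rw [hj, TT_zeta hs'] at hi
    have h4 := hord' _ _ hi
    have h5 : (p : ℤ) ^ B ∣ q * j := by
      have h6 : (p : ℤ) ^ B ∣ (p : ℤ) ^ B * i := Dvd.intro _ rfl
      have h7 := dvd_sub h6 h4
      have h8 : (p : ℤ) ^ B * i - ((p : ℤ) ^ B * i - q * j) = q * j := by ring
      rwa [h8] at h7
    have h6 : (p : ℤ) ^ (B - r) ∣ j := by
      apply cancel_unit hu (b := r) (k := 1)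
      rw [Nat.sub_add_cancel hBr, pow_one]
      exact h5
    obtain ⟨l, hl'⟩ := h6
    refine ⟨⟨c, hcC⟩, ?_, rfl⟩
    show (⟨c, hcC⟩ : C) ∈ E2
    rw [memE2]
    exact ⟨l, by rw [hj, hl']⟩
  -- counting
  have hEC : Eh ≤ S ⊓ C := by
    apply le_inf le_sup_right
    exact Subgroup.map_subtype_le _
  have h1 := card_inf_mul_relIndex (normalizer (S : Set H)) C
  have h2 := card_inf_mul_relIndex S C
  have h3 : C.relIndex (normalizer (S : Set H)) ≤ C.index := by
    rw [← Subgroup.relIndex_top_right]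
    exact Subgroup.relIndex_le_of_le_right le_top Subgroup.FiniteIndex.index_ne_zero
  have h4 : m ≤ C.relIndex S := by
    have h5 : C.relIndex S = Nat.card (S.map (QuotientGroup.mk' C)) := by
      rw [← Subgroup.relIndex_ker, QuotientGroup.ker_mk']
    rw [h5]
    have h6 : zpowers (QuotientGroup.mk' C s) ≤ S.map (QuotientGroup.mk' C) := by
      rw [zpowers_le]
      exact ⟨s, le_sup_left (b := Eh) (mem_zpowers s), rfl⟩
    have h7 := Nat.le_of_dvd Nat.card_pos (Subgroup.card_dvd_of_le h6)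
    rw [Nat.card_zpowers] at h7
    have h8 : m ∣ orderOf (QuotientGroup.mk' C s) := by
      apply hm
      have h9 := pow_orderOf_eq_one (QuotientGroup.mk' C s)
      rw [← map_pow, QuotientGroup.mk'_apply, QuotientGroup.eq_one_iff] at h9
      exact h9
    exact (Nat.le_of_dvd (orderOf_pos _) h8).trans h7
  have h5 : Nat.card (normalizer (S : Set H) ⊓ C : Subgroup H) ≤ p ^ r * Nat.card Eh := by
    have h6 := Nat.le_of_dvd Nat.card_pos (Subgroup.card_dvd_of_le hNS)
    rw [hcE2h] at h6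
    rw [hcEh]
    exact h6.trans hcardE
  have h6 : Nat.card Eh ≤ Nat.card (S ⊓ C : Subgroup H) :=
    Nat.le_of_dvd Nat.card_pos (Subgroup.card_dvd_of_le hEC)
  have h7 := Nat.le_of_dvd (nidx_pos S) (hstar S hzS)
  have h8 := nidx_mul_card S
  have h9 : p ^ (t + 1) * m * Nat.card Eh ≤ p ^ r * C.index * Nat.card Eh := by
    calc p ^ (t + 1) * m * Nat.card Eh
        ≤ nidx S * (Nat.card (S ⊓ C : Subgroup H) * C.relIndex S) := by
          rw [mul_assoc]
          apply Nat.mul_le_mul h7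
          rw [mul_comm]
          exact Nat.mul_le_mul h6 h4
      _ = Nat.card (normalizer (S : Set H)) := by rw [h2, h8]
      _ = Nat.card (normalizer (S : Set H) ⊓ C : Subgroup H) *
            C.relIndex (normalizer (S : Set H)) := h1.symm
      _ ≤ (p ^ r * Nat.card Eh) * C.index := Nat.mul_le_mul h5 h3
      _ = _ := by ring
  exact Nat.le_of_mul_le_mul_right h9 Nat.card_pos

end Key

end Pool.Agent.Lib.MP_6b5f89_al
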