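import Mathlib
import Pool.Agent.Lib.MP_6b5f89_al.Key

/-!
A cyclic normal subgroup with large normaliser indices is contained in a bounded term of the
upper central series.
-/

set_option autoImplicit false

namespace Pool.Agent.Lib.MP_6b5f89_al

open Subgroup
open scoped commutatorElement

section DD

variable {H : Type} [Group H]

theorem exists_conj_zpow {z : H} (hz : (zpowers z).Normal) (g : H) :
    ∃ b : ℤ, g * z * g⁻¹ = z ^ b := by
  obtain ⟨b, hb⟩ := Subgroup.mem_zpowers_iff.1 (hz.conj_mem z (mem_zpowers z) g)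
  exact ⟨b, hb.symm⟩

/-- the elements acting on `z` as `1 + q i` -/
def DD (z : H) (hz : (zpowers z).Normal) (q : ℤ) : Subgroup H where
  carrier := {h | ∃ i : ℤ, h * z * h⁻¹ = z ^ (1 + q * i)}
  one_mem' := ⟨0, by simp⟩
  mul_mem' := by
    rintro a b ⟨i, hi⟩ ⟨j, hj⟩
    refine ⟨i + j + q * i * j, ?_⟩
    have h1 : a * b * z * (a * b)⁻¹ = a * (b * z * b⁻¹) * a⁻¹ := by group
    rw [h1, hj, ← conj_zpow, hi, ← zpow_mul]
    congr 1
    ring
  inv_mem' := by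
    rintro a ⟨i, hi⟩
    obtain ⟨b, hb⟩ := exists_conj_zpow hz a⁻¹
    refine ⟨-(b * i), ?_⟩
    have h1 : z = a⁻¹ * (a * z * a⁻¹) * a⁻¹⁻¹ := by group
    rw [hi, ← conj_zpow, hb, ← zpow_mul] at h1
    rw [hb]
    have h2 : z ^ b = z ^ (b * (1 + q * i)) * z ^ (-(b * (q * i))) := by
      rw [← zpow_add]; congr 1; ring
    rw [h2, ← h1]
    nth_rewrite 1 [← zpow_one z]
    rw [← zpow_add]
    congr 1
    ring

theorem mem_DD {z : H} {hz : (zpowers z).Normal} {q : ℤ} {h : H} :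
    h ∈ DD z hz q ↔ ∃ i : ℤ, h * z * h⁻¹ = z ^ (1 + q * i) := Iff.rfl

theorem DD_mono {z : H} {hz : (zpowers z).Normal} {q q' : ℤ} (h : q ∣ q') :
    DD z hz q' ≤ DD z hz q := by
  rintro x ⟨i, hi⟩
  obtain ⟨w, rfl⟩ := h
  exact ⟨w * i, by rw [hi]; congr 1; ring⟩

theorem conj_pow_zpow {z h : H} {a : ℤ} (ha : h * z * h⁻¹ = z ^ a) (k : ℕ) :
    h ^ k * z * (h ^ k)⁻¹ = z ^ (a ^ k) := by
  induction k with
  | zero => simp
  | succ k ih =>
    have h1 : h ^ (k + 1) * z * (h ^ (k + 1))⁻¹ = h * (h ^ k * z * (h ^ k)⁻¹) * h⁻¹ := by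
      rw [pow_succ']; group
    rw [h1, ih, ← conj_zpow, ha, ← zpow_mul]
    congr 1
    ring

variable {p : ℕ} [hp : Fact p.Prime]

omit hp in
theorem mem_DD_card {z : H} {hz : (zpowers z).Normal} {e : ℕ} (he : orderOf z = p ^ e) {h : H} :
    h ∈ DD z hz ((p : ℤ) ^ e) ↔ h * z = z * h := by
  have hze : ∀ i : ℤ, z ^ (1 + (p : ℤ) ^ e * i) = z := by
    intro i
    have h1 : z ^ ((p : ℤ) ^ e) = 1 := by
      have : ((p : ℤ) ^ e) = ((p ^ e : ℕ) : ℤ) := by push_cast; rfl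
      rw [this, zpow_natCast, ← he, pow_orderOf_eq_one]
    rw [zpow_add, zpow_one, zpow_mul, h1, one_zpow, mul_one]
  rw [mem_DD]
  constructor
  · rintro ⟨i, hi⟩
    rw [hze] at hi
    rw [mul_inv_eq_iff_eq_mul] at hi
    exact hi
  · intro hc
    refine ⟨0, ?_⟩
    rw [hze, mul_inv_eq_iff_eq_mul]
    exact hc

theorem DD_one_eq_top [Finite H] (hH : IsPGroup p H) {z : H} (hz : (zpowers z).Normal) {e : ℕ}
    (he : orderOf z = p ^ e) (g : H) : g ∈ DD z hz ((p : ℤ) ^ 1) := by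
  rcases Nat.eq_zero_or_pos e with h0 | hpos
  · subst h0
    rw [pow_zero, orderOf_eq_one_iff] at he
    subst he
    exact ⟨0, by simp⟩
  · obtain ⟨a, ha⟩ := exists_conj_zpow hz g
    obtain ⟨m, hm⟩ := hH g
    have h1 := conj_pow_zpow ha (p ^ m)
    rw [hm] at h1
    have h2 : z ^ (a ^ (p ^ m) - 1) = 1 := by
      rw [zpow_sub, ← h1]; simp
    rw [← orderOf_dvd_iff_zpow_eq_one, he] at h2
    have h3 : (p : ℤ) ∣ a ^ (p ^ m) - 1 := by
      refine dvd_trans ?_ h2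
      push_cast
      exact dvd_pow_self _ hpos.ne'
    have h4 : (p : ℤ) ∣ a - 1 := by
      rw [← ZMod.intCast_zmod_eq_zero_iff_dvd] at h3 ⊢
      push_cast at h3 ⊢
      rwa [ZMod.pow_card_pow] at h3
    obtain ⟨i, hi⟩ := h4
    refine ⟨i, ?_⟩
    rw [ha, pow_one, ← hi]
    congr 1
    ring

theorem relIndex_DD_le [Finite H] {z : H} (hz : (zpowers z).Normal) (r d : ℕ) :
    (DD z hz ((p : ℤ) ^ (r + d))).relIndex (DD z hz ((p : ℤ) ^ r)) ≤ p ^ d := by
  classical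
  set D := DD z hz ((p : ℤ) ^ r) with hD
  set D' := DD z hz ((p : ℤ) ^ (r + d)) with hD'
  have hch : ∀ x : D, ∃ i : ℤ, (x : H) * z * (x : H)⁻¹ = z ^ (1 + (p : ℤ) ^ r * i) := fun x => x.2
  choose i hi using hch
  have hpd : NeZero (p ^ d) := ⟨pow_ne_zero _ hp.out.ne_zero⟩
  have hinj : Function.Injective
      (fun q : D ⧸ D'.subgroupOf D => ((i q.out : ℤ) : ZMod (p ^ d))) := by
    intro q q' hqq
    have h1 : ((p ^ d : ℕ) : ℤ) ∣ i q'.out - i q.out := by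
      rw [← ZMod.intCast_eq_intCast_iff_dvd_sub]
      exact hqq
    obtain ⟨j, hj⟩ := h1
    rw [← QuotientGroup.out_eq' q, ← QuotientGroup.out_eq' q', QuotientGroup.eq]
    rw [Subgroup.mem_subgroupOf]
    set x := q.out
    set y := q'.out
    obtain ⟨b, hb⟩ := exists_conj_zpow hz (x : H)⁻¹
    refine ⟨b * j, ?_⟩
    rw [Subgroup.coe_mul, Subgroup.coe_inv]
    have h2 : (x : H)⁻¹ * y * z * ((x : H)⁻¹ * y)⁻¹ = (x : H)⁻¹ * (y * z * (y : H)⁻¹) * (x : H)⁻¹⁻¹ := by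
      group
    have h3 : z ^ (1 + (p : ℤ) ^ r * i y) = (x * z * (x : H)⁻¹) * z ^ ((p : ℤ) ^ (r + d) * j) := by
      rw [hi x, ← zpow_add]
      congr 1
      have h4 : i y = i x + (p : ℤ) ^ d * j := by
        push_cast at hj
        linarith
      rw [h4, pow_add]
      ring
    have h5 : (x : H)⁻¹ * ((x * z * (x : H)⁻¹) * z ^ ((p : ℤ) ^ (r + d) * j)) * (x : H)⁻¹⁻¹ =
        z * ((x : H)⁻¹ * z * (x : H)⁻¹⁻¹) ^ ((p : ℤ) ^ (r + d) * j) := by
      rw [conj_zpow]; group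
    rw [h2, hi y, h3, h5, hb, ← zpow_mul]
    nth_rewrite 1 [← zpow_one z]
    rw [← zpow_add]
    congr 1
    ring
  have h6 := Nat.card_le_card_of_injective _ hinj
  rw [Nat.card_zmod] at h6
  exact h6

/-- the order of an element acting as `1 + p ^ r u` -/
theorem order_mod {z : H} {hz : (zpowers z).Normal} {e : ℕ} (he : orderOf z = p ^ e) {v : H}
    {r : ℕ} (hr : 2 ≤ r) (hre : r ≤ e) {u : ℤ} (hu : ¬ (p : ℤ) ∣ u)
    (hv : v * z * v⁻¹ = z ^ (1 + (p : ℤ) ^ r * u)) (j : ℕ)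
    (hj : v ^ j ∈ DD z hz ((p : ℤ) ^ e)) : p ^ (e - r) ∣ j := by
  rw [mem_DD_card he] at hj
  have h1 := conj_pow_zpow hv j
  rw [hj, mul_inv_cancel_right] at h1
  have h2 : z ^ ((1 + (p : ℤ) ^ r * u) ^ j - 1) = 1 := by
    rw [zpow_sub, ← h1]; simp
  rw [← orderOf_dvd_iff_zpow_eq_one, he] at h2
  obtain ⟨d, rfl⟩ : ∃ d, e = d + r := ⟨e - r, by omega⟩
  have h3 : ((1 + (p : ZMod (p ^ (d + r))) ^ r * (u : ZMod (p ^ (d + r)))) ^ j) = 1 := by
    have h4 := (ZMod.intCast_zmod_eq_zero_iff_dvd _ _).2 h2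
    push_cast at h4
    exact sub_eq_zero.1 h4
  have h5 := orderOf_dvd_of_pow_eq_one h3
  rw [ZMod.orderOf_one_add_mul_prime_pow hp.out r (by omega) (by
    have := hp.out.two_le
    nlinarith) u hu d] at h5
  rw [Nat.add_sub_cancel]
  exact h5

/-- an element outside `C` has order divisible by `p` modulo `C` -/
theorem order_mod_p [Finite H] (hH : IsPGroup p H) {C : Subgroup H} {s : H} (hs : s ∉ C) (j : ℕ)
    (hj : s ^ j ∈ C) : p ∣ j := by
  by_contra hcon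
  apply hs
  obtain ⟨k, hk⟩ := (IsPGroup.iff_orderOf.1 hH) s
  have hcop : Nat.Coprime j (orderOf s) := by
    rw [hk]
    exact Nat.Coprime.pow_right k ((Nat.Prime.coprime_iff_not_dvd hp.out).2 hcon).symm
  obtain ⟨m, hm⟩ := exists_pow_eq_self_of_coprime hcop
  rw [← hm]
  exact pow_mem hj m

end DD

section GT

variable {p : ℕ} [hp : Fact p.Prime] {H : Type} [Group H] [Fintype H]

theorem pow_le_imp {a b : ℕ} (h : p ^ a ≤ p ^ b) : a ≤ b :=
  (Nat.pow_le_pow_iff_right hp.out.one_lt).1 h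

/-- The group theoretic lemma. -/
theorem gt_lemma (hH : IsPGroup p H) (z : H) (hz : (zpowers z).Normal) (n : ℕ) (hn1 : 1 ≤ n)
    (hl : (⊤ : Subgroup H).lowerCentralSeries n ≤ zpowers z)
    (hstar : ∀ (S : Subgroup H) (t : ℕ), z ^ (p ^ t) ∉ S → p ^ (t + 1) ∣ nidx S) :
    itc (zpowers z) (9 * n ^ 2 + 3 * n + 2) = ⊥ := by
  classical
  obtain ⟨e, he⟩ := (IsPGroup.iff_orderOf.1 hH) z
  set K := 9 * n ^ 2 + 3 * n + 2 with hK
  suffices hs : ∃ r : ℕ, (∀ g : H, g ∈ DD z hz ((p : ℤ) ^ r)) ∧ e ≤ r * K by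
    obtain ⟨r, h1, h2⟩ := hs
    have h3 := itc_zpowers_le z ((p : ℤ) ^ r) h1 K
    have h4 : z ^ (((p : ℤ) ^ r) ^ K) = 1 := by
      rw [← orderOf_dvd_iff_zpow_eq_one, he, ← pow_mul]
      push_cast
      exact pow_dvd_pow _ h2
    rw [h4, zpowers_one_eq_bot] at h3
    exact le_bot_iff.1 h3
  by_cases heK : e ≤ K
  · exact ⟨1, DD_one_eq_top hH hz he, by omega⟩
  push Not at heK
  have he2 : 2 ≤ e := by omega
  -- the centraliser
  set C : Subgroup H := DD z hz ((p : ℤ) ^ e) with hCdef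
  have hC : ∀ x, x ∈ C ↔ x * z = z * x := fun x => mem_DD_card he
  have hCn : C.Normal := by
    refine ⟨fun c hc g => ?_⟩
    rw [hC] at hc ⊢
    obtain ⟨b, hb⟩ := exists_conj_zpow hz g⁻¹
    have h1 : Commute c (z ^ b) := Commute.zpow_right hc b
    rw [← hb] at h1
    have h2 : c * (g⁻¹ * z * g⁻¹⁻¹) = (g⁻¹ * z * g⁻¹⁻¹) * c := h1
    calc g * c * g⁻¹ * z = g * (c * (g⁻¹ * z * g⁻¹⁻¹)) * g⁻¹ := by group
      _ = g * ((g⁻¹ * z * g⁻¹⁻¹) * c) * g⁻¹ := by rw [h2]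
      _ = z * (g * c * g⁻¹) := by group
  -- the valuation
  obtain ⟨r, hr2, hre, hDr, hrmax⟩ : ∃ r, 2 ≤ r ∧ r ≤ e ∧
      DD z hz ((p : ℤ) ^ 2) ≤ DD z hz ((p : ℤ) ^ r) ∧
      (r = e ∨ ¬ DD z hz ((p : ℤ) ^ 2) ≤ DD z hz ((p : ℤ) ^ (r + 1))) := by
    let P : ℕ → Prop := fun r => DD z hz ((p : ℤ) ^ 2) ≤ DD z hz ((p : ℤ) ^ r)
    have hP2 : P 2 := le_rfl
    refine ⟨Nat.findGreatest P e, Nat.le_findGreatest he2 hP2, Nat.findGreatest_le e,
      Nat.findGreatest_spec (P := P) he2 hP2, ?_⟩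
    by_cases h : Nat.findGreatest P e = e
    · left; exact h
    · right
      have h1 := Nat.findGreatest_le (P := P) e
      exact Nat.findGreatest_is_greatest (P := P) (by omega : Nat.findGreatest P e < _) (by omega)
  have hDeq : DD z hz ((p : ℤ) ^ 2) = DD z hz ((p : ℤ) ^ r) :=
    le_antisymm hDr (DD_mono (pow_dvd_pow _ hr2))
  have hCD : C ≤ DD z hz ((p : ℤ) ^ 2) := DD_mono (pow_dvd_pow _ he2)
  have hind1 : C.relIndex (DD z hz ((p : ℤ) ^ 2)) ≤ p ^ (e - r) := by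
    rw [hDeq]
    have h1 := relIndex_DD_le (p := p) hz r (e - r)
    rw [Nat.add_sub_cancel' hre] at h1
    exact h1
  have hind2 : (DD z hz ((p : ℤ) ^ 2)).index ≤ p := by
    have h1 := relIndex_DD_le (p := p) hz 1 1
    have h2 : DD z hz ((p : ℤ) ^ 1) = ⊤ := by
      rw [Subgroup.eq_top_iff']
      exact DD_one_eq_top hH hz he
    rw [h2, Subgroup.relIndex_top_right, pow_one] at h1
    exact h1
  have hind3 := Subgroup.relIndex_mul_index hCD
  -- the element of minimal valuation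
  have hv : r < e → ∃ v : H, ∃ u : ℤ, ¬ (p : ℤ) ∣ u ∧ v * z * v⁻¹ = z ^ (1 + (p : ℤ) ^ r * u) := by
    intro hlt
    have h1 : ¬ DD z hz ((p : ℤ) ^ 2) ≤ DD z hz ((p : ℤ) ^ (r + 1)) := by
      rcases hrmax with h | h
      · omega
      · exact h
    rw [SetLike.not_le_iff_exists] at h1
    obtain ⟨v, hv2, hvr⟩ := h1
    obtain ⟨u, hu⟩ := hDr hv2
    refine ⟨v, u, ?_, hu⟩
    rintro ⟨w, rfl⟩
    apply hvr
    exact ⟨w, by rw [hu]; congr 1; ring⟩
  obtain ⟨k, rfl⟩ : ∃ k, n = k + 1 := ⟨n - 1, by omega⟩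
  have h2n : 2 * (k + 1) - 1 = 2 * k + 1 := by omega
  have hppos : ∀ a : ℕ, 0 < p ^ a := fun a => pow_pos hp.out.pos a
  by_cases hD2 : DD z hz ((p : ℤ) ^ 2) = ⊤
  · -- every element is congruent to 1 mod p^2
    have hall : ∀ g : H, g ∈ DD z hz ((p : ℤ) ^ r) := by
      intro g
      rw [← hDeq, hD2]
      exact Subgroup.mem_top g
    refine ⟨r, hall, ?_⟩
    rcases Nat.lt_or_ge r e with hlt | hge
    · obtain ⟨v, u, hu, hvu⟩ := hv hlt
      by_contra hcon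
      push Not at hcon
      have hB : (r + 1 + r * (k + 1)) + r * (2 * (k + 1) - 1) ≤ e := by
        rw [h2n]
        have : r * K = r * (9 * (k + 1) ^ 2 + 3 * (k + 1) + 2) := rfl
        rw [this] at hcon
        nlinarith
      have h1 := key_ineq z v C hC (k + 1) e r r hn1 he u hu hvu hl
        (fun S => hstar S r) hB (p ^ (e - r)) (fun j hj => order_mod he hr2 hre hu hvu j hj)
      rw [hD2, Subgroup.relIndex_top_right] at hind1
      have h2 : p ^ (r + 1) * p ^ (e - r) ≤ p ^ r * p ^ (e - r) :=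
        h1.trans (Nat.mul_le_mul_left _ hind1)
      have h3 := Nat.le_of_mul_le_mul_right h2 (hppos _)
      have h4 := pow_le_imp h3
      omega
    · have : r = e := le_antisymm hre hge
      rw [this]
      nlinarith
  · exfalso
    obtain ⟨s, hs⟩ : ∃ s, s ∉ DD z hz ((p : ℤ) ^ 2) := by
      by_contra hcon
      push Not at hcon
      exact hD2 ((Subgroup.eq_top_iff' _).2 hcon)
    have hCi : C.index ≤ p ^ (e - r + 1) := by
      rw [← hind3, pow_succ]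
      exact Nat.mul_le_mul hind1 hind2
    obtain ⟨u', hu'⟩ := DD_one_eq_top hH hz he s
    have hu'p : ¬ (p : ℤ) ∣ u' := by
      rintro ⟨w, rfl⟩
      apply hs
      exact ⟨w, by rw [hu']; congr 1; ring⟩
    have hsC : s ∉ C := fun h => hs (hCD h)
    -- the first application
    have hKn : K = 9 * (k + 1) ^ 2 + 3 * (k + 1) + 2 := rfl
    have h3n : 3 * (k + 1) < e := by
      have : 0 ≤ (k + 1) ^ 2 := Nat.zero_le _
      omega
    have hB1 : (e - 3 * (k + 1) + 1 + 1 * (k + 1)) + 1 * (2 * (k + 1) - 1) ≤ e := by omega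
    have h1 := key_ineq z s C hC (k + 1) e 1 (e - 3 * (k + 1)) hn1 he u' hu'p hu' hl
      (fun S => hstar S _) hB1 p (fun j hj => order_mod_p hH hsC j hj)
    have h2 : p ^ (e - 3 * (k + 1) + 1) * p ≤ p ^ (e - r + 1) * p := by
      calc p ^ (e - 3 * (k + 1) + 1) * p ≤ p ^ 1 * C.index := h1
        _ ≤ p ^ 1 * p ^ (e - r + 1) := Nat.mul_le_mul_left _ hCi
        _ = p ^ (e - r + 1) * p := by ring
    have h3 := pow_le_imp (Nat.le_of_mul_le_mul_right h2 hp.out.pos)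
    have hr3 : r ≤ 3 * (k + 1) := by omega
    have hlt : r < e := by omega
    obtain ⟨v, u, hu, hvu⟩ := hv hlt
    have hB2 : (r + 1 + 1 + r * (k + 1)) + r * (2 * (k + 1) - 1) ≤ e := by
      rw [h2n]
      nlinarith
    have h4 := key_ineq z v C hC (k + 1) e r (r + 1) hn1 he u hu hvu hl
      (fun S => hstar S _) hB2 (p ^ (e - r)) (fun j hj => order_mod he hr2 hre hu hvu j hj)
    have h5 : p ^ (r + 1 + 1) * p ^ (e - r) ≤ p ^ (r + 1) * p ^ (e - r) := by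
      calc p ^ (r + 1 + 1) * p ^ (e - r) ≤ p ^ r * C.index := h4
        _ ≤ p ^ r * p ^ (e - r + 1) := Nat.mul_le_mul_left _ hCi
        _ = _ := by ring
    have h6 := pow_le_imp (Nat.le_of_mul_le_mul_right h5 (hppos _))
    omega

end GT

end Pool.Agent.Lib.MP_6b5f89_al
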