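import Mathlib
import Pool.Agent.Lib.MP_6b5f89_al.End

/-!
Subgroups of a `p`-group above a normal subgroup with abelian quotient.
-/

set_option autoImplicit false

namespace Pool.Agent.Lib.MP_6b5f89_al

open Subgroup
open scoped commutatorElement

section Units

theorem units_le_of_card_dvd (C D : Subgroup ℂˣ) [Finite C] [Finite D]
    (h : Nat.card C ∣ Nat.card D) : C ≤ D := by
  have hD0 : Nat.card D ≠ 0 := Nat.card_pos.ne'
  have hne : NeZero (Nat.card D) := ⟨hD0⟩
  have hfin : Finite (rootsOfUnity (Nat.card D) ℂ) := inferInstance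
  have h1 : D ≤ rootsOfUnity (Nat.card D) ℂ := by
    intro x hx
    rw [mem_rootsOfUnity]
    have h2 : (⟨x, hx⟩ : D) ^ Nat.card D = 1 := pow_card_eq_one'
    exact congrArg Subtype.val h2
  have h2 : C ≤ rootsOfUnity (Nat.card D) ℂ := by
    intro x hx
    rw [mem_rootsOfUnity]
    have h2 : (⟨x, hx⟩ : C) ^ Nat.card C = 1 := pow_card_eq_one'
    have h3 : x ^ Nat.card C = 1 := congrArg Subtype.val h2
    obtain ⟨w, hw⟩ := h
    rw [hw, pow_mul, h3, one_pow]
  have h3 : D = rootsOfUnity (Nat.card D) ℂ :=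
    Subgroup.eq_of_le_of_card_ge h1 (card_rootsOfUnity ℂ (Nat.card D))
  rw [h3]
  exact h2

end Units

section Chain

instance finite_map {A B : Type} [Group A] [Finite A] [Group B] (f : A →* B) (S : Subgroup A) :
    Finite (S.map f) := by
  have h : Finite ((S.map f : Subgroup B) : Set B) := by
    rw [Subgroup.coe_map]; infer_instance
  exact h

variable {p : ℕ} [hp : Fact p.Prime] {G : Type} [Group G] [Fintype G]

theorem exists_character (N P : Subgroup G) (hcomm : ⁅P, P⁆ ≤ N)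
    (x : P) (hxN : (x : G) ∉ N) : ∃ ψ : P →* ℂˣ, N.subgroupOf P ≤ ψ.ker ∧ ψ x ≠ 1 := by
  let Q := Abelianization P ⧸ ((N.subgroupOf P).map (Abelianization.of : P →* Abelianization P))
  let π : P →* Q := (QuotientGroup.mk' _).comp Abelianization.of
  have hx : π x ≠ 1 := by
    intro h
    have h1 : Abelianization.of x ∈ (N.subgroupOf P).map (Abelianization.of : P →* Abelianization P) := by
      rw [← QuotientGroup.eq_one_iff]
      exact h
    obtain ⟨y, hy, hyx⟩ := h1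
    have h2 : y⁻¹ * x ∈ _root_.commutator P := by
      rw [← Abelianization.ker_of, MonoidHom.mem_ker, map_mul, map_inv, hyx, inv_mul_cancel]
    have h3 : ((y⁻¹ * x : P) : G) ∈ ⁅P, P⁆ := by
      rw [← Subgroup.map_subtype_commutator]
      exact ⟨_, h2, rfl⟩
    have h4 := hcomm h3
    apply hxN
    have h5 : (y : G) ∈ N := hy
    have h6 := N.mul_mem h5 h4
    simpa using h6
  have hQ : Finite Q := inferInstance
  have hexp : NeZero ((Monoid.exponent Q : ℕ) : ℂ) := ⟨by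
    have : Monoid.exponent Q ≠ 0 := Monoid.exponent_ne_zero_of_finite
    exact_mod_cast this⟩
  obtain ⟨φ, hφ⟩ := CommGroup.exists_apply_ne_one_of_hasEnoughRootsOfUnity Q ℂ hx
  refine ⟨φ.comp π, ?_, hφ⟩
  intro y hy
  rw [MonoidHom.mem_ker, MonoidHom.comp_apply]
  have h1 : π y = 1 := by
    show QuotientGroup.mk' _ (Abelianization.of y) = 1
    rw [QuotientGroup.mk'_apply, QuotientGroup.eq_one_iff]
    exact ⟨y, hy, rfl⟩
  rw [h1, map_one]

theorem exists_chain (hG : IsPGroup p G) (N P : Subgroup G) (hcomm : ⁅P, P⁆ ≤ N) (hNP : N ≤ P)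
    (x : G) (hx : x ∈ P) (hxN : x ∉ N) :
    ∃ N' : Subgroup G, N ≤ N' ∧ N' ≤ P ∧ x ∉ N' ∧
      ∀ A B : Subgroup G, N' ≤ A → A ≤ P → N' ≤ B → B ≤ P → A ≤ B ∨ B ≤ A := by
  obtain ⟨ψ, hψN, hψx⟩ := exists_character N P hcomm ⟨x, hx⟩ hxN
  refine ⟨ψ.ker.map P.subtype, ?_, Subgroup.map_subtype_le _, ?_, ?_⟩
  · intro y hy
    exact ⟨⟨y, hNP hy⟩, hψN hy, rfl⟩
  · rintro ⟨y, hy, hyx⟩
    apply hψx
    have : y = ⟨x, hx⟩ := Subtype.ext hyx
    rw [← this]
    exact hy
  · have key : ∀ A B : Subgroup G, ψ.ker.map P.subtype ≤ A → A ≤ P →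
        ψ.ker.map P.subtype ≤ B → B ≤ P →
        Nat.card ((A.subgroupOf P).map ψ) ∣ Nat.card ((B.subgroupOf P).map ψ) → A ≤ B := by
      intro A B _ hAP hB _ hdvd
      have h1 := units_le_of_card_dvd _ _ hdvd
      intro a ha
      have h2 : ψ ⟨a, hAP ha⟩ ∈ (A.subgroupOf P).map ψ := ⟨⟨a, hAP ha⟩, ha, rfl⟩
      obtain ⟨b, hb, hba⟩ := h1 h2
      have h3 : b⁻¹ * ⟨a, hAP ha⟩ ∈ ψ.ker := by
        rw [MonoidHom.mem_ker, map_mul, map_inv, hba, inv_mul_cancel]
      have h4 : ((b⁻¹ * ⟨a, hAP ha⟩ : P) : G) ∈ B := hB ⟨_, h3, rfl⟩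
      have h5 : (b : G) ∈ B := hb
      have h6 := B.mul_mem h5 h4
      simpa using h6
    intro A B hA hAP hB hBP
    have hpow : ∀ X : Subgroup G, ∃ k, Nat.card ((X.subgroupOf P).map ψ) = p ^ k := by
      intro X
      have hX : IsPGroup p (X.subgroupOf P) := (hG.to_subgroup P).to_subgroup _
      have hX2 : IsPGroup p ((X.subgroupOf P).map ψ) := hX.map ψ
      exact IsPGroup.iff_card.1 hX2
    obtain ⟨a, ha⟩ := hpow A
    obtain ⟨b, hb⟩ := hpow B
    rcases le_total a b with h | h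
    · left
      apply key A B hA hAP hB hBP
      rw [ha, hb]
      exact pow_dvd_pow _ h
    · right
      apply key B A hB hBP hA hAP
      rw [ha, hb]
      exact pow_dvd_pow _ h

end Chain

end Pool.Agent.Lib.MP_6b5f89_al
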