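import Mathlib
import Pool.Agent.Lib.MP_6b5f89_al.PGroup

/-!
Correspondences between the subgroups of two groups given by an isomorphism of rings of marks.
-/

set_option autoImplicit false

namespace Pool.Agent.Lib.MP_6b5f89_al

open Subgroup

section Eval

variable {G : Type} [Group G] [Fintype G]

/-- evaluation at a subgroup -/
noncomputable def evalBR (K : Subgroup G) : BR G →+* ℤ :=
  (Pi.evalRingHom (fun _ : Subgroup G => ℤ) K).comp (BR G).subtype

omit [Fintype G] in
theorem evalBR_apply (K : Subgroup G) (f : BR G) : evalBR K f = f.1 K := rfl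

/-- Every ring homomorphism from the ring of marks to the integers is an evaluation. -/
theorem exists_eval (ψ : BR G →+* ℤ) : ∃ L : Subgroup G, ∀ f : BR G, ψ f = f.1 L := by
  classical
  let e : Subgroup G → BR G := fun L => ⟨ind L (Nat.card G), mem_of_inB (inB_ind_card L)⟩
  have hprod : ∏ L : Subgroup G, ((Nat.card G : BR G) - e L) = 0 := by
    apply Subtype.ext
    funext K
    have h1 : evalBR K (∏ L : Subgroup G, ((Nat.card G : BR G) - e L)) = 0 := by
      rw [map_prod]
      apply Finset.prod_eq_zero (Finset.mem_univ K)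
      rw [map_sub, map_natCast, evalBR_apply]
      show (Nat.card G : ℤ) - ind K (Nat.card G) K = 0
      rw [ind_self]; ring
    exact h1
  have h2 := congrArg ψ hprod
  rw [map_prod, map_zero, Finset.prod_eq_zero_iff] at h2
  obtain ⟨L, _, hL⟩ := h2
  rw [map_sub, map_natCast] at hL
  have hG : (Nat.card G : ℤ) ≠ 0 := by
    have : 0 < Nat.card G := Nat.card_pos
    exact_mod_cast this.ne'
  have heL : ψ (e L) = Nat.card G := by linarith
  refine ⟨L, fun f => ?_⟩
  have h3 : f * e L = ((f.1 L : ℤ) : BR G) * e L := by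
    apply Subtype.ext
    funext K
    have h4 : evalBR K (f * e L) = evalBR K (((f.1 L : ℤ) : BR G) * e L) := by
      rw [map_mul, map_mul, map_intCast, evalBR_apply, evalBR_apply]
      show f.1 K * ind L (Nat.card G) K = (f.1 L : ℤ) * ind L (Nat.card G) K
      by_cases hc : Cj K L
      · rw [(inB_of_mem f.2).congr hc]
      · rw [ind_of_not _ hc]; simp
    exact h4
  have h5 := congrArg ψ h3
  rw [map_mul, map_mul, map_intCast, heL] at h5
  exact mul_right_cancel₀ hG h5

end Eval

section Def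

/-- A correspondence between the subgroups of two groups identifying the rings of marks. -/
structure Corr (G H : Type) [Group G] [Group H] [Fintype G] [Fintype H] where
  t : Subgroup H → Subgroup G
  s : Subgroup G → Subgroup H
  ht : ∀ f : Subgroup G → ℤ, InB f → InB (fun K => f (t K))
  hs : ∀ f : Subgroup H → ℤ, InB f → InB (fun L => f (s L))
  hts : ∀ L, Cj (t (s L)) L
  hst : ∀ K, Cj (s (t K)) K

variable {G H : Type} [Group G] [Group H] [Fintype G] [Fintype H]

/-- the inverse correspondence -/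
def Corr.symm (c : Corr G H) : Corr H G := ⟨c.s, c.t, c.hs, c.ht, c.hst, c.hts⟩

theorem nonempty_corr (φ : BR G ≃+* BR H) : Nonempty (Corr G H) := by
  classical
  have h1 : ∀ K : Subgroup H, ∃ L : Subgroup G, ∀ f : BR G, (φ f).1 K = f.1 L := fun K =>
    exists_eval ((evalBR K).comp (φ : BR G →+* BR H))
  have h2 : ∀ K : Subgroup G, ∃ L : Subgroup H, ∀ f : BR H, (φ.symm f).1 K = f.1 L := fun K =>
    exists_eval ((evalBR K).comp (φ.symm : BR H →+* BR G))
  choose t ht using h1
  choose s hs using h2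
  refine ⟨⟨t, s, ?_, ?_, ?_, ?_⟩⟩
  · intro f hf
    have h3 : (fun K => f (t K)) = (φ ⟨f, mem_of_inB hf⟩).1 := by
      funext K
      rw [ht]
    rw [h3]
    exact inB_of_mem (φ ⟨f, mem_of_inB hf⟩).2
  · intro f hf
    have h3 : (fun K => f (s K)) = (φ.symm ⟨f, mem_of_inB hf⟩).1 := by
      funext K
      rw [hs]
    rw [h3]
    exact inB_of_mem (φ.symm ⟨f, mem_of_inB hf⟩).2
  · intro L
    by_contra hcon
    have hG : (Nat.card G : ℤ) ≠ 0 := by
      have : 0 < Nat.card G := Nat.card_pos
      exact_mod_cast this.ne'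
    have h3 := hs L (φ ⟨ind L (Nat.card G), mem_of_inB (inB_ind_card L)⟩)
    rw [RingEquiv.symm_apply_apply, ht] at h3
    simp only at h3
    rw [ind_self, ind_of_not _ hcon] at h3
    exact hG h3
  · intro L
    by_contra hcon
    have hG : (Nat.card H : ℤ) ≠ 0 := by
      have : 0 < Nat.card H := Nat.card_pos
      exact_mod_cast this.ne'
    have h3 := ht L (φ.symm ⟨ind L (Nat.card H), mem_of_inB (inB_ind_card L)⟩)
    rw [RingEquiv.apply_symm_apply, hs] at h3
    simp only at h3
    rw [ind_self, ind_of_not _ hcon] at h3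
    exact hG h3

theorem Corr.t_congr (c : Corr G H) {K K' : Subgroup H} (h : Cj K K') : Cj (c.t K) (c.t K') := by
  by_contra hcon
  have hG : (Nat.card G : ℤ) ≠ 0 := by
    have : 0 < Nat.card G := Nat.card_pos
    exact_mod_cast this.ne'
  have h1 := (c.ht _ (inB_ind_card (c.t K'))).congr h
  rw [ind_self, ind_of_not _ hcon] at h1
  exact hG h1.symm

theorem Corr.s_congr (c : Corr G H) {L L' : Subgroup G} (h : Cj L L') : Cj (c.s L) (c.s L') :=
  c.symm.t_congr h

theorem Corr.t_iff (c : Corr G H) {K : Subgroup H} {U : Subgroup G} :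
    Cj (c.t K) U ↔ Cj K (c.s U) := by
  constructor
  · intro h
    exact (c.hst K).symm.trans (c.s_congr h)
  · intro h
    exact (c.t_congr h).trans (c.hts U)

theorem Corr.s_iff (c : Corr G H) {L : Subgroup G} {K : Subgroup H} :
    Cj (c.s L) K ↔ Cj L (c.t K) := c.symm.t_iff

theorem Corr.t_inj (c : Corr G H) {K K' : Subgroup H} (h : Cj (c.t K) (c.t K')) : Cj K K' := by
  rw [c.t_iff] at h
  exact h.trans (c.hst K')

omit [Fintype G] in
theorem eq_bot_of_cj {K : Subgroup G} (h : Cj K ⊥) : K = ⊥ := h.eq_of_normal'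

end Def

section PGroups

variable {G H : Type} [Group G] [Group H] [Fintype G] [Fintype H] {p : ℕ} [hp : Fact p.Prime]

theorem card_eq_pow (hG : IsPGroup p G) (K : Subgroup G) : ∃ j, Nat.card K = p ^ j :=
  IsPGroup.iff_card.1 (hG.to_subgroup K)

theorem Special.not_cj {L U : Subgroup G} (h : Special p L U) : ¬ Cj L U := by
  intro hc
  have h1 := hc.card_eq
  have h2 := h.card
  have h3 := hp.out.two_le
  have h4 : 0 < Nat.card L := Nat.card_pos
  nlinarith

/-- the index `|N(K) : K|` divides that of the corresponding subgroup -/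
theorem Corr.nidx_dvd (c : Corr G H) (hG : IsPGroup p G) (hH : IsPGroup p H)
    (K : Subgroup H) (hK : K ≠ ⊥) : nidx K ∣ nidx (c.t K) := by
  obtain ⟨L, hL⟩ := exists_special hH K hK
  have h1 := c.ht _ (inB_up hG (c.t K))
  have h2 := hL.low hH h1 (by
    intro V _ hV
    apply ind_of_not
    intro hc
    exact hV (c.t_inj hc)) (by
    rw [ind_of_not _ (fun hc => hL.not_cj (c.t_inj hc))]
    simp)
  rw [ind_self] at h2
  have hp0 : (p : ℤ) ≠ 0 := by exact_mod_cast hp.out.ne_zero
  exact_mod_cast Int.dvd_of_mul_dvd_mul_left hp0 h2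

theorem Corr.nidx_eq (c : Corr G H) (hG : IsPGroup p G) (hH : IsPGroup p H)
    (K : Subgroup H) (hK : K ≠ ⊥) (hK' : c.t K ≠ ⊥) : nidx (c.t K) = nidx K := by
  apply Nat.dvd_antisymm
  · have h1 := c.symm.nidx_dvd hH hG (c.t K) hK'
    have h2 : nidx (c.symm.t (c.t K)) = nidx K := nidx_congr (c.hst K)
    rwa [h2] at h1
  · exact c.nidx_dvd hG hH K hK

/-- The general contradiction argument. -/
theorem Corr.step_aux (c : Corr G H) (hG : IsPGroup p G) (hH : IsPGroup p H)
    (K : Subgroup H) (hK : K ≠ ⊥) {L : Subgroup G} (hL : Special p L (c.t K))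
    (hvan : ∀ V, L < V → ¬ Cj V (c.t K) → mark K (c.s V) = 0)
    (hL' : (Nat.card (normalizer (L : Set G)) : ℤ) ∣ Nat.card L * mark K (c.s L)) : False := by
  have h1 := c.hs _ (inB_mark K)
  have h2 := hL.low hG h1 hvan hL'
  rw [mark_of_cj (c.hst K)] at h2
  have h3 : p * nidx (c.t K) ∣ nidx K := by exact_mod_cast h2
  have h4 := Nat.le_of_dvd (nidx_pos K) h3
  have h5 := Nat.le_of_dvd (nidx_pos (c.t K)) (c.nidx_dvd hG hH K hK)
  have h6 := hp.out.two_le
  have h7 := nidx_pos (c.t K)
  nlinarith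

/-- correspondence of subgroups of order at most `p ^ k` -/
def Corr.PP (c : Corr G H) (p k : ℕ) : Prop :=
  ∀ K : Subgroup H, Nat.card K ≤ p ^ k ↔ Nat.card (c.t K) ≤ p ^ k

omit hp in
theorem Corr.PP.symm {c : Corr G H} {k : ℕ} (h : c.PP p k) : c.symm.PP p k := by
  intro L
  have h1 := h (c.s L)
  rw [(c.hts L).card_eq] at h1
  exact h1.symm

theorem pow_lt_imp {a b : ℕ} (h : p ^ a < p ^ b) : a + 1 ≤ b := by
  by_contra hcon
  push Not at hcon
  have := Nat.pow_le_pow_right hp.out.pos (show b ≤ a by omega)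
  omega

/-- If a subgroup has order `> p ^ k`, then it has order at least `p ^ (k+1)`. -/
theorem card_ge_of_lt (hG : IsPGroup p G) {K : Subgroup G} {k : ℕ} (h : p ^ k < Nat.card K) :
    p ^ (k + 1) ≤ Nat.card K := by
  obtain ⟨j, hj⟩ := card_eq_pow hG K
  rw [hj] at h ⊢
  exact Nat.pow_le_pow_right hp.out.pos (pow_lt_imp h)

theorem Corr.forward_succ (c : Corr G H) (hG : IsPGroup p G) (hH : IsPGroup p H) {k : ℕ}
    (h : c.PP p k) (K : Subgroup H) (hK : Nat.card K ≤ p ^ (k + 1)) :
    Nat.card (c.t K) ≤ p ^ (k + 1) := by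
  by_cases hK' : Nat.card K ≤ p ^ k
  · exact ((h K).1 hK').trans (Nat.pow_le_pow_right hp.out.pos (by omega))
  push Not at hK'
  have hKc : Nat.card K = p ^ (k + 1) := le_antisymm hK (card_ge_of_lt hH hK')
  by_contra hcon
  push Not at hcon
  have hKbot : K ≠ ⊥ := by
    rintro rfl
    rw [Subgroup.card_bot] at hKc
    have := Nat.one_lt_pow (show k + 1 ≠ 0 by omega) hp.out.one_lt
    omega
  have hU : c.t K ≠ ⊥ := by
    intro h0
    rw [h0, Subgroup.card_bot] at hcon
    have := Nat.one_le_pow (k + 1) p hp.out.pos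
    omega
  obtain ⟨L, hL⟩ := exists_special hG (c.t K) hU
  have hLc : p ^ (k + 1) ≤ Nat.card L := by
    have h1 := card_ge_of_lt hG hcon
    rw [hL.card, pow_succ', pow_succ' p k] at h1
    rw [pow_succ']
    exact Nat.le_of_mul_le_mul_left h1 hp.out.pos
  have hzero : ∀ V : Subgroup G, Nat.card L ≤ Nat.card V → ¬ Cj V (c.t K) → mark K (c.s V) = 0 := by
    intro V hV hVc
    apply mark_eq_zero_of_card_le
    · rw [hKc]
      apply card_ge_of_lt hH
      by_contra hc
      push Not at hc
      have := (h (c.s V)).1 hc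
      rw [(c.hts V).card_eq] at this
      have h3 := Nat.pow_lt_pow_right hp.out.one_lt (show k < k + 1 by omega)
      omega
    · intro hc
      exact hVc (c.s_iff.1 hc)
  apply c.step_aux hG hH K hKbot hL
  · intro V hV hVc
    exact hzero V (Nat.le_of_dvd Nat.card_pos (Subgroup.card_dvd_of_le hV.le)) hVc
  · rw [hzero L le_rfl hL.not_cj]
    simp

theorem Corr.PP.succ {c : Corr G H} (hG : IsPGroup p G) (hH : IsPGroup p H) {k : ℕ}
    (h : c.PP p k) : c.PP p (k + 1) := by
  intro K
  constructor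
  · exact c.forward_succ hG hH h K
  · intro hK
    have h1 := c.symm.forward_succ hH hG h.symm (c.t K) hK
    rw [← (c.hst K).card_eq]
    exact h1

theorem Corr.PP.ge {c : Corr G H} (hG : IsPGroup p G) (hH : IsPGroup p H) {k : ℕ}
    (h : c.PP p k) : ∀ j, k ≤ j → c.PP p j := by
  intro j hj
  induction j, hj using Nat.le_induction with
  | base => exact h
  | succ j _ ih => exact ih.succ hG hH

/-- comparison of orders -/
theorem Corr.PP.card_eq {c : Corr G H} (hG : IsPGroup p G) (hH : IsPGroup p H) {k : ℕ}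
    (h : c.PP p k) (K : Subgroup H) (hK : p ^ k ≤ Nat.card K) (hK' : p ^ k ≤ Nat.card (c.t K)) :
    Nat.card (c.t K) = Nat.card K := by
  obtain ⟨a, ha⟩ := card_eq_pow hH K
  obtain ⟨b, hb⟩ := card_eq_pow hG (c.t K)
  have hka : k ≤ a := by
    rw [ha] at hK
    exact (Nat.pow_le_pow_iff_right hp.out.one_lt).1 hK
  have hkb : k ≤ b := by
    rw [hb] at hK'
    exact (Nat.pow_le_pow_iff_right hp.out.one_lt).1 hK'
  have h1 := ((h.ge hG hH a hka) K).1 ha.le
  have h2 := ((h.ge hG hH b hkb) K).2 hb.le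
  rw [ha, hb]
  rw [hb] at h1
  rw [ha] at h2
  exact le_antisymm h1 h2

theorem Corr.le_iff_aux (c : Corr G H) (hG : IsPGroup p G)
    (hcard : Nat.card G = Nat.card H) (U : Subgroup G) (hU1 : Nat.card (c.s U) = Nat.card U)
    (hU2 : nidx (c.s U) = nidx U)
    (hU3 : ∀ K : Subgroup H, Nat.card U ≤ Nat.card K → Nat.card U ≤ Nat.card (c.t K))
    (hH : IsPGroup p H)
    (M : Subgroup H) (hM : M.Normal) (hM' : (c.t M).Normal) : c.t M ≤ U ↔ M ≤ c.s U := by
  have hInB : InB (fun K => mark U (c.t K) - mark (c.s U) K) :=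
    (c.ht _ (inB_mark U)).sub (inB_mark (c.s U))
  have hmem := inB_induction (fun V : Subgroup H => Nat.card V < Nat.card U) (by
    intro V W hV g hW
    have h1 := Nat.le_of_dvd Nat.card_pos (Subgroup.card_dvd_of_le hW)
    rw [card_cj] at h1
    omega) _ hInB (by
    intro K hK
    by_contra hcon
    push Not at hcon
    apply hK
    by_cases hc : Cj K (c.s U)
    · rw [mark_of_cj hc, mark_of_cj (c.t_iff.2 hc), hU2]; ring
    · rw [mark_eq_zero_of_card_le (by omega) hc,
        mark_eq_zero_of_card_le (hU3 K hcon) (fun h => hc (c.t_iff.1 h))]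
      ring)
  obtain ⟨b, hb⟩ := card_eq_pow hG U
  have hdiv : ∀ d : Subgroup H → ℤ, d ∈ AddSubgroup.closure {m : Subgroup H → ℤ |
      ∃ V : Subgroup H, Nat.card V < Nat.card U ∧ m = mark V} →
      (p * Nat.card H : ℤ) ∣ Nat.card U * d M := by
    intro d hd
    induction hd using AddSubgroup.closure_induction with
    | mem d hd =>
      obtain ⟨V, hV, rfl⟩ := hd
      by_cases hMV : M ≤ V
      · have h1 := mark_normal_of_le V M hMV
        obtain ⟨a, ha⟩ := card_eq_pow hH V
        rw [ha, hb] at hV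
        have hab := pow_lt_imp hV
        obtain ⟨r, rfl⟩ : ∃ r, b = a + 1 + r := ⟨b - (a + 1), by omega⟩
        rw [hb]
        rw [ha] at h1
        refine ⟨p ^ r, ?_⟩
        push_cast at h1 ⊢
        rw [← h1]
        ring
      · rw [mark_normal_of_not_le V M hMV]; simp
    | zero => simp
    | add x y _ _ hx hy =>
      simp only [Pi.add_apply, mul_add]
      exact dvd_add hx hy
    | neg x _ hx =>
      simp only [Pi.neg_apply, mul_neg]
      exact hx.neg_right
  have hfin := hdiv _ hmem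
  simp only [mul_sub] at hfin
  have hH0 : (Nat.card H : ℤ) ≠ 0 := by
    have : 0 < Nat.card H := Nat.card_pos
    exact_mod_cast this.ne'
  have hnd : ∀ ε : ℤ, ε = 1 ∨ ε = -1 → ¬ (p * Nat.card H : ℤ) ∣ ε * Nat.card H := by
    intro ε hε hdvd
    have h1 : (p : ℤ) ∣ ε := Int.dvd_of_mul_dvd_mul_right hH0 hdvd
    have h2 := hp.out.two_le
    have h3 : (p : ℤ) ∣ 1 := by
      rcases hε with h | h
      · rwa [h] at h1
      · rw [h] at h1; exact (dvd_neg.1 h1)
    have h4 : p ∣ 1 := by exact_mod_cast h3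
    have := Nat.le_of_dvd one_pos h4
    omega
  constructor
  · intro h
    by_contra hcon
    rw [mark_normal_of_le U (c.t M) h, mark_normal_of_not_le (c.s U) M hcon, hcard] at hfin
    apply hnd 1 (Or.inl rfl)
    simpa using hfin
  · intro h
    by_contra hcon
    rw [mark_normal_of_not_le U (c.t M) hcon, ← hU1, mark_normal_of_le (c.s U) M h] at hfin
    apply hnd (-1) (Or.inr rfl)
    simpa using hfin

end PGroups

end Pool.Agent.Lib.MP_6b5f89_al
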