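import Mathlib
import Pool.Agent.Lib.MP_6b5f89_al.Corr

/-!
Normalising a correspondence between two `p`-groups.
-/

set_option autoImplicit false

namespace Pool.Agent.Lib.MP_6b5f89_al

open Subgroup

section Norm

variable {G H : Type} [Group G] [Group H] [Fintype G] [Fintype H] {p : ℕ} [hp : Fact p.Prime]

/-- the correspondence preserves orders and indices -/
structure Corr.Nice (c : Corr G H) : Prop where
  card : ∀ K, Nat.card (c.t K) = Nat.card K
  nidx : ∀ K, nidx (c.t K) = nidx K
  top : Nat.card G = Nat.card H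

omit [Fintype G] in
omit hp in
theorem nidx_bot : nidx (⊥ : Subgroup G) = Nat.card G := by
  unfold nidx
  rw [Subgroup.normalizer_eq_top, Subgroup.card_top, Subgroup.card_bot, Nat.div_one]

omit hp in
theorem mark_bot_bot : mark (⊥ : Subgroup G) ⊥ = Nat.card G := by
  rw [mark_self, nidx_bot]

theorem Corr.nice_of_bot (c : Corr G H) (hG : IsPGroup p G) (hH : IsPGroup p H)
    (h0 : c.t ⊥ = ⊥) : c.Nice := by
  have h00 : ∀ K : Subgroup H, c.t K = ⊥ ↔ K = ⊥ := by
    intro K
    constructor
    · intro h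
      apply eq_bot_of_cj
      apply c.t_inj
      rw [h, h0]
      exact Cj.refl _
    · rintro rfl
      exact h0
  have hPP : c.PP p 0 := by
    intro K
    rw [pow_zero]
    have hle : ∀ {A : Type} [Group A] [Fintype A] (V : Subgroup A), Nat.card V ≤ 1 ↔ V = ⊥ := by
      intro A _ _ V
      rw [← Subgroup.card_eq_one]
      have : 0 < Nat.card V := Nat.card_pos
      omega
    rw [hle, hle, h00]
  have hcard : ∀ K, Nat.card (c.t K) = Nat.card K := by
    intro K
    apply hPP.card_eq hG hH
    · rw [pow_zero]; exact Nat.card_pos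
    · rw [pow_zero]; exact Nat.card_pos
  have htop : Nat.card G = Nat.card H := by
    apply le_antisymm
    · have h1 := hcard (c.s ⊤)
      rw [(c.hts ⊤).card_eq, Subgroup.card_top] at h1
      rw [h1]
      exact Subgroup.card_le_card_group _
    · have h1 := hcard ⊤
      rw [Subgroup.card_top] at h1
      rw [← h1]
      exact Subgroup.card_le_card_group _
  refine ⟨hcard, ?_, htop⟩
  intro K
  by_cases hK : K = ⊥
  · subst hK
    rw [h0, nidx_bot, nidx_bot, htop]
  · apply c.nidx_eq hG hH K hK
    rw [Ne, h00]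
    exact hK

/-- In the bad case, `|H| = p |N(L₀) : L₀|` where `L₀` corresponds to the trivial subgroup. -/
theorem Corr.bad_card (c : Corr G H) (hG : IsPGroup p G) (_hH : IsPGroup p H)
    (h0 : c.t ⊥ ≠ ⊥) : Nat.card H = p * nidx (c.t ⊥) := by
  apply Nat.dvd_antisymm
  · have h1 := (c.ht _ (inB_up hG (c.t ⊥))).cong ⊥
    rw [bsum_top] at h1
    · rw [ind_self, Subgroup.card_bot, Subgroup.normalizer_eq_top, Subgroup.card_top] at h1
      have h2 : (Nat.card H : ℤ) ∣ p * nidx (c.t ⊥) := by simpa using h1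
      exact_mod_cast h2
    · intro L hL
      apply ind_of_not
      intro hc
      have := (c.t_inj hc).card_eq
      omega
  · obtain ⟨L, hL⟩ := exists_special hG (c.t ⊥) h0
    have hzero : ∀ V : Subgroup G, ¬ Cj V (c.t ⊥) → mark (⊥ : Subgroup H) (c.s V) = 0 := by
      intro V hV
      apply mark_eq_zero_of_card_le
      · rw [Subgroup.card_bot]; exact Nat.card_pos
      · intro hc
        exact hV (c.s_iff.1 hc)
    have h1 := hL.low hG (c.hs _ (inB_mark ⊥)) (fun V _ hV => hzero V hV) (by
      rw [hzero L hL.not_cj]; simp)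
    rw [mark_of_cj (c.hst ⊥), nidx_bot] at h1
    exact_mod_cast h1

theorem Corr.bad_symm (c : Corr G H) (h0 : c.t ⊥ ≠ ⊥) : c.symm.t ⊥ ≠ ⊥ := by
  intro h
  apply h0
  have h1 : Cj (c.t (c.symm.t ⊥)) ⊥ := c.hts ⊥
  rw [h] at h1
  exact eq_bot_of_cj h1

theorem two_le_card (hG : IsPGroup p G) {K : Subgroup G} (hK : K ≠ ⊥) : p ≤ Nat.card K := by
  have h1 : p ^ 0 < Nat.card K := by
    rw [pow_zero]
    have h2 : Nat.card K ≠ 1 := by
      rw [Ne, Subgroup.card_eq_one]; exact hK
    have h3 : 0 < Nat.card K := Nat.card_pos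
    omega
  have := card_ge_of_lt hG h1
  simpa using this

theorem Corr.bad_le (c : Corr G H) (hG : IsPGroup p G) (hH : IsPGroup p H)
    (h0 : c.t ⊥ ≠ ⊥) : Nat.card H ≤ Nat.card G := by
  have h1 := c.bad_card hG hH h0
  have h2 := nidx_mul_card (c.t ⊥)
  have h3 := two_le_card hG h0
  have h4 : Nat.card (normalizer (c.t ⊥ : Set G)) ≤ Nat.card G := Subgroup.card_le_card_group _
  rw [h1]
  rw [← h2] at h4
  calc p * nidx (c.t ⊥) ≤ Nat.card (c.t ⊥) * nidx (c.t ⊥) := Nat.mul_le_mul_right _ h3
    _ = nidx (c.t ⊥) * Nat.card (c.t ⊥) := by ring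
    _ ≤ _ := h4

theorem Corr.bad_top (c : Corr G H) (hG : IsPGroup p G) (hH : IsPGroup p H)
    (h0 : c.t ⊥ ≠ ⊥) : Nat.card G = Nat.card H :=
  le_antisymm (c.symm.bad_le hH hG (c.bad_symm h0)) (c.bad_le hG hH h0)

theorem Corr.bad_props (c : Corr G H) (hG : IsPGroup p G) (hH : IsPGroup p H)
    (h0 : c.t ⊥ ≠ ⊥) : Nat.card (c.t ⊥) = p ∧ (c.t ⊥).Normal := by
  have h1 := c.bad_card hG hH h0
  have h2 := nidx_mul_card (c.t ⊥)
  have h3 := two_le_card hG h0
  have h4 : Nat.card (normalizer (c.t ⊥ : Set G)) ≤ Nat.card G := Subgroup.card_le_card_group _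
  have h5 := c.bad_top hG hH h0
  have h6 := nidx_pos (c.t ⊥)
  have h7 : Nat.card (c.t ⊥) = p := by
    apply le_antisymm _ h3
    rw [h5, h1, ← h2] at h4
    rw [mul_comm] at h4
    exact Nat.le_of_mul_le_mul_right h4 h6
  refine ⟨h7, ?_⟩
  rw [← Subgroup.normalizer_eq_top_iff]
  apply Subgroup.eq_top_of_card_eq
  rw [← h2, h5, h1, h7]
  ring

theorem Corr.bad_forward_one (c : Corr G H) (hG : IsPGroup p G) (hH : IsPGroup p H)
    (h0 : c.t ⊥ ≠ ⊥) (K : Subgroup H) (hK : Nat.card K ≤ p) : Nat.card (c.t K) ≤ p := by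
  obtain ⟨hL0c, hL0n⟩ := c.bad_props hG hH h0
  obtain ⟨hK0c, hK0n⟩ := c.symm.bad_props hH hG (c.bad_symm h0)
  have htop := c.bad_top hG hH h0
  by_cases hKbot : K = ⊥
  · subst hKbot
    exact hL0c.le
  have hKc : Nat.card K = p := le_antisymm hK (two_le_card hH hKbot)
  by_contra hcon
  push Not at hcon
  have hp1 : 1 < p := hp.out.one_lt
  have hU : c.t K ≠ ⊥ := by
    intro h
    rw [h, Subgroup.card_bot] at hcon
    omega
  obtain ⟨L, hL⟩ := exists_special hG (c.t K) hU
  have hLc : p ≤ Nat.card L := by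
    have h1 : p ^ 1 < Nat.card (c.t K) := by rwa [pow_one]
    have h2 := card_ge_of_lt hG h1
    rw [hL.card, pow_succ', pow_one] at h2
    exact Nat.le_of_mul_le_mul_left h2 hp.out.pos
  have hzero : ∀ V : Subgroup G, ¬ Cj V (c.t ⊥) → ¬ Cj V (c.t K) → mark K (c.s V) = 0 := by
    intro V hV1 hV2
    apply mark_eq_zero_of_card_le
    · rw [hKc]
      apply two_le_card hH
      intro h
      apply hV1
      apply c.s_iff.1
      rw [h]
      exact Cj.refl _
    · intro hc
      exact hV2 (c.s_iff.1 hc)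
  apply c.step_aux hG hH K hKbot hL
  · intro V hV hVc
    apply hzero V _ hVc
    intro hc
    have h1 := hc.card_eq
    rw [hL0c] at h1
    have h2 : Nat.card L < Nat.card V := by
      by_contra h3
      push Not at h3
      exact hV.ne (Subgroup.eq_of_le_of_card_ge hV.le h3)
    omega
  · by_cases hLL : Cj L (c.t ⊥)
    · have hLe : L = c.t ⊥ := hLL.eq_of_normal'
      have hsL : Cj (c.s L) ⊥ := c.s_iff.2 hLL
      have h2 := mark_normal_of_le K ⊥ bot_le
      rw [eq_bot_of_cj hsL]
      have h3 : Nat.card L = Nat.card K := by rw [hLe, hL0c, hKc]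
      rw [h3, h2, ← htop]
      exact_mod_cast Subgroup.card_subgroup_dvd_card _
    · rw [hzero L hLL hL.not_cj]
      simp

theorem Corr.bad_PP (c : Corr G H) (hG : IsPGroup p G) (hH : IsPGroup p H)
    (h0 : c.t ⊥ ≠ ⊥) : c.PP p 1 := by
  intro K
  rw [pow_one]
  constructor
  · exact c.bad_forward_one hG hH h0 K
  · intro h
    have h1 := c.symm.bad_forward_one hH hG (c.bad_symm h0) (c.t K) h
    rw [← (c.hst K).card_eq]
    exact h1

theorem Corr.bad_card_eq (c : Corr G H) (hG : IsPGroup p G) (hH : IsPGroup p H)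
    (h0 : c.t ⊥ ≠ ⊥) (K : Subgroup H) (hK : p < Nat.card K) :
    Nat.card (c.t K) = Nat.card K := by
  apply (c.bad_PP hG hH h0).card_eq hG hH
  · rw [pow_one]; exact hK.le
  · rw [pow_one]
    by_contra hcon
    push Not at hcon
    have h1 := (c.bad_PP hG hH h0 K).2 (by rw [pow_one]; exact hcon.le)
    rw [pow_one] at h1
    omega

/-- In the bad case all subgroups of order at least `p ^ 2` contain `L₀`. -/
theorem Corr.bad_contains (c : Corr G H) (hG : IsPGroup p G) (hH : IsPGroup p H)
    (h0 : c.t ⊥ ≠ ⊥) (U : Subgroup G) (hU : p < Nat.card U) : c.t ⊥ ≤ U := by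
  obtain ⟨hL0c, hL0n⟩ := c.bad_props hG hH h0
  have h0' := c.bad_symm h0
  have hp1 : 1 < p := hp.out.one_lt
  have hU1 : Nat.card (c.s U) = Nat.card U := c.symm.bad_card_eq hH hG h0' U hU
  have hUbot : U ≠ ⊥ := by
    rintro rfl
    rw [Subgroup.card_bot] at hU
    omega
  have hsU : c.s U ≠ ⊥ := by
    intro h
    rw [h, Subgroup.card_bot] at hU1
    omega
  have hU2 : nidx (c.s U) = nidx U := c.symm.nidx_eq hH hG U hUbot hsU
  rw [c.le_iff_aux hG (c.bad_top hG hH h0) U hU1 hU2 _ hH ⊥ inferInstance hL0n]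
  · exact bot_le
  · intro K hK
    rw [c.bad_card_eq hG hH h0 K (by omega)]
    exact hK

/-- In the bad case, if there is another subgroup of order `p` then `p = 2`. -/
theorem Corr.bad_two (c : Corr G H) (hG : IsPGroup p G) (hH : IsPGroup p H)
    (h0 : c.t ⊥ ≠ ⊥) (V : Subgroup G) (hV : Nat.card V = p) (hVL : V ≠ c.t ⊥) : p = 2 := by
  obtain ⟨hL0c, hL0n⟩ := c.bad_props hG hH h0
  have h0' := c.bad_symm h0
  obtain ⟨hK0c, hK0n⟩ := c.symm.bad_props hH hG h0'
  have htop := c.bad_top hG hH h0
  have hp1 : 1 < p := hp.out.one_lt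
  have hVbot : V ≠ ⊥ := by
    rintro rfl
    rw [Subgroup.card_bot] at hV
    omega
  have hsV : c.s V ≠ ⊥ := by
    intro h
    apply hVL
    have h1 : Cj (c.s V) ⊥ := by rw [h]; exact Cj.refl _
    exact (c.s_iff.1 h1).eq_of_normal'
  have hsVc : Nat.card (c.s V) = p := by
    apply le_antisymm
    · exact c.symm.bad_forward_one hH hG h0' V hV.le
    · exact two_le_card hH hsV
  have hnid : nidx (c.s V) = nidx V := c.symm.nidx_eq hH hG V hVbot hsV
  have hK0n' : (c.s ⊥).Normal := hK0n
  have hK0c' : Nat.card (c.s ⊥) = p := hK0c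
  -- the function d
  set d : Subgroup H → ℤ := fun K => mark V (c.t K) - mark (c.s V) K - mark (c.s ⊥) K with hd
  have hInB : InB d := ((c.ht _ (inB_mark V)).sub (inB_mark (c.s V))).sub (inB_mark (c.s ⊥))
  have hvan : ∀ K : Subgroup H, Nat.card (⊥ : Subgroup H) < Nat.card K → d K = 0 := by
    intro K hK
    rw [Subgroup.card_bot] at hK
    have hKbot : K ≠ ⊥ := by
      rintro rfl
      rw [Subgroup.card_bot] at hK
      omega
    have hKp := two_le_card hH hKbot
    simp only [hd]
    by_cases hK1 : Cj K (c.s V)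
    · have h2 : ¬ Cj K (c.s ⊥) := by
        intro hc
        apply hVbot
        have h3 := hK1.symm.trans hc
        exact eq_bot_of_cj (c.symm.t_inj h3)
      rw [mark_of_cj hK1, mark_of_cj (c.t_iff.2 hK1), hnid,
        mark_eq_zero_of_card_le (by omega) h2]
      ring
    · rw [mark_eq_zero_of_card_le (L := c.s V) (by omega) hK1]
      by_cases hK2 : Cj K (c.s ⊥)
      · have h3 : c.t K = ⊥ := eq_bot_of_cj (c.t_iff.2 hK2)
        rw [mark_of_cj hK2, h3]
        have h4 := mark_normal_of_le V ⊥ bot_le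
        have h5 := nidx_mul_card (c.s ⊥)
        rw [Subgroup.normalizer_eq_top, Subgroup.card_top, hK0c', ← htop] at h5
        rw [hV] at h4
        have hp0 : (p : ℤ) ≠ 0 := by exact_mod_cast hp.out.ne_zero
        have h6 : mark V ⊥ = nidx (c.s ⊥) := by
          apply mul_left_cancel₀ hp0
          rw [h4, ← h5]
          push_cast
          ring
        rw [h6]; ring
      · rw [mark_eq_zero_of_card_le (L := c.s ⊥) (by omega) hK2]
        have h7 : ¬ Cj (c.t K) V := fun hc => hK1 (c.t_iff.1 hc)
        have h8 : c.t K ≠ ⊥ := by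
          intro h
          apply hK2
          apply c.t_iff.1
          rw [h]; exact Cj.refl _
        have h9 := two_le_card hG h8
        rw [mark_eq_zero_of_card_le (by omega) h7]
        ring
  have hcong := hInB.cong ⊥
  rw [bsum_top d ⊥ hvan, Subgroup.normalizer_eq_top, Subgroup.card_top, Subgroup.card_bot] at hcong
  have hd0 : (p : ℤ) * d ⊥ = -2 * Nat.card H := by
    simp only [hd]
    have h1 := mark_normal_of_le (c.s V) ⊥ bot_le
    have h2 := mark_normal_of_le (c.s ⊥) ⊥ bot_le
    have h3 : mark V (c.t ⊥) = 0 := by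
      apply mark_eq_zero_of_card_le (by omega)
      intro hc
      exact hVL (hc.symm.eq_of_normal')
    rw [hsVc] at h1
    rw [hK0c'] at h2
    rw [h3]
    linear_combination -h1 - h2
  have h1 : (Nat.card H : ℤ) * p ∣ -2 * Nat.card H := by
    rw [← hd0]
    have h2 : (Nat.card H : ℤ) ∣ d ⊥ := by simpa using hcong
    obtain ⟨w, hw⟩ := h2
    exact ⟨w, by rw [hw]; ring⟩
  have hH0 : (Nat.card H : ℤ) ≠ 0 := by
    have : 0 < Nat.card H := Nat.card_pos
    exact_mod_cast this.ne'
  have h2 : (p : ℤ) ∣ -2 := by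
    rw [mul_comm] at h1
    exact Int.dvd_of_mul_dvd_mul_right hH0 h1
  have h3 : (p : ℤ) ∣ 2 := by
    have := (dvd_neg.2 h2)
    simpa using this
  have h4 : p ∣ 2 := by exact_mod_cast h3
  exact (Nat.prime_dvd_prime_iff_eq hp.out Nat.prime_two).1 h4

end Norm

section Swap

variable {G : Type} [Group G] [Fintype G] {p : ℕ} [hp : Fact p.Prime]

open Classical in
/-- exchange the trivial subgroup and `Z` -/
noncomputable def sw (Z X : Subgroup G) : Subgroup G :=
  if X = ⊥ then Z else if X = Z then ⊥ else X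

omit [Fintype G] in
theorem sw_bot (Z : Subgroup G) : sw Z ⊥ = Z := by
  unfold sw; rw [if_pos rfl]

omit [Fintype G] in
theorem sw_self {Z : Subgroup G} (hZ : Z ≠ ⊥) : sw Z Z = ⊥ := by
  unfold sw; rw [if_neg hZ, if_pos rfl]

omit [Fintype G] in
theorem sw_other {Z X : Subgroup G} (h1 : X ≠ ⊥) (h2 : X ≠ Z) : sw Z X = X := by
  unfold sw; rw [if_neg h1, if_neg h2]

omit [Fintype G] in
theorem sw_sw {Z : Subgroup G} (hZ : Z ≠ ⊥) (X : Subgroup G) : sw Z (sw Z X) = X := by
  by_cases h1 : X = ⊥
  · subst h1; rw [sw_bot, sw_self hZ]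
  · by_cases h2 : X = Z
    · subst h2; rw [sw_self hZ, sw_bot]
    · rw [sw_other h1 h2, sw_other h1 h2]

omit [Fintype G] in
theorem sw_cj {Z : Subgroup G} (hZ : Z ≠ ⊥) (hZn : Z.Normal) (g : G) (X : Subgroup G) :
    sw Z (cj g X) = cj g (sw Z X) := by
  by_cases h1 : X = ⊥
  · subst h1; rw [cj_bot, sw_bot, cj_of_normal]
  · by_cases h2 : X = Z
    · subst h2; rw [cj_of_normal, sw_self hZ, cj_bot]
    · rw [sw_other h1 h2, sw_other]
      · intro h
        apply h1
        apply cj_injective g
        rw [h, cj_bot]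
      · intro h
        apply h2
        apply cj_injective g
        rw [h, cj_of_normal]

theorem diff_dvd (hG : IsPGroup p G) (Z : Subgroup G) (hZn : Z.Normal) (hZc : Nat.card Z = p)
    (hcont : ∀ U : Subgroup G, p < Nat.card U → Z ≤ U)
    (htwo : ∀ V : Subgroup G, Nat.card V = p → V ≠ Z → p = 2)
    (f : Subgroup G → ℤ) (hf : InB f) :
    (Nat.card G : ℤ) ∣ p * (f ⊥ - f Z) ∧ (p ≠ 2 → (Nat.card G : ℤ) ∣ f ⊥ - f Z) := by
  have hmem := inB_induction (fun _ => True) (fun _ _ _ _ _ => trivial) f hf (fun _ _ => trivial)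
  clear hf
  induction hmem using AddSubgroup.closure_induction with
  | mem f hf =>
    obtain ⟨V, _, rfl⟩ := hf
    have hV0 : (Nat.card V : ℤ) ≠ 0 := by
      have : 0 < Nat.card V := Nat.card_pos
      exact_mod_cast this.ne'
    by_cases hZV : Z ≤ V
    · have h1 := mark_normal_of_le V ⊥ bot_le
      have h2 := mark_normal_of_le V Z hZV
      have h3 : mark V ⊥ = mark V Z := by
        apply mul_left_cancel₀ hV0
        rw [h1, h2]
      rw [h3]; simp
    · have hle : Nat.card V ≤ p := by
        by_contra hcon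
        push Not at hcon
        exact hZV (hcont V hcon)
      rw [mark_normal_of_not_le V Z hZV]
      have h1 := mark_normal_of_le V ⊥ bot_le
      by_cases hV : V = ⊥
      · subst hV
        rw [Subgroup.card_bot] at h1
        have h2 : mark (⊥ : Subgroup G) ⊥ = Nat.card G := by simpa using h1
        rw [h2]
        simp
      · have hVp : Nat.card V = p := le_antisymm hle (two_le_card hG hV)
        have hne : V ≠ Z := by rintro rfl; exact hZV le_rfl
        have h2 := htwo V hVp hne
        refine ⟨?_, fun h => absurd h2 h⟩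
        rw [hVp] at h1
        rw [sub_zero, h1]
  | zero => simp
  | add x y _ _ hx hy =>
    have e1 : (x + y) ⊥ - (x + y) Z = (x ⊥ - x Z) + (y ⊥ - y Z) := by
      simp only [Pi.add_apply]; ring
    rw [e1]
    constructor
    · rw [mul_add]
      exact dvd_add hx.1 hy.1
    · intro h
      exact dvd_add (hx.2 h) (hy.2 h)
  | neg x _ hx =>
    have e1 : (-x) ⊥ - (-x) Z = -(x ⊥ - x Z) := by
      simp only [Pi.neg_apply]; ring
    rw [e1]
    constructor
    · rw [mul_neg]
      exact dvd_neg.2 hx.1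
    · intro h
      exact dvd_neg.2 (hx.2 h)

theorem inB_sw (hG : IsPGroup p G) (Z : Subgroup G) (hZn : Z.Normal) (hZc : Nat.card Z = p)
    (hcont : ∀ U : Subgroup G, p < Nat.card U → Z ≤ U)
    (htwo : ∀ V : Subgroup G, Nat.card V = p → V ≠ Z → p = 2)
    (f : Subgroup G → ℤ) (hf : InB f) : InB (fun X => f (sw Z X)) := by
  classical
  have hp1 : 1 < p := hp.out.one_lt
  have hZbot : Z ≠ ⊥ := by
    rintro rfl
    rw [Subgroup.card_bot] at hZc
    omega
  have hsubZ : ∀ K : Subgroup G, K ≤ Z → K = ⊥ ∨ K = Z := by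
    intro K hK
    have h1 := Subgroup.card_dvd_of_le hK
    rw [hZc] at h1
    rcases (Nat.dvd_prime hp.out).1 h1 with h | h
    · left; exact Subgroup.card_eq_one.1 h
    · right; exact Subgroup.eq_of_le_of_card_ge hK (by rw [h, hZc])
  obtain ⟨hD1, hD2⟩ := diff_dvd hG Z hZn hZc hcont htwo f hf
  refine ⟨fun g K => ?_, fun K => ?_⟩
  · rw [sw_cj hZbot hZn, hf.conj]
  · have hsum : bsum (fun X => f (sw Z X)) K = bsum f K +
        ∑ g ∈ Finset.univ.filter (fun g : G => g ∈ normalizer (K : Set G)),
          (f (sw Z (zpowers g ⊔ K)) - f (zpowers g ⊔ K)) := by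
      unfold bsum
      rw [← Finset.sum_add_distrib]
      apply Finset.sum_congr rfl
      intro g _
      ring
    rw [hsum]
    apply dvd_add (hf.cong K)
    by_cases hK : K = ⊥
    · subst hK
      have h1 : ∀ g ∈ Finset.univ.filter (fun g : G => g ∈ normalizer ((⊥ : Subgroup G) : Set G)),
          (f (sw Z (zpowers g ⊔ ⊥)) - f (zpowers g ⊔ ⊥)) =
          (if g ∈ Z then (f ⊥ - f Z) else 0) - (if g = 1 then 2 * (f ⊥ - f Z) else 0) := by
        intro g _
        rw [sup_bot_eq]
        by_cases hg1 : g = 1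
        · subst hg1
          rw [if_pos (one_mem Z), if_pos rfl, zpowers_one_eq_bot, sw_bot]
          ring
        · have hne : zpowers g ≠ ⊥ := by
            rw [Ne, zpowers_eq_bot]; exact hg1
          rw [if_neg hg1]
          by_cases hgZ : g ∈ Z
          · rw [if_pos hgZ]
            have h2 : zpowers g = Z := by
              rcases hsubZ (zpowers g) (by rw [zpowers_le]; exact hgZ) with h | h
              · exact absurd h hne
              · exact h
            rw [h2, sw_self hZbot]
            ring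
          · rw [if_neg hgZ, sw_other hne]
            · ring
            · intro h
              apply hgZ
              rw [← h]
              exact mem_zpowers g
      rw [Finset.sum_congr rfl h1, Finset.sum_sub_distrib]
      have h3 : Finset.univ.filter (fun g : G => g ∈ normalizer ((⊥ : Subgroup G) : Set G)) =
          Finset.univ := by
        rw [Subgroup.normalizer_eq_top]
        ext g; simp
      rw [h3, ← Finset.sum_filter, Finset.sum_const, nsmul_eq_mul, Finset.sum_ite_eq',
        if_pos (Finset.mem_univ _)]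
      have h4 : ((Finset.univ.filter (fun g : G => g ∈ Z)).card : ℤ) = p := by
        rw [← hZc, Nat.card_eq_fintype_card, Fintype.card_subtype]
      rw [h4, Subgroup.normalizer_eq_top, Subgroup.card_top]
      by_cases h5 : p = 2
      · have h6 : (p : ℤ) = 2 := by exact_mod_cast h5
        rw [h6]; simp
      · obtain ⟨w, hw⟩ := hD2 h5
        rw [hw]
        exact ⟨p * w - 2 * w, by ring⟩
    · by_cases hKZ : K = Z
      · subst hKZ
        have h1 : ∀ g ∈ Finset.univ.filter (fun g : G => g ∈ normalizer (K : Set G)),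
            (f (sw K (zpowers g ⊔ K)) - f (zpowers g ⊔ K)) =
            (if g ∈ K then (f ⊥ - f K) else 0) := by
          intro g _
          by_cases hg : g ∈ K
          · rw [if_pos hg, zpowers_sup_of_mem hg, sw_self hZbot]
          · rw [if_neg hg, sw_other]
            · ring
            · intro h
              rw [sup_eq_bot_iff] at h
              exact hK h.2
            · intro h
              apply hg
              rw [← h]
              exact le_sup_left (b := K) (mem_zpowers g)
        rw [Finset.sum_congr rfl h1]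
        have h3 : Finset.univ.filter (fun g : G => g ∈ normalizer (K : Set G)) =
            Finset.univ := by
          rw [Subgroup.normalizer_eq_top]
          ext g; simp
        rw [h3, ← Finset.sum_filter, Finset.sum_const, nsmul_eq_mul]
        have h4 : ((Finset.univ.filter (fun g : G => g ∈ K)).card : ℤ) = p := by
          rw [← hZc, Nat.card_eq_fintype_card, Fintype.card_subtype]
        rw [h4, Subgroup.normalizer_eq_top, Subgroup.card_top]
        exact hD1
      · rw [Finset.sum_eq_zero]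
        · exact dvd_zero _
        · intro g _
          rw [sw_other]
          · ring
          · intro h
            rw [sup_eq_bot_iff] at h
            exact hK h.2
          · intro h
            have h2 : K ≤ Z := by rw [← h]; exact le_sup_right
            rcases hsubZ K h2 with h3 | h3
            · exact hK h3
            · exact hKZ h3

end Swap

section Final

variable {G H : Type} [Group G] [Group H] [Fintype G] [Fintype H] {p : ℕ} [hp : Fact p.Prime]

/-- Every correspondence of `p`-groups can be normalised. -/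
theorem Corr.exists_nice (c : Corr G H) (hG : IsPGroup p G) (hH : IsPGroup p H) :
    ∃ c' : Corr G H, c'.Nice := by
  by_cases h0 : c.t ⊥ = ⊥
  · exact ⟨c, c.nice_of_bot hG hH h0⟩
  obtain ⟨hL0c, hL0n⟩ := c.bad_props hG hH h0
  have hsw := inB_sw hG (c.t ⊥) hL0n hL0c (c.bad_contains hG hH h0) (c.bad_two hG hH h0)
  refine ⟨⟨fun K => sw (c.t ⊥) (c.t K), fun L => c.s (sw (c.t ⊥) L), ?_, ?_, ?_, ?_⟩, ?_⟩
  · intro f hf
    exact c.ht _ (hsw f hf)
  · intro f hf
    exact hsw _ (c.hs f hf)
  · intro L
    obtain ⟨g, hg⟩ := c.hts (sw (c.t ⊥) L)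
    refine ⟨g, ?_⟩
    rw [← sw_cj h0 hL0n, hg, sw_sw h0]
  · intro K
    rw [sw_sw h0]
    exact c.hst K
  · apply Corr.nice_of_bot _ hG hH
    exact sw_self h0

omit hp in
theorem Corr.Nice.symm {c : Corr G H} (h : c.Nice) : c.symm.Nice := by
  refine ⟨fun L => ?_, fun L => ?_, h.top.symm⟩
  · have h1 := h.card (c.s L)
    rw [(c.hts L).card_eq] at h1
    exact h1.symm
  · have h1 := h.nidx (c.s L)
    rw [nidx_congr (c.hts L)] at h1
    exact h1.symm

omit hp in
/-- normal subgroups correspond to normal subgroups -/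
theorem Corr.Nice.normal {c : Corr G H} (h : c.Nice) (K : Subgroup H) (hK : K.Normal) :
    (c.t K).Normal := by
  rw [← Subgroup.normalizer_eq_top_iff]
  apply Subgroup.eq_top_of_card_eq
  rw [← nidx_mul_card, h.nidx, h.card, nidx_mul_card, Subgroup.normalizer_eq_top,
    Subgroup.card_top, h.top]

theorem Corr.Nice.le_iff {c : Corr G H} (h : c.Nice) (hG : IsPGroup p G) (hH : IsPGroup p H)
    (M : Subgroup H) (hM : M.Normal) (U : Subgroup G) : c.t M ≤ U ↔ M ≤ c.s U := by
  apply c.le_iff_aux hG h.top U (h.symm.card U) (h.symm.nidx U) _ hH M hM (h.normal M hM)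
  intro K hK
  rw [h.card]
  exact hK

end Final

end Pool.Agent.Lib.MP_6b5f89_al
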