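import Mathlib
import Pool.Agent.Lib.MP_6b5f89_al.Norm
import Pool.Agent.Lib.MP_6b5f89_al.Chain

/-!
The main induction.
-/

set_option autoImplicit false

namespace Pool.Agent.Lib.MP_6b5f89_al

open Subgroup
open scoped commutatorElement

section Pre

variable {G : Type} [Group G] [Fintype G] {p : ℕ} [hp : Fact p.Prime]

omit [Fintype G] in
theorem le_of_cj {M K K' : Subgroup G} (hM : M.Normal) (h : M ≤ K) (hc : Cj K K') : M ≤ K' := by
  obtain ⟨g, rfl⟩ := hc
  rw [le_cj_iff, cj_of_normal]
  exact h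

theorem mark_of_normal (L K : Subgroup G) (hL : L.Normal) :
    (K ≤ L → (Nat.card L : ℤ) * mark L K = Nat.card G) ∧ (¬ K ≤ L → mark L K = 0) := by
  constructor
  · intro h
    rw [card_mul_mark]
    congr 1
    apply Nat.card_congr
    refine Equiv.subtypeUnivEquiv ?_
    intro g
    rw [cj_of_normal]
    exact h
  · intro h
    by_contra hne
    obtain ⟨g, hg⟩ := mark_ne_zero_iff.1 hne
    rw [cj_of_normal] at hg
    exact h hg

theorem relIndex_dvd_nidx (V P : Subgroup G) (h : P ≤ normalizer (V : Set G)) :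
    V.relIndex P ∣ nidx V := by
  have h1 : (V.subgroupOf (normalizer (V : Set G))).Normal := Subgroup.normal_in_normalizer
  have h2 : V.relIndex P = (V.subgroupOf (normalizer (V : Set G))).relIndex
      (P.subgroupOf (normalizer (V : Set G))) := (Subgroup.relIndex_subgroupOf h).symm
  have h3 : V.relIndex (normalizer (V : Set G)) = nidx V := by
    have h4 := Subgroup.relIndex_mul_relIndex (⊥ : Subgroup G) V (normalizer (V : Set G)) bot_le
      Subgroup.le_normalizer
    rw [Subgroup.relIndex_bot_left, Subgroup.relIndex_bot_left, ← nidx_mul_card V, mul_comm] at h4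
    exact Nat.eq_of_mul_eq_mul_right Nat.card_pos h4
  rw [h2, ← h3]
  exact Subgroup.relIndex_dvd_index_of_normal _ _

theorem card_comap_mk (M : Subgroup G) [M.Normal] (K : Subgroup (G ⧸ M)) :
    Nat.card (K.comap (QuotientGroup.mk' M)) = Nat.card M * Nat.card K := by
  have h1 := Subgroup.index_comap_of_surjective K (QuotientGroup.mk'_surjective M)
  have h2 := Subgroup.card_mul_index (K.comap (QuotientGroup.mk' M))
  have h3 := Subgroup.card_mul_index K
  have h4 := Subgroup.card_eq_card_quotient_mul_card_subgroup M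
  rw [h1] at h2
  have h5 : 0 < K.index := Nat.pos_of_ne_zero Subgroup.FiniteIndex.index_ne_zero
  apply Nat.eq_of_mul_eq_mul_right h5
  rw [h2, h4, ← h3]
  ring

theorem nidx_comap_mk (M : Subgroup G) [M.Normal] (K : Subgroup (G ⧸ M)) :
    nidx (K.comap (QuotientGroup.mk' M)) = nidx K := by
  have h1 := nidx_mul_card (K.comap (QuotientGroup.mk' M))
  have h2 : normalizer ((K.comap (QuotientGroup.mk' M) : Subgroup G) : Set G) =
      (normalizer (K : Set (G ⧸ M))).comap (QuotientGroup.mk' M) :=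
    (Subgroup.comap_normalizer_eq_of_surjective K (QuotientGroup.mk'_surjective M)).symm
  rw [h2, card_comap_mk, card_comap_mk, ← nidx_mul_card K] at h1
  have h3 : 0 < Nat.card M * Nat.card K := Nat.mul_pos Nat.card_pos Nat.card_pos
  apply Nat.eq_of_mul_eq_mul_right h3
  rw [h1]
  ring

end Pre

section Star

variable {G H : Type} [Group G] [Group H] [Fintype G] [Fintype H] {p : ℕ} [hp : Fact p.Prime]

theorem Corr.Nice.s_le_iff {c : Corr G H} (h : c.Nice) (hG : IsPGroup p G) (hH : IsPGroup p H)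
    (N : Subgroup G) (hN : N.Normal) (U : Subgroup H) : c.s N ≤ U ↔ N ≤ c.t U :=
  h.symm.le_iff hH hG N hN U

omit hp in
theorem Corr.Nice.s_normal {c : Corr G H} (h : c.Nice) (N : Subgroup G) (hN : N.Normal) :
    (c.s N).Normal := h.symm.normal N hN

omit hp in
theorem Corr.Nice.s_card {c : Corr G H} (h : c.Nice) (N : Subgroup G) :
    Nat.card (c.s N) = Nat.card N := h.symm.card N

theorem Corr.ts_eq (c : Corr G H) (N : Subgroup G) (hN : N.Normal) : c.t (c.s N) = N :=
  (c.hts N).eq_of_normal'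

theorem Corr.st_eq (c : Corr G H) (M : Subgroup H) (hM : M.Normal) : c.s (c.t M) = M :=
  (c.hst M).eq_of_normal'

theorem Corr.star_aux (c : Corr G H) (hc : c.Nice) (hG : IsPGroup p G) (hH : IsPGroup p H)
    (P N' : Subgroup G) (hN' : N'.Normal) (hN'P : N' ≤ P)
    (hPN' : ⁅P, (⊤ : Subgroup G)⁆ ≤ N')
    (hchain : ∀ A B : Subgroup G, N' ≤ A → A ≤ P → N' ≤ B → B ≤ P → A ≤ B ∨ B ≤ A)
    (P1 : Subgroup G) (hP1 : P1.Normal) (h1 : N' ≤ P1) (h2 : P1 ≤ P) (S : Subgroup H)
    (hS : c.s N' ≤ S) (hS1 : ¬ c.s P1 ≤ S) : p * Nat.card P ∣ Nat.card P1 * nidx S := by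
  have hInB : InB (fun V => mark S (c.s V)) := c.hs _ (inB_mark S)
  have hmem := inB_induction (fun V : Subgroup G => ¬ P1 ≤ V) (by
    intro V W hV g hW hPW
    apply hV
    have h3 := hPW.trans hW
    rw [le_cj_iff, cj_of_normal] at h3
    exact h3) _ hInB (by
    intro V hV hPV
    obtain ⟨g, hg⟩ := mark_ne_zero_iff.1 hV
    apply hS1
    have h3 : c.s P1 ≤ c.s V := by
      rw [hc.s_le_iff hG hH P1 hP1]
      exact le_of_cj hP1 hPV (c.hts V).symm
    have h4 := h3.trans hg
    have h5 : (c.s P1).Normal := hc.symm.normal P1 hP1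
    rw [le_cj_iff, cj_of_normal] at h4
    exact h4)
  have hNU : N' ≤ c.t S := (hc.symm.le_iff hH hG N' hN' S).1 hS
  have hdiv : ∀ d : Subgroup G → ℤ, d ∈ AddSubgroup.closure {m : Subgroup G → ℤ |
      ∃ V : Subgroup G, ¬ P1 ≤ V ∧ m = mark V} →
      (p * Nat.card P : ℤ) ∣ Nat.card P1 * d (c.t S) := by
    intro d hd
    induction hd using AddSubgroup.closure_induction with
    | mem d hd =>
      obtain ⟨V, hV, rfl⟩ := hd
      by_cases h0 : mark V (c.t S) = 0
      · rw [h0]; simp
      obtain ⟨g, hg⟩ := mark_ne_zero_iff.1 h0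
      have hNV : N' ≤ V := by
        have h3 := hNU.trans hg
        rw [le_cj_iff, cj_of_normal] at h3
        exact h3
      have hD : V ⊓ P ≤ P1 := by
        rcases hchain (V ⊓ P) P1 (le_inf hNV hN'P) inf_le_right h1 h2 with h | h
        · exact h
        · exact absurd (h.trans inf_le_left) hV
      have hDc : Nat.card (V ⊓ P : Subgroup G) < Nat.card P1 := by
        by_contra hcon
        push Not at hcon
        have h3 := Subgroup.eq_of_le_of_card_ge hD hcon
        apply hV
        rw [← h3]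
        exact inf_le_left
      have hDd : p * Nat.card (V ⊓ P : Subgroup G) ∣ Nat.card P1 := by
        obtain ⟨a, ha⟩ := card_eq_pow hG (V ⊓ P)
        obtain ⟨b, hb⟩ := card_eq_pow hG P1
        rw [ha, hb] at hDc
        rw [ha, hb, ← pow_succ']
        exact pow_dvd_pow _ (pow_lt_imp hDc)
      have hPN : P ≤ normalizer (V : Set G) := by
        intro g hg
        rw [mem_normalizer_iff_cj]
        apply Subgroup.eq_of_le_of_card_ge
        · intro x hx
          rw [mem_cj] at hx
          have h3 : x = ⁅g, g⁻¹ * x * g⁆ * (g⁻¹ * x * g) := by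
            rw [commutatorElement_def]; group
          rw [h3]
          apply V.mul_mem _ hx
          apply hNV
          apply hPN'
          exact Subgroup.commutator_mem_commutator hg (Subgroup.mem_top _)
        · rw [card_cj]
      have h3 := card_inf_mul_relIndex P V
      have h4 := relIndex_dvd_nidx V P hPN
      have h5 : p * Nat.card P ∣ Nat.card P1 * nidx V := by
        rw [← h3, ← mul_assoc]
        apply Nat.mul_dvd_mul _ h4
        rw [inf_comm P V]
        exact hDd
      have h6 : ((p * Nat.card P : ℕ) : ℤ) ∣ ((Nat.card P1 * nidx V : ℕ) : ℤ) := by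
        exact_mod_cast h5
      push_cast at h6
      exact h6.trans (mul_dvd_mul_left _ (nidx_dvd_mark V (c.t S)))
    | zero => simp
    | add x y _ _ hx hy =>
      simp only [Pi.add_apply, mul_add]
      exact dvd_add hx hy
    | neg x _ hx =>
      simp only [Pi.neg_apply, mul_neg]
      exact hx.neg_right
  have hfin := hdiv _ hmem
  rw [mark_of_cj (c.hst S)] at hfin
  exact_mod_cast hfin

/-- the quotient is cyclic -/
theorem Corr.cyclic_aux (c : Corr G H) (hc : c.Nice) (hG : IsPGroup p G) (hH : IsPGroup p H)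
    (P N' : Subgroup G) (hP : P.Normal) (hN' : N'.Normal) (hN'P : N' ≤ P)
    (hPN' : ⁅P, (⊤ : Subgroup G)⁆ ≤ N')
    (hchain : ∀ A B : Subgroup G, N' ≤ A → A ≤ P → N' ≤ B → B ≤ P → A ≤ B ∨ B ≤ A) :
    ∃ z ∈ c.s P, zpowers z ⊔ c.s N' = c.s P := by
  classical
  have hsN' : (c.s N').Normal := hc.s_normal N' hN'
  have hsP : (c.s P).Normal := hc.s_normal P hP
  have hnorm : ∀ A : Subgroup G, N' ≤ A → A ≤ P → A.Normal := by
    intro A hA hAP
    refine ⟨fun a ha g => ?_⟩
    have h1 : g * a * g⁻¹ = ⁅g, a⁆ * a := by rw [commutatorElement_def]; group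
    rw [h1]
    apply A.mul_mem _ ha
    apply hA
    apply hPN'
    rw [Subgroup.commutator_comm]
    exact Subgroup.commutator_mem_commutator (Subgroup.mem_top _) (hAP ha)
  have hcong := (c.ht _ (inB_mark P)).cong (c.s N')
  rw [Subgroup.normalizer_eq_top, Subgroup.card_top] at hcong
  set Sset : Finset H := Finset.univ.filter (fun h : H => c.t (zpowers h ⊔ c.s N') ≤ P) with hSset
  have hsum : (Nat.card P : ℤ) * bsum (fun K => mark P (c.t K)) (c.s N') =
      Nat.card G * Sset.card := by
    unfold bsum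
    rw [Finset.mul_sum]
    have h1 : ∀ h ∈ Finset.univ.filter (fun h : H => h ∈ normalizer (c.s N' : Set H)),
        (Nat.card P : ℤ) * mark P (c.t (zpowers h ⊔ c.s N')) =
        if c.t (zpowers h ⊔ c.s N') ≤ P then (Nat.card G : ℤ) else 0 := by
      intro h _
      split_ifs with hle
      · exact (mark_of_normal P _ hP).1 hle
      · rw [(mark_of_normal P _ hP).2 hle, mul_zero]
    rw [Finset.sum_congr rfl h1, ← Finset.sum_filter, Finset.sum_const, nsmul_eq_mul, mul_comm]
    congr 2
    rw [hSset, Finset.filter_filter]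
    congr 1
    ext h
    simp only [Finset.mem_filter, Finset.mem_univ, true_and, and_iff_right_iff_imp]
    intro _
    rw [Subgroup.normalizer_eq_top]
    exact Subgroup.mem_top _
  have hdvd : Nat.card P ∣ Sset.card := by
    have h1 : (Nat.card P : ℤ) * Nat.card H ∣ Nat.card G * Sset.card := by
      rw [← hsum]
      exact mul_dvd_mul_left _ hcong
    rw [← hc.top, mul_comm] at h1
    have hG0 : (Nat.card G : ℤ) ≠ 0 := by
      have : 0 < Nat.card G := Nat.card_pos
      exact_mod_cast this.ne'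
    exact_mod_cast Int.dvd_of_mul_dvd_mul_left hG0 h1
  -- description of the elements of `Sset`
  have hdesc : ∀ h ∈ Sset, ∃ A : Subgroup G, N' ≤ A ∧ A ≤ P ∧ zpowers h ⊔ c.s N' = c.s A := by
    intro h hh
    rw [hSset, Finset.mem_filter] at hh
    have hA : N' ≤ c.t (zpowers h ⊔ c.s N') := by
      rw [← hc.s_le_iff hG hH N' hN']
      exact le_sup_right
    refine ⟨c.t (zpowers h ⊔ c.s N'), hA, hh.2, ?_⟩
    have hAn := hnorm _ hA hh.2
    have hsA := hc.s_normal _ hAn
    exact ((c.hst (zpowers h ⊔ c.s N')).eq_of_normal).symm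
  have hmono : ∀ A B : Subgroup G, A.Normal → B.Normal → A ≤ B → c.s A ≤ c.s B := by
    intro A B hA hB hAB
    rw [hc.s_le_iff hG hH A hA, c.ts_eq B hB]
    exact hAB
  have hsub : Sset ⊆ Finset.univ.filter (fun h : H => h ∈ c.s P) := by
    intro h hh
    obtain ⟨A, hA1, hA2, hA3⟩ := hdesc h hh
    rw [Finset.mem_filter]
    refine ⟨Finset.mem_univ _, ?_⟩
    apply hmono A P (hnorm A hA1 hA2) hP hA2
    rw [← hA3]
    exact le_sup_left (b := c.s N') (mem_zpowers h)
  have hone : (1 : H) ∈ Sset := by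
    rw [hSset, Finset.mem_filter]
    refine ⟨Finset.mem_univ _, ?_⟩
    rw [zpowers_one_eq_bot, bot_sup_eq, c.ts_eq N' hN']
    exact hN'P
  have hcardP : (Finset.univ.filter (fun h : H => h ∈ c.s P)).card = Nat.card P := by
    rw [← hc.s_card P, Nat.card_eq_fintype_card, Fintype.card_subtype]
  have hSeq : Sset = Finset.univ.filter (fun h : H => h ∈ c.s P) := by
    apply Finset.eq_of_subset_of_card_le hsub
    rw [hcardP]
    exact Nat.le_of_dvd (Finset.card_pos.2 ⟨1, hone⟩) hdvd
  have hall : ∀ h ∈ c.s P, ∃ A : Subgroup G, N' ≤ A ∧ A ≤ P ∧ zpowers h ⊔ c.s N' = c.s A := by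
    intro h hh
    apply hdesc
    rw [hSeq, Finset.mem_filter]
    exact ⟨Finset.mem_univ _, hh⟩
  obtain ⟨z, hz, hmax⟩ := Finset.exists_max_image (Finset.univ.filter (fun h : H => h ∈ c.s P))
    (fun h : H => Nat.card (zpowers h ⊔ c.s N' : Subgroup H))
    ⟨1, by rw [Finset.mem_filter]; exact ⟨Finset.mem_univ _, one_mem _⟩⟩
  rw [Finset.mem_filter] at hz
  refine ⟨z, hz.2, ?_⟩
  apply le_antisymm
  · apply sup_le
    · rw [zpowers_le]; exact hz.2
    · exact hmono N' P hN' hP hN'P
  · intro h hh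
    obtain ⟨A, hA1, hA2, hA3⟩ := hall h hh
    obtain ⟨B, hB1, hB2, hB3⟩ := hall z hz.2
    have h1 : h ∈ zpowers h ⊔ c.s N' := le_sup_left (b := c.s N') (mem_zpowers h)
    rcases hchain A B hA1 hA2 hB1 hB2 with hAB | hBA
    · rw [hB3]
      rw [hA3] at h1
      exact hmono A B (hnorm A hA1 hA2) (hnorm B hB1 hB2) hAB h1
    · have h2 : zpowers z ⊔ c.s N' ≤ zpowers h ⊔ c.s N' := by
        rw [hA3, hB3]
        exact hmono B A (hnorm B hB1 hB2) (hnorm A hA1 hA2) hBA
      have h3 := hmax h (by rw [Finset.mem_filter]; exact ⟨Finset.mem_univ _, hh⟩)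
      have h4 := Subgroup.eq_of_le_of_card_ge h2 h3
      rw [h4]
      exact h1

/-- the bound in the induction step -/
def KK (n : ℕ) : ℕ := 9 * n ^ 2 + 3 * n + 2

theorem Corr.main_step (c : Corr G H) (hc : c.Nice) (hG : IsPGroup p G) (hH : IsPGroup p H)
    (n : ℕ) (hn1 : 1 ≤ n) (P N : Subgroup G) (hP : P.Normal) (hN : N.Normal) (hNP : N ≤ P)
    (hPN : ⁅P, (⊤ : Subgroup G)⁆ ≤ N)
    (hl : (⊤ : Subgroup H).lowerCentralSeries n ≤ c.s P) : itc (c.s P) (KK n) ≤ c.s N := by
  classical
  by_contra hcon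
  have hsP : (c.s P).Normal := hc.s_normal P hP
  have hsN : (c.s N).Normal := hc.s_normal N hN
  set V : Subgroup H := itc (c.s P) (KK n) ⊔ c.s N with hV
  have hVn : V.Normal := Subgroup.sup_normal _ _
  have htV : (c.t V).Normal := hc.normal V hVn
  have hWP : c.t V ≤ P := by
    rw [hc.le_iff hG hH V hVn, hV, sup_le_iff]
    refine ⟨itc_le _ _, ?_⟩
    rw [hc.s_le_iff hG hH N hN, c.ts_eq P hP]
    exact hNP
  have hWN : ¬ c.t V ≤ N := by
    intro h
    rw [hc.le_iff hG hH V hVn] at h
    exact hcon (le_sup_left.trans h)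
  rw [SetLike.not_le_iff_exists] at hWN
  obtain ⟨x, hxW, hxN⟩ := hWN
  have hPP : ⁅P, P⁆ ≤ N := (Subgroup.commutator_mono le_rfl le_top).trans hPN
  obtain ⟨N', hNN', hN'P, hxN', hchain⟩ := exists_chain hG N P hPP hNP x (hWP hxW) hxN
  have hPN' : ⁅P, (⊤ : Subgroup G)⁆ ≤ N' := hPN.trans hNN'
  have hN' : N'.Normal := by
    refine ⟨fun a ha g => ?_⟩
    have h1 : g * a * g⁻¹ = ⁅g, a⁆ * a := by rw [commutatorElement_def]; group
    rw [h1]
    apply N'.mul_mem _ ha
    apply hPN'
    rw [Subgroup.commutator_comm]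
    exact Subgroup.commutator_mem_commutator (Subgroup.mem_top _) (hN'P ha)
  have hM' : (c.s N').Normal := hc.s_normal N' hN'
  have hMM' : c.s N ≤ c.s N' := by
    rw [hc.s_le_iff hG hH N hN, c.ts_eq N' hN']
    exact hNN'
  have hVM' : ¬ V ≤ c.s N' := by
    intro h
    rw [← hc.le_iff hG hH V hVn] at h
    exact hxN' (h hxW)
  obtain ⟨z, hzP, hz⟩ := c.cyclic_aux hc hG hH P N' hP hN' hN'P hPN' hchain
  -- the quotient
  set π : H →* H ⧸ c.s N' := QuotientGroup.mk' (c.s N') with hπ
  have hsurj : Function.Surjective π := QuotientGroup.mk'_surjective _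
  have hpQ : IsPGroup p (H ⧸ c.s N') := hH.to_quotient _
  have hmap : (c.s P).map π = zpowers (π z) := by
    rw [← hz, Subgroup.map_sup, MonoidHom.map_zpowers]
    have h1 : (c.s N').map π = ⊥ := by
      rw [Subgroup.map_eq_bot_iff, hπ, QuotientGroup.ker_mk']
    rw [h1, sup_bot_eq]
  have hzn : (zpowers (π z)).Normal := by
    rw [← hmap]
    exact hsP.map π hsurj
  have hlcs : (⊤ : Subgroup (H ⧸ c.s N')).lowerCentralSeries n ≤ zpowers (π z) := by
    rw [← hmap, ← Subgroup.map_top_of_surjective π hsurj, ← Subgroup.map_lowerCentralSeries]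
    exact Subgroup.map_mono hl
  have hstar : ∀ (S : Subgroup (H ⧸ c.s N')) (t : ℕ), (π z) ^ (p ^ t) ∉ S →
      p ^ (t + 1) ∣ nidx S := by
    intro S t hS
    rw [← nidx_comap_mk (c.s N') S]
    set Q1 : Subgroup H := (zpowers ((π z) ^ (p ^ t))).comap π with hQ1
    have hpown : (zpowers ((π z) ^ (p ^ t))).Normal := by
      refine ⟨fun a ha g => ?_⟩
      obtain ⟨i, rfl⟩ := Subgroup.mem_zpowers_iff.1 ha
      obtain ⟨b, hb⟩ := exists_conj_zpow hzn g
      rw [Subgroup.mem_zpowers_iff]
      refine ⟨b * i, ?_⟩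
      rw [← conj_zpow, ← conj_pow, hb, ← zpow_natCast, ← zpow_natCast, ← zpow_mul, ← zpow_mul,
        ← zpow_mul]
      congr 1
      ring
    have hQ1n : Q1.Normal := hpown.comap π
    have hM'Q1 : c.s N' ≤ Q1 := by
      intro y hy
      rw [hQ1, Subgroup.mem_comap]
      have : π y = 1 := by
        rw [hπ, QuotientGroup.mk'_apply, QuotientGroup.eq_one_iff]; exact hy
      rw [this]
      exact one_mem _
    have hQ1P : Q1 ≤ c.s P := by
      have h1 : (zpowers ((π z) ^ (p ^ t))) ≤ (c.s P).map π := by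
        rw [hmap, zpowers_le]
        exact pow_mem (mem_zpowers _) _
      have h2 : Q1 ≤ ((c.s P).map π).comap π := Subgroup.comap_mono h1
      rw [Subgroup.comap_map_eq, hπ, QuotientGroup.ker_mk'] at h2
      refine h2.trans (sup_le le_rfl ?_)
      rw [hc.s_le_iff hG hH N' hN', c.ts_eq P hP]
      exact hN'P
    have hst1 := c.star_aux hc hG hH P N' hN' hN'P hPN' hchain (c.t Q1) (hc.normal Q1 hQ1n)
      (by
        rw [← hc.s_le_iff hG hH N' hN']
        exact hM'Q1)
      ((hc.le_iff hG hH Q1 hQ1n P).2 hQ1P) (S.comap π) (by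
        intro y hy
        rw [Subgroup.mem_comap]
        have : π y = 1 := by
          rw [hπ, QuotientGroup.mk'_apply, QuotientGroup.eq_one_iff]; exact hy
        rw [this]
        exact one_mem _) (by
        rw [c.st_eq Q1 hQ1n]
        intro h
        apply hS
        have h1 : z ^ (p ^ t) ∈ Q1 := by
          rw [hQ1, Subgroup.mem_comap, map_pow]
          exact mem_zpowers _
        have h2 := h h1
        rw [Subgroup.mem_comap, map_pow] at h2
        exact h2)
    rw [hc.card Q1, ← hc.s_card P] at hst1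
    have hcard1 : Nat.card Q1 = Nat.card (c.s N') * Nat.card (zpowers ((π z) ^ (p ^ t))) :=
      card_comap_mk (c.s N') _
    have hcard2 : Nat.card (c.s P) = Nat.card (c.s N') * Nat.card (zpowers (π z)) := by
      rw [← card_comap_mk (c.s N') (zpowers (π z)), ← hmap, ← hπ, Subgroup.comap_map_eq, hπ,
        QuotientGroup.ker_mk', sup_eq_left.2]
      rw [hc.s_le_iff hG hH N' hN', c.ts_eq P hP]
      exact hN'P
    obtain ⟨e, he⟩ := (IsPGroup.iff_orderOf.1 hpQ) (π z)
    have hte : t < e := by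
      by_contra hge
      push Not at hge
      apply hS
      have h1 : (π z) ^ (p ^ t) = 1 := by
        rw [← orderOf_dvd_iff_pow_eq_one, he]
        exact pow_dvd_pow _ hge
      rw [h1]
      exact one_mem _
    have hord : Nat.card (zpowers (π z)) = p ^ t * Nat.card (zpowers ((π z) ^ (p ^ t))) := by
      rw [Nat.card_zpowers, Nat.card_zpowers, orderOf_pow, he,
        Nat.gcd_eq_right (pow_dvd_pow p hte.le), Nat.mul_div_cancel' (pow_dvd_pow p hte.le)]
    rw [hcard1, hcard2, hord] at hst1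
    have hpos : 0 < Nat.card (c.s N') * Nat.card (zpowers ((π z) ^ (p ^ t))) :=
      Nat.mul_pos Nat.card_pos Nat.card_pos
    apply Nat.dvd_of_mul_dvd_mul_left hpos
    convert hst1 using 1
    ring
  have hgt := gt_lemma hpQ (π z) hzn n hn1 hlcs hstar
  rw [← hmap, ← map_itc π hsurj, Subgroup.map_eq_bot_iff, hπ, QuotientGroup.ker_mk'] at hgt
  exact hVM' (sup_le hgt hMM')

/-- the bounding function -/
def FF : ℕ → ℕ
  | 0 => 0
  | n + 1 => FF n + KK (max (FF n) 1)

theorem Corr.main_induction (c : Corr G H) (hc : c.Nice) (hG : IsPGroup p G) (hH : IsPGroup p H)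
    (k : ℕ) : ∀ N : Subgroup G, N.Normal → (⊤ : Subgroup G).lowerCentralSeries k ≤ N →
      (⊤ : Subgroup H).lowerCentralSeries (FF k) ≤ c.s N := by
  induction k with
  | zero =>
    intro N hN hle
    rw [Subgroup.lowerCentralSeries_zero, top_le_iff] at hle
    subst hle
    have h1 : c.s (⊤ : Subgroup G) = ⊤ := by
      apply Subgroup.eq_top_of_card_eq
      rw [hc.s_card, Subgroup.card_top, hc.top]
    rw [h1]
    exact le_top
  | succ k ih =>
    intro N hN hle
    set P : Subgroup G := (⊤ : Subgroup G).lowerCentralSeries k ⊔ N with hP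
    have hPn : P.Normal := Subgroup.sup_normal _ _
    have hPN : ⁅P, (⊤ : Subgroup G)⁆ ≤ N := by
      rw [commutator_top_le_iff, hP, sup_le_iff]
      constructor
      · rw [← commutator_top_le_iff]
        exact hle
      · rw [← commutator_top_le_iff]
        exact Subgroup.commutator_le_left _ _
    have h1 := ih P hPn le_sup_left
    have h2 : (⊤ : Subgroup H).lowerCentralSeries (max (FF k) 1) ≤ c.s P :=
      (Subgroup.lowerCentralSeries_antitone _ (le_max_left _ _)).trans h1
    have h3 := c.main_step hc hG hH (max (FF k) 1) (le_max_right _ _) P N hPn hN le_sup_right hPN h2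
    have h4 : FF (k + 1) = FF k + KK (max (FF k) 1) := rfl
    rw [h4, lcs_add]
    exact (itc_mono h1 _).trans h3

theorem class_le (φ : BR G ≃+* BR H) (hG : IsPGroup p G) (hH : IsPGroup p H)
    [Group.IsNilpotent G] [Group.IsNilpotent H] :
    Group.nilpotencyClass H ≤ FF (Group.nilpotencyClass G) := by
  obtain ⟨c₀⟩ := nonempty_corr φ
  obtain ⟨c, hc⟩ := c₀.exists_nice hG hH
  rw [← Subgroup.lowerCentralSeries_eq_bot_iff_nilpotencyClass_le]
  have h1 := c.main_induction hc hG hH (Group.nilpotencyClass G) ⊥ inferInstance (by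
    rw [Subgroup.lowerCentralSeries_nilpotencyClass])
  have h2 : c.s (⊥ : Subgroup G) = ⊥ := by
    rw [← Subgroup.card_eq_one, hc.s_card, Subgroup.card_bot]
  rw [h2] at h1
  exact le_bot_iff.1 h1

end Star

end Pool.Agent.Lib.MP_6b5f89_al
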